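import Mathlib

/-!
# MP_b0e20b_ag, block A (alternating families): definitions and the staircase
-/

set_option autoImplicit false

open scoped BigOperators

namespace Pool.Agent.MPb0eA

/-- `T` and `U` alternate: the nonzero signs of the differences `T i - U i` alternate. -/
def Alt {d : ℕ} (T U : Fin d → ℕ) : Prop :=
  ∀ i j, i < j → T i ≠ U i → T j ≠ U j → (∀ k, i < k → k < j → T k = U k) →
    (T i < U i ↔ U j < T j)

/-- The elements of `C` alternate pairwise. -/
def Pw {d : ℕ} (C : Finset (Fin d → ℕ)) : Prop := ∀ T ∈ C, ∀ U ∈ C, Alt T U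

/-- The last coordinate where `T` and `U` differ is smaller for `T`. -/
def Rl {d : ℕ} (T U : Fin d → ℕ) : Prop := ∃ j, T j < U j ∧ ∀ k, j < k → T k = U k

/-- Weights: the sum is `1`, and the sum over all elements with a given nonzero value of a
coordinate is `0`. -/
structure Wt {d : ℕ} (C : Finset (Fin d → ℕ)) (lam : (Fin d → ℕ) → ℝ) : Prop where
  one : ∑ T ∈ C, lam T = 1
  zero : ∀ i b, 1 ≤ b → ∑ T ∈ C with T i = b, lam T = 0

theorem Alt.symm {d : ℕ} {T U : Fin d → ℕ} (h : Alt T U) : Alt U T := by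
  intro i j hij hi hj hk
  have h1 := h i j hij hi.symm hj.symm fun k h2 h3 => (hk k h2 h3).symm
  constructor
  · intro h2
    rcases lt_or_gt_of_ne hj with h3 | h3
    · exact absurd (h1.2 h3) (by omega)
    · exact h3
  · intro h2
    rcases lt_or_gt_of_ne hi with h3 | h3
    · exact h3
    · exact absurd (h1.1 h3) (by omega)

theorem Alt.refl {d : ℕ} (T : Fin d → ℕ) : Alt T T := fun _ _ _ h => absurd rfl h

theorem Rl.irrefl {d : ℕ} (T : Fin d → ℕ) : ¬ Rl T T := fun ⟨_, h, _⟩ => lt_irrefl _ h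

theorem Rl.trans {d : ℕ} {T U V : Fin d → ℕ} (h : Rl T U) (h' : Rl U V) : Rl T V := by
  obtain ⟨j, hj, hk⟩ := h
  obtain ⟨j', hj', hk'⟩ := h'
  rcases lt_trichotomy j j' with h1 | h1 | h1
  · exact ⟨j', by rw [hk j' h1]; exact hj', fun k h2 => (hk k (h1.trans h2)).trans (hk' k h2)⟩
  · subst h1
    exact ⟨j, hj.trans hj', fun k h2 => (hk k h2).trans (hk' k h2)⟩
  · exact ⟨j, by rw [← hk' j h1]; exact hj, fun k h2 => (hk k h2).trans (hk' k (h1.trans h2))⟩

theorem Rl.tri {d : ℕ} {T U : Fin d → ℕ} (h : T ≠ U) : Rl T U ∨ Rl U T := by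
  classical
  have h1 : (Finset.univ.filter fun k => T k ≠ U k).Nonempty := by
    by_contra h2
    rw [Finset.not_nonempty_iff_eq_empty, Finset.filter_eq_empty_iff] at h2
    exact h (funext fun k => by simpa using h2 (Finset.mem_univ k))
  set j := (Finset.univ.filter fun k => T k ≠ U k).max' h1 with hj
  have h2 : T j ≠ U j := (Finset.mem_filter.1 (Finset.max'_mem _ h1)).2
  have h3 : ∀ k, j < k → T k = U k := by
    intro k hk
    by_contra h4
    have h5 := Finset.le_max' (Finset.univ.filter fun k => T k ≠ U k) k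
      (Finset.mem_filter.2 ⟨Finset.mem_univ k, h4⟩)
    exact absurd hk (not_lt.2 h5)
  rcases lt_or_gt_of_ne h2 with h4 | h4
  · exact Or.inl ⟨j, h4, h3⟩
  · exact Or.inr ⟨j, h4, fun k hk => (h3 k hk).symm⟩

theorem Rl.asymm {d : ℕ} {T U : Fin d → ℕ} (h : Rl T U) : ¬ Rl U T :=
  fun h' => Rl.irrefl T (h.trans h')

/-- The order in terms of the last coordinate and the truncation. -/
theorem Rl_succ {d : ℕ} {T U : Fin (d + 1) → ℕ} :
    Rl T U ↔ T (Fin.last d) < U (Fin.last d) ∨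
      (T (Fin.last d) = U (Fin.last d) ∧ Rl (Fin.init T) (Fin.init U)) := by
  constructor
  · rintro ⟨j, hj, hk⟩
    refine Fin.lastCases (fun hj _ => Or.inl hj) (fun j hj hk => ?_) j hj hk
    refine Or.inr ⟨hk _ (Fin.castSucc_lt_last j), j, hj, fun k h => ?_⟩
    exact hk k.castSucc (Fin.castSucc_lt_castSucc_iff.2 h)
  · rintro (h | ⟨h, j, hj, hk⟩)
    · exact ⟨Fin.last d, h, fun k hk => absurd hk (not_lt.2 (Fin.le_last k))⟩
    · refine ⟨j.castSucc, hj, fun k => Fin.lastCases (fun _ => h) (fun k hk' => ?_) k⟩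
      exact hk k (Fin.castSucc_lt_castSucc_iff.1 hk')

theorem Alt.init {d : ℕ} {T U : Fin (d + 1) → ℕ} (h : Alt T U) :
    Alt (Fin.init T) (Fin.init U) := by
  intro i j hij hi hj hk
  refine h i.castSucc j.castSucc (Fin.castSucc_lt_castSucc_iff.2 hij) hi hj ?_
  intro k
  refine Fin.lastCases (fun _ h2 => ?_) (fun k h1 h2 => ?_) k
  · exact absurd h2 (not_lt.2 (Fin.le_last _))
  · exact hk k (Fin.castSucc_lt_castSucc_iff.1 h1) (Fin.castSucc_lt_castSucc_iff.1 h2)

/-- The staircase: if the truncation of `T` is smaller, then the last coordinate is larger. -/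
theorem Alt.anti {d : ℕ} {T U : Fin (d + 1) → ℕ} (h : Alt T U)
    (hr : Rl (Fin.init T) (Fin.init U)) : U (Fin.last d) ≤ T (Fin.last d) := by
  obtain ⟨j, hj, hk⟩ := hr
  by_contra h1
  rw [not_le] at h1
  have h2 := h j.castSucc (Fin.last d) (Fin.castSucc_lt_last j) (ne_of_lt hj) (ne_of_lt h1) (by
    intro k
    refine Fin.lastCases (fun _ h3 => absurd h3 (lt_irrefl _)) (fun k h3 _ => ?_) k
    exact hk k (Fin.castSucc_lt_castSucc_iff.1 h3))
  exact absurd (h2.1 hj) (not_lt.2 h1.le)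

/-- Truncations of a pairwise alternating family. -/
theorem Pw.image {d : ℕ} {C : Finset (Fin (d + 1) → ℕ)} (h : Pw C) :
    Pw (C.image Fin.init) := by
  intro T hT U hU
  obtain ⟨T', hT', rfl⟩ := Finset.mem_image.1 hT
  obtain ⟨U', hU', rfl⟩ := Finset.mem_image.1 hU
  exact (h T' hT' U' hU').init

theorem Pw.mono {d : ℕ} {C C' : Finset (Fin d → ℕ)} (h : Pw C) (hC : C' ⊆ C) : Pw C' :=
  fun T hT U hU => h T (hC hT) U (hC hU)

/-- A finite nonempty set has a minimal element for a transitive irreflexive relation. -/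
theorem exists_rmin {α : Type} [DecidableEq α] {r : α → α → Prop} (hi : ∀ x, ¬ r x x)
    (ht : ∀ x y z, r x y → r y z → r x z) (s : Finset α) (hs : s.Nonempty) :
    ∃ m ∈ s, ∀ x ∈ s, ¬ r x m := by
  classical
  induction hn : s.card using Nat.strong_induction_on generalizing s with
  | _ n ih =>
    obtain ⟨a, ha⟩ := hs
    by_cases h : (s.filter fun x => r x a).Nonempty
    · have hlt : (s.filter fun x => r x a).card < n := by
        rw [← hn]
        refine Finset.card_lt_card ⟨Finset.filter_subset _ _, fun h1 => ?_⟩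
        exact hi a (Finset.mem_filter.1 (h1 ha)).2
      obtain ⟨m, hm, hm'⟩ := ih _ hlt _ h rfl
      have h2 := Finset.mem_filter.1 hm
      exact ⟨m, h2.1, fun x hx hxm => hm' x
        (Finset.mem_filter.2 ⟨hx, ht _ _ _ hxm h2.2⟩) hxm⟩
    · exact ⟨a, ha, fun x hx hxa => h ⟨x, Finset.mem_filter.2 ⟨hx, hxa⟩⟩⟩

/-- The staircase order: truncations increasing, then last coordinates decreasing. -/
def Sc {d : ℕ} (T U : Fin (d + 1) → ℕ) : Prop :=
  Rl (Fin.init T) (Fin.init U) ∨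
    (Fin.init T = Fin.init U ∧ U (Fin.last d) < T (Fin.last d))

theorem Sc.irrefl {d : ℕ} (T : Fin (d + 1) → ℕ) : ¬ Sc T T := by
  rintro (h | ⟨_, h⟩)
  · exact Rl.irrefl _ h
  · exact lt_irrefl _ h

theorem Sc.trans {d : ℕ} (T U V : Fin (d + 1) → ℕ) (h : Sc T U) (h' : Sc U V) : Sc T V := by
  rcases h with h | ⟨h, h1⟩ <;> rcases h' with h' | ⟨h', h2⟩
  · exact Or.inl (h.trans h')
  · exact Or.inl (h' ▸ h)
  · exact Or.inl (h ▸ h')
  · exact Or.inr ⟨h.trans h', h2.trans h1⟩

theorem eq_of_init_last {d : ℕ} {T U : Fin (d + 1) → ℕ} (h : Fin.init T = Fin.init U)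
    (h' : T (Fin.last d) = U (Fin.last d)) : T = U := by
  rw [← Fin.snoc_init_self T, ← Fin.snoc_init_self U, h, h']

theorem Sc.tri {d : ℕ} {T U : Fin (d + 1) → ℕ} (h : T ≠ U) : Sc T U ∨ Sc U T := by
  by_cases h1 : Fin.init T = Fin.init U
  · have h2 : T (Fin.last d) ≠ U (Fin.last d) := fun h2 => h (eq_of_init_last h1 h2)
    rcases lt_or_gt_of_ne h2 with h3 | h3
    · exact Or.inr (Or.inr ⟨h1.symm, h3⟩)
    · exact Or.inl (Or.inr ⟨h1, h3⟩)
  · rcases Rl.tri h1 with h2 | h2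
    · exact Or.inl (Or.inl h2)
    · exact Or.inr (Or.inl h2)

end Pool.Agent.MPb0eA
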