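import Pool.Agent.Lib.MP_b0e20b_ag_A.LabD
import Pool.Agent.Lib.MP_b0e20b_ag_F.Sys
import Pool.Agent.Lib.MP_b0e20b_ag_Q.C1

/-!
# MP_b0e20b_ag, block A: the critical system in the label frame
-/

set_option autoImplicit false

open scoped BigOperators

namespace Pool.Agent.MPb0eA

open MPb0eF MPb0eQ

variable {d : ℕ} {n : Fin d → ℕ}

/-- The tuple of a monomial. -/
noncomputable def tup (S : NS (blk n)) : Fin d → ℕ := fun i => (ix S.1 i : ℕ)

theorem tup_mem (S : NS (blk n)) : tup S ∈ Mo n := by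
  rw [mem_Mo]
  refine ⟨fun h => ?_, fun i => Nat.lt_succ_iff.1 (ix S.1 i).2⟩
  obtain ⟨⟨i, l⟩, hk⟩ := S.2
  have h1 := (mem_iff_ix S.1 i l).1 hk
  have h2 : (ix S.1 i : ℕ) = 0 := congrFun h i
  rw [h1] at h2
  simp at h2

theorem tup_inj : Function.Injective (tup : NS (blk n) → Fin d → ℕ) := by
  intro S S' h
  have h1 : ix S.1 = ix S'.1 := by
    funext i
    exact Fin.ext (congrFun h i)
  exact Subtype.ext (ix_bij.1 h1)

theorem tup_surj {T : Fin d → ℕ} (h : T ∈ Mo n) : ∃ S : NS (blk n), tup S = T := by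
  rw [mem_Mo] at h
  obtain ⟨S, hS⟩ := ix_bij.2 (fun i => (⟨T i, Nat.lt_succ_iff.2 (h.2 i)⟩ : Fin (n i + 1)))
  have h1 : ∀ i, (ix S i : ℕ) = T i := fun i => by rw [hS]
  have h2 : S.1.Nonempty := by
    rw [Finset.nonempty_iff_ne_empty]
    intro h3
    apply h.1
    funext i
    rw [← h1 i]
    rcases Fin.eq_zero_or_eq_succ (ix S i) with h4 | ⟨l, h4⟩
    · rw [h4]
      rfl
    · have h5 := (mem_iff_ix S i l).2 h4
      rw [h3] at h5
      simp at h5
  exact ⟨⟨S, h2⟩, funext h1⟩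

theorem mem_tup (S : NS (blk n)) (i : Fin d) (l : Fin (n i)) :
    (⟨i, l⟩ : Kx n) ∈ S.1.1 ↔ tup S i = (l : ℕ) + 1 := by
  rw [mem_iff_ix]
  constructor
  · intro h
    rw [tup, h, Fin.val_succ]
  · intro h
    exact Fin.ext (by rw [Fin.val_succ]; exact h)

open Classical in
/-- The monomial with the tuple `T` (junk: `p`). -/
noncomputable def eM (T : Fin d → ℕ) : El (blk n) :=
  if h : T ∈ Mo n then .inl (Classical.choose (tup_surj h)) else .inr (.inr (.inr ()))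

theorem eM_tup (S : NS (blk n)) : eM (tup S) = (.inl S : El (blk n)) := by
  rw [eM, dif_pos (tup_mem S)]
  exact congrArg _ (tup_inj (Classical.choose_spec (tup_surj (tup_mem S))))

variable (n) in
/-- The element `t (i, b)` (junk: `p`). -/
def eT (i : Fin d) (b : ℕ) : El (blk n) :=
  if b = 0 then .inr (.inr (.inl i)) else
    if h : b - 1 < n i then .inr (.inl ⟨i, ⟨b - 1, h⟩⟩) else .inr (.inr (.inr ()))

variable (n) in
/-- The element `p`. -/
def eP : El (blk n) := .inr (.inr (.inr ()))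

theorem eT_zero (i : Fin d) : eT n i 0 = .inr (.inr (.inl i)) := if_pos rfl

theorem eT_succ (i : Fin d) (l : Fin (n i)) : eT n i ((l : ℕ) + 1) = .inr (.inl ⟨i, l⟩) := by
  have h : (l : ℕ) + 1 - 1 < n i := by
    rw [Nat.add_sub_cancel]
    exact l.2
  rw [eT, if_neg (Nat.succ_ne_zero _), dif_pos h]
  rfl

/-- Sums over the elements. -/
theorem sum_El {R : Type} [AddCommMonoid R] (f : El (blk n) → R) :
    ∑ E, f E = ∑ T ∈ Mo n, f (eM T) + (∑ i, ∑ b ∈ Finset.range (n i + 1), f (eT n i b) +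
      f (eP n)) := by
  rw [Fintype.sum_sum_type, Fintype.sum_sum_type, Fintype.sum_sum_type]
  have h1 : ∑ S : NS (blk n), f (.inl S) = ∑ T ∈ Mo n, f (eM T) := by
    refine Finset.sum_bij (fun S _ => tup S) (fun S _ => tup_mem S)
      (fun S _ S' _ h => tup_inj h) (fun T hT => ?_) (fun S _ => by rw [eM_tup])
    obtain ⟨S, hS⟩ := tup_surj hT
    exact ⟨S, Finset.mem_univ S, hS⟩
  have h2 : ∀ i, ∑ b ∈ Finset.range (n i + 1), f (eT n i b) =
      ∑ l : Fin (n i), f (.inr (.inl ⟨i, l⟩)) + f (.inr (.inr (.inl i))) := by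
    intro i
    rw [Finset.sum_range_succ', eT_zero]
    congr 1
    rw [← Fin.sum_univ_eq_sum_range (fun b => f (eT n i (b + 1))) (n i)]
    exact Finset.sum_congr rfl fun l _ => by rw [eT_succ]
  have h3 : ∑ u : Unit, f (.inr (.inr (.inr u))) = f (eP n) := Fintype.sum_unique _
  rw [h1, h3, Finset.sum_congr rfl fun i _ => h2 i, Finset.sum_add_distrib,
    Fintype.sum_sigma, add_assoc]

/-- The value of a function at the label `b` of the factor `i` (zero for the label `0`). -/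
def lb {R : Type} [Zero R] (f : Un (Kx n) d → R) (i : Fin d) (b : ℕ) : R :=
  if h : b ≠ 0 ∧ b - 1 < n i then f (.inl ⟨i, ⟨b - 1, h.2⟩⟩) else 0

theorem lb_zero {R : Type} [Zero R] (f : Un (Kx n) d → R) (i : Fin d) : lb f i 0 = 0 :=
  dif_neg fun h => h.1 rfl

theorem lb_succ {R : Type} [Zero R] (f : Un (Kx n) d → R) (i : Fin d) (l : Fin (n i)) :
    lb f i ((l : ℕ) + 1) = f (.inl ⟨i, l⟩) := by
  have h : (l : ℕ) + 1 ≠ 0 ∧ (l : ℕ) + 1 - 1 < n i := ⟨Nat.succ_ne_zero _, by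
    rw [Nat.add_sub_cancel]
    exact l.2⟩
  rw [lb, dif_pos h]
  rfl

theorem sum_lb {R : Type} [CommRing R] (f : Un (Kx n) d → R) (i : Fin d) {b : ℕ} (hb : b ≤ n i) :
    ∑ l : Fin (n i), (if b = (l : ℕ) + 1 then f (.inl ⟨i, l⟩) else 0) = lb f i b := by
  rcases Nat.eq_zero_or_pos b with h0 | h0
  · subst h0
    rw [lb_zero]
    exact Finset.sum_eq_zero fun l _ => if_neg (Nat.succ_ne_zero _).symm
  · obtain ⟨c, rfl⟩ : ∃ c, b = c + 1 := ⟨b - 1, by omega⟩
    have h1 := lb_succ f i ⟨c, hb⟩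
    rw [Fin.val_mk] at h1
    rw [h1, Finset.sum_eq_single (⟨c, hb⟩ : Fin (n i))]
    · rw [if_pos rfl]
    · intro l _ hl
      rw [if_neg]
      intro h2
      exact hl (Fin.ext (by simpa using h2.symm))
    · intro h2
      exact absurd (Finset.mem_univ _) h2

variable {R : Type} [CommRing R]

theorem eF_eM (f : Un (Kx n) d → R) {T : Fin d → ℕ} (hT : T ∈ Mo n) :
    ∑ l, ((eF (blk n) (eM T) l : ℤ) : R) * f l = ∑ i, lb f i (T i) := by
  obtain ⟨S, rfl⟩ := tup_surj hT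
  rw [eM_tup, Fintype.sum_sum_type, Fintype.sum_sigma]
  have h1 : ∑ i, ((eF (blk n) (.inl S) (.inr i) : ℤ) : R) * f (.inr i) = 0 :=
    Finset.sum_eq_zero fun i _ => by
      have h2 : eF (blk n) (.inl S) (.inr i) = 0 := rfl
      rw [h2, Int.cast_zero, zero_mul]
  rw [h1, add_zero]
  refine Finset.sum_congr rfl fun i _ => ?_
  rw [← sum_lb f i ((mem_Mo.1 hT).2 i)]
  refine Finset.sum_congr rfl fun l _ => ?_
  have h2 : eF (blk n) (.inl S) (.inl ⟨i, l⟩) = if (⟨i, l⟩ : Kx n) ∈ S.1.1 then 1 else 0 := rfl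
  rw [h2]
  by_cases h3 : tup S i = (l : ℕ) + 1
  · rw [if_pos ((mem_tup S i l).2 h3), if_pos h3, Int.cast_one, one_mul]
  · rw [if_neg (fun h4 => h3 ((mem_tup S i l).1 h4)), if_neg h3, Int.cast_zero, zero_mul]

theorem vF_eM (f : Un (Kx n) d → R) {T : Fin d → ℕ} (hT : T ∈ Mo n) :
    ∑ l, ((vF (blk n) (eM T) l : ℤ) : R) * f l = ∑ i, lb f i (T i) := by
  rw [← eF_eM f hT]
  obtain ⟨S, rfl⟩ := tup_surj hT
  rw [eM_tup]
  refine Finset.sum_congr rfl fun l _ => ?_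
  rcases l with l | l <;> rfl

theorem eF_eP (f : Un (Kx n) d → R) :
    ∑ l, ((eF (blk n) (eP n) l : ℤ) : R) * f l = ∑ i, f (.inr i) := by
  rw [Fintype.sum_sum_type]
  have h1 : ∑ k, ((eF (blk n) (eP n) (.inl k) : ℤ) : R) * f (.inl k) = 0 :=
    Finset.sum_eq_zero fun i _ => by
      have h2 : eF (blk n) (eP n) (.inl i) = 0 := rfl
      rw [h2, Int.cast_zero, zero_mul]
  rw [h1, zero_add]
  refine Finset.sum_congr rfl fun i _ => ?_
  have h2 : eF (blk n) (eP n) (.inr i) = 1 := rfl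
  rw [h2, Int.cast_one, one_mul]

theorem vF_eP (f : Un (Kx n) d → R) :
    ∑ l, ((vF (blk n) (eP n) l : ℤ) : R) * f l = - ∑ i, f (.inr i) := by
  rw [Fintype.sum_sum_type]
  have h1 : ∑ k, ((vF (blk n) (eP n) (.inl k) : ℤ) : R) * f (.inl k) = 0 :=
    Finset.sum_eq_zero fun i _ => by
      have h2 : vF (blk n) (eP n) (.inl i) = 0 := rfl
      rw [h2, Int.cast_zero, zero_mul]
  rw [h1, zero_add, ← Finset.sum_neg_distrib]
  refine Finset.sum_congr rfl fun i _ => ?_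
  have h2 : vF (blk n) (eP n) (.inr i) = -1 := rfl
  rw [h2, Int.cast_neg, Int.cast_one, neg_one_mul]

private theorem Lab_ne {ι : Type} [Fintype ι] [DecidableEq ι] (i : ι) (f : ι → R) :
    ∑ j, (if j = i then (0 : R) else 1) * f j = ∑ j, f j - f i := by
  rw [eq_sub_iff_add_eq, ← Finset.sum_ite_eq Finset.univ i f |>.trans (if_pos (Finset.mem_univ i)),
    ← Finset.sum_add_distrib]
  refine Finset.sum_congr rfl fun j _ => ?_
  by_cases h : j = i
  · rw [if_pos h, if_pos h.symm, zero_mul, zero_add]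
  · rw [if_neg h, if_neg (Ne.symm h), one_mul, add_zero]

theorem eF_eT (f : Un (Kx n) d → R) (i : Fin d) {b : ℕ} (hb : b ≤ n i) :
    ∑ l, ((eF (blk n) (eT n i b) l : ℤ) : R) * f l =
      2 * lb f i b + (∑ j, f (.inr j) - f (.inr i)) := by
  rw [Fintype.sum_sum_type]
  rcases Nat.eq_zero_or_pos b with h0 | h0
  · subst h0
    rw [eT_zero, lb_zero, mul_zero]
    congr 1
    · refine Finset.sum_eq_zero fun k _ => ?_
      have h2 : eF (blk n) (.inr (.inr (.inl i))) (.inl k) = 0 := rfl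
      rw [h2, Int.cast_zero, zero_mul]
    · rw [← Lab_ne i fun j => f (.inr j)]
      refine Finset.sum_congr rfl fun j _ => ?_
      have h2 : eF (blk n) (.inr (.inr (.inl i))) (.inr j) = if j = i then 0 else 1 := rfl
      rw [h2]
      split_ifs
      · rw [Int.cast_zero]
      · rw [Int.cast_one]
  · obtain ⟨c, rfl⟩ : ∃ c, b = c + 1 := ⟨b - 1, by omega⟩
    have h1 := eT_succ i ⟨c, hb⟩
    have h1' := lb_succ f i ⟨c, hb⟩
    rw [Fin.val_mk] at h1 h1'
    rw [h1, h1']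
    congr 1
    · rw [Finset.sum_eq_single (⟨i, ⟨c, hb⟩⟩ : Kx n)]
      · have h2 : eF (blk n) (.inr (.inl ⟨i, ⟨c, hb⟩⟩)) (.inl ⟨i, ⟨c, hb⟩⟩) = 2 := if_pos rfl
        rw [h2]
        norm_num
      · intro k _ hk
        have h2 : eF (blk n) (.inr (.inl ⟨i, ⟨c, hb⟩⟩)) (.inl k) = 0 := if_neg hk
        rw [h2, Int.cast_zero, zero_mul]
      · intro h2
        exact absurd (Finset.mem_univ _) h2
    · rw [← Lab_ne i fun j => f (.inr j)]
      refine Finset.sum_congr rfl fun j _ => ?_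
      have h2 : eF (blk n) (.inr (.inl ⟨i, ⟨c, hb⟩⟩)) (.inr j) = if j = i then 0 else 1 := rfl
      rw [h2]
      split_ifs
      · rw [Int.cast_zero]
      · rw [Int.cast_one]

theorem vF_eT (f : Un (Kx n) d → R) (i : Fin d) {b : ℕ} (hb : b ≤ n i) :
    ∑ l, ((vF (blk n) (eT n i b) l : ℤ) : R) * f l = f (.inr i) - lb f i b := by
  rw [Fintype.sum_sum_type, sub_eq_neg_add]
  rcases Nat.eq_zero_or_pos b with h0 | h0
  · subst h0
    rw [eT_zero, lb_zero]
    congr 1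
    · rw [neg_zero]
      refine Finset.sum_eq_zero fun k _ => ?_
      have h2 : vF (blk n) (.inr (.inr (.inl i))) (.inl k) = 0 := rfl
      rw [h2, Int.cast_zero, zero_mul]
    · rw [Finset.sum_eq_single i]
      · have h2 : vF (blk n) (.inr (.inr (.inl i))) (.inr i) = 1 := if_pos rfl
        rw [h2, Int.cast_one, one_mul]
      · intro j _ hj
        have h2 : vF (blk n) (.inr (.inr (.inl i))) (.inr j) = 0 := if_neg hj
        rw [h2, Int.cast_zero, zero_mul]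
      · intro h2
        exact absurd (Finset.mem_univ _) h2
  · obtain ⟨c, rfl⟩ : ∃ c, b = c + 1 := ⟨b - 1, by omega⟩
    have h1 := eT_succ i ⟨c, hb⟩
    have h1' := lb_succ f i ⟨c, hb⟩
    rw [Fin.val_mk] at h1 h1'
    rw [h1, h1']
    congr 1
    · rw [Finset.sum_eq_single (⟨i, ⟨c, hb⟩⟩ : Kx n)]
      · have h2 : vF (blk n) (.inr (.inl ⟨i, ⟨c, hb⟩⟩)) (.inl ⟨i, ⟨c, hb⟩⟩) = -1 := if_pos rfl
        rw [h2, Int.cast_neg, Int.cast_one, neg_one_mul]
      · intro k _ hk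
        have h2 : vF (blk n) (.inr (.inl ⟨i, ⟨c, hb⟩⟩)) (.inl k) = 0 := if_neg hk
        rw [h2, Int.cast_zero, zero_mul]
      · intro h2
        exact absurd (Finset.mem_univ _) h2
    · rw [Finset.sum_eq_single i]
      · have h2 : vF (blk n) (.inr (.inl ⟨i, ⟨c, hb⟩⟩)) (.inr i) = 1 := if_pos rfl
        rw [h2, Int.cast_one, one_mul]
      · intro j _ hj
        have h2 : vF (blk n) (.inr (.inl ⟨i, ⟨c, hb⟩⟩)) (.inr j) = 0 := if_neg hj
        rw [h2, Int.cast_zero, zero_mul]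
      · intro h2
        exact absurd (Finset.mem_univ _) h2

/-- The sums of the exponents `sg` of the flag. -/
def sgL (w : Un (Kx n) d → ℝ) (i : Fin d) : ℝ := w (.inr i)

variable {hh : (Fin d → ℕ) → ℝ} {w : Un (Kx n) d → ℝ}

/-- The heights of the elements. -/
noncomputable def hE (n : Fin d → ℕ) (hh : (Fin d → ℕ) → ℝ) : El (blk n) → ℝ :=
  hF (blk n) fun S => hh (tup S)

theorem hE_eM {T : Fin d → ℕ} (hT : T ∈ Mo n) : hE n hh (eM T) = hh T := by
  obtain ⟨S, rfl⟩ := tup_surj hT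
  rw [eM_tup]
  rfl

theorem hE_eT (i : Fin d) (b : ℕ) : hE n hh (eT n i b) = 0 := by
  rw [eT]
  split_ifs <;> rfl

theorem val_eM {T : Fin d → ℕ} (hT : T ∈ Mo n) :
    val (hE n hh) (eF (blk n)) w (eM T) = vM hh (lb w) T := by
  rw [val, hE_eM hT, vM, eF_eM w hT]

theorem val_eT (i : Fin d) {b : ℕ} (hb : b ≤ n i) :
    val (hE n hh) (eF (blk n)) w (eT n i b) = vT (lb w) (sgL w) i b := by
  rw [val, hE_eT, zero_add, eF_eT w i hb]
  rfl

theorem val_eP : val (hE n hh) (eF (blk n)) w (eP n) = vP (sgL w) := by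
  rw [val, eF_eP w]
  exact zero_add _

theorem lev_iff {Ω Λ : Type} [Fintype Λ] {h : Ω → ℝ} {ex : Ω → Λ → ℤ} {w : Λ → ℝ}
    {lev : Ω → ℕ} (hL : Lev h ex w lev) (E E' : Ω) :
    (lev E' = lev E ↔ val h ex w E' = val h ex w E) ∧
      (lev E' < lev E ↔ val h ex w E < val h ex w E') := by
  rcases lt_trichotomy (lev E') (lev E) with h1 | h1 | h1
  · have h2 := hL.2 _ _ h1
    exact ⟨⟨fun h => absurd h h1.ne, fun h => absurd h h2.ne'⟩, ⟨fun _ => h2, fun _ => h1⟩⟩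
  · have h2 := hL.1 _ _ h1
    exact ⟨⟨fun _ => h2, fun _ => h1⟩, ⟨fun h => absurd h1 h.ne, fun h => absurd h2 h.ne'⟩⟩
  · have h2 := hL.2 _ _ h1
    exact ⟨⟨fun h => absurd h h1.ne', fun h => absurd h h2.ne⟩,
      ⟨fun h => absurd h (by omega), fun h => absurd h (by linarith)⟩⟩

/-- The relations of a flag in terms of the values. -/
theorem inR_val {Ω Λ Ρ : Type} [Fintype Ω] [Fintype Λ] [Fintype Ρ] {vec : Ω → Ρ → ℤ} {h : Ω → ℝ}
    {ex : Ω → Λ → ℤ} {w : Λ → ℝ} {lev : Ω → ℕ} {ζ : Ω → ℂ} (hL : Lev h ex w lev)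
    (hR : ∀ j, InR vec lev j ζ) (Φ : Ρ → ℚ) (X : ℝ)
    (h0 : ∀ E, X < val h ex w E → dot Φ (vec E) = 0) :
    ∑ E, (if val h ex w E = X then ζ E * ((dot Φ (vec E) : ℚ) : ℂ) else 0) = 0 := by
  by_cases h1 : ∃ E0, val h ex w E0 = X
  · obtain ⟨E0, rfl⟩ := h1
    have h2 := hR (lev E0) Φ fun E hE => h0 E (((lev_iff hL E0 E).2).1 hE)
    refine Eq.trans (Finset.sum_congr rfl fun E _ => ?_) h2
    by_cases h3 : lev E = lev E0
    · rw [if_pos h3, if_pos (((lev_iff hL E0 E).1).1 h3)]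
    · rw [if_neg h3, if_neg (fun h4 => h3 (((lev_iff hL E0 E).1).2 h4))]
  · exact Finset.sum_eq_zero fun E _ => if_neg fun h2 => h1 ⟨E, h2⟩

/-- Every flag of the critical system is a flag in the label frame. -/
theorem lab {lev : El (blk n) → ℕ} {ζ : El (blk n) → ℂ}
    (hL : Lev (hE n hh) (eF (blk n)) w lev) (hζ : ∀ E, ζ E ≠ 0)
    (hR : ∀ j, InR (vF (blk n)) lev j ζ) :
    LF n hh (lb w) (sgL w) (fun T => ζ (eM T)) (fun i b => ζ (eT n i b)) (ζ (eP n)) := by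
  refine ⟨lb_zero w, fun T _ => hζ _, fun i b _ => hζ _, hζ _, ?_⟩
  intro φ ψ X hφ hM hT hP
  obtain ⟨Φ, hΦ⟩ : ∃ Φ : Un (Kx n) d → ℚ, Φ = fun l => match l with
    | .inl k => φ k.1 ((k.2 : ℕ) + 1)
    | .inr i => ψ i := ⟨_, rfl⟩
  have h1 : ∀ i, Φ (.inr i) = ψ i := fun i => by rw [hΦ]
  have h2 : ∀ i b, b ≤ n i → lb Φ i b = φ i b := by
    intro i b hb
    rcases Nat.eq_zero_or_pos b with h0 | h0
    · subst h0
      rw [lb_zero, hφ]
    · obtain ⟨c, rfl⟩ : ∃ c, b = c + 1 := ⟨b - 1, by omega⟩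
      have h3 := lb_succ Φ i ⟨c, hb⟩
      rw [Fin.val_mk] at h3
      rw [h3, hΦ]
  have hd : ∀ v : Un (Kx n) d → ℤ, dot Φ v = ∑ l, ((v l : ℤ) : ℚ) * Φ l := fun v =>
    Finset.sum_congr rfl fun l _ => mul_comm _ _
  have dM : ∀ T ∈ Mo n, dot Φ (vF (blk n) (eM T)) = ∑ i, φ i (T i) := by
    intro T hT'
    rw [hd, vF_eM Φ hT']
    exact Finset.sum_congr rfl fun i _ => h2 i _ ((mem_Mo.1 hT').2 i)
  have dT : ∀ i, ∀ b ≤ n i, dot Φ (vF (blk n) (eT n i b)) = ψ i - φ i b := by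
    intro i b hb
    rw [hd, vF_eT Φ i hb, h1, h2 i b hb]
  have dP : dot Φ (vF (blk n) (eP n)) = - ∑ i, ψ i := by
    rw [hd, vF_eP Φ]
    exact congrArg _ (Finset.sum_congr rfl fun i _ => h1 i)
  have h3 := inR_val hL hR Φ X (by
    have key : ∀ E : El (blk n), (∃ T ∈ Mo n, E = eM T) ∨ (∃ i, ∃ b ≤ n i, E = eT n i b) ∨
        E = eP n := by
      rintro (S | ⟨i, l⟩ | i | u)
      · exact Or.inl ⟨tup S, tup_mem S, (eM_tup S).symm⟩
      · exact Or.inr (Or.inl ⟨i, (l : ℕ) + 1, l.2, (eT_succ i l).symm⟩)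
      · exact Or.inr (Or.inl ⟨i, 0, Nat.zero_le _, (eT_zero i).symm⟩)
      · exact Or.inr (Or.inr rfl)
    intro E hE
    rcases key E with ⟨T, hT', rfl⟩ | ⟨i, b, hb, rfl⟩ | rfl
    · rw [dM T hT']
      rw [val_eM hT'] at hE
      exact hM T hT' hE
    · rw [dT i b hb]
      rw [val_eT i hb] at hE
      exact sub_eq_zero.2 (hT i b hb hE)
    · rw [dP]
      rw [val_eP] at hE
      rw [hP hE, neg_zero])
  rw [sum_El, ← add_assoc] at h3
  rw [sub_eq_add_neg]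
  refine Eq.trans ?_ h3
  congr 1
  · congr 1
    · rw [Finset.sum_filter]
      refine Finset.sum_congr rfl fun T hT' => ?_
      rw [val_eM hT', dM T hT']
    · refine Finset.sum_congr rfl fun i _ => ?_
      rw [Finset.sum_filter]
      refine Finset.sum_congr rfl fun b hb => ?_
      have hb' : b ≤ n i := Nat.lt_succ_iff.1 (Finset.mem_range.1 hb)
      rw [val_eT i hb', dT i b hb']
  · rw [val_eP, dP]
    split_ifs
    · push_cast
      ring
    · simp

end Pool.Agent.MPb0eA
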