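import Pool.Agent.Lib.MP_b0e20b_ag_A.Val
import Pool.Agent.Lib.MP_b0e20b_ag_A.Lab

/-!
# MP_b0e20b_ag, block A: existence of the heights `Hx` for a format
-/

set_option autoImplicit false

open scoped BigOperators

namespace Pool.Agent.MPb0eA

open MPb0eF MPb0eQ

variable {d : ℕ}

/-- The heights for a format: flat, decreasing, with strict exchange, and independent. -/
theorem exists_Hx (n : Fin d → ℕ) :
    ∃ (h : (Fin d → ℕ) → ℝ) (r : Fin d → ℝ) (H c : ℝ), Hx n h H c ∧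
      ∀ (a : NS (blk n) → ℤ) (e : Fin d → ℤ),
        ∑ S, (a S : ℝ) * h (tup S) + ∑ i, (e i : ℝ) * r i = 0 → a = 0 ∧ e = 0 := by
  classical
  obtain ⟨g, r, H, c, hg, hind⟩ :=
    exists_heights (tup : NS (blk n) → Fin d → ℕ) (20 * ((d : ℝ) + 1))
  obtain ⟨h, hh1⟩ : ∃ h : (Fin d → ℕ) → ℝ, ∀ S : NS (blk n), h (tup S) = g S := by
    refine ⟨fun T => if hT : ∃ S : NS (blk n), tup S = T then g (Classical.choose hT) else 0,
      fun S => ?_⟩
    have h3 : ∃ S' : NS (blk n), tup S' = tup S := ⟨S, rfl⟩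
    have h4 : Classical.choose h3 = S := tup_inj (Classical.choose_spec h3)
    change (if hT : ∃ S' : NS (blk n), tup S' = tup S then g (Classical.choose hT) else 0) = g S
    rw [dif_pos h3, h4]
  refine ⟨h, r, H, c, ⟨hg.pos, hg.flat, ?_, ?_, ?_⟩, ?_⟩
  · intro T hT
    obtain ⟨S, rfl⟩ := tup_surj hT
    rw [hh1]
    exact hg.abs S
  · intro T hT U hU hle hne
    obtain ⟨S, rfl⟩ := tup_surj hT
    obtain ⟨S', rfl⟩ := tup_surj hU
    rw [hh1, hh1]
    exact hg.dec S' S hle hne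
  · intro T hT U hU hn V hV W hW he ha
    obtain ⟨S1, rfl⟩ := tup_surj hT
    obtain ⟨S2, rfl⟩ := tup_surj hU
    obtain ⟨S3, rfl⟩ := tup_surj hV
    obtain ⟨S4, rfl⟩ := tup_surj hW
    rw [hh1, hh1, hh1, hh1]
    exact hg.exc S1 S2 S3 S4 he ha hn
  · intro a e hae
    have h1 : ∑ S, (a S : ℝ) * h (tup S) = ∑ S, (a S : ℝ) * g S :=
      Finset.sum_congr rfl fun S _ => by rw [hh1]
    rw [h1] at hae
    exact hind a e hae

end Pool.Agent.MPb0eA
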