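import Pool.Agent.Lib.MP_b0e20b_ag_A.AltX
import Pool.Agent.Lib.MP_b0e20b_ag_A.Lab

/-!
# MP_b0e20b_ag, block A: the heights for a format
-/

set_option autoImplicit false

open scoped BigOperators

namespace Pool.Agent.MPb0eA

open MPb0eF MPb0eQ

variable {d : ℕ}

/-- The heights for a format: `H - c ≤ h ≤ H = h 0` with `K * c < H`, decreasing, with strict
exchange, and independent. -/
theorem exists_hh (n : Fin d → ℕ) (K : ℝ) :
    ∃ (h : (Fin d → ℕ) → ℝ) (r : Fin d → ℝ) (c H : ℝ), 0 < c ∧ K * c < H ∧ h 0 = H ∧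
      (∀ T, (∀ i, T i ≤ n i) → H - c ≤ h T ∧ h T ≤ H) ∧
      (∀ T, (∀ i, T i ≤ n i) → ∀ i b, b < T i → h T < h (Function.update T i b)) ∧
      (∀ T U, (∀ i, T i ≤ n i) → (∀ i, U i ≤ n i) → ¬ Alt T U → ∃ V W, Exc T U V W ∧ Alt V W ∧
        (∀ i, V i ≤ n i) ∧ (∀ i, W i ≤ n i) ∧ (T ≠ 0 → U ≠ 0 → V ≠ 0 ∧ W ≠ 0) ∧
        h T + h U < h V + h W) ∧
      ∀ (a : NS (blk n) → ℤ) (e : Fin d → ℤ),
        ∑ S, (a S : ℝ) * h (tup S) + ∑ i, (e i : ℝ) * r i = 0 → a = 0 ∧ e = 0 := by
  classical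
  set B : Finset (Fin d → ℕ) := Fintype.piFinset fun i => Finset.range (n i + 1) with hB
  have hmem : ∀ {T : Fin d → ℕ}, T ∈ B ↔ ∀ i, T i ≤ n i := by
    intro T
    rw [hB, Fintype.mem_piFinset]
    simp only [Finset.mem_range, Nat.lt_succ_iff]
  obtain ⟨g, r, H₀, W, hg, hind⟩ := exists_heights (fun T : B => T.1) (2 * |K| + 1)
  have hzero : (0 : Fin d → ℕ) ∈ B := hmem.2 fun i => Nat.zero_le _
  set h : (Fin d → ℕ) → ℝ := fun T => if hT : T ∈ B then g ⟨T, hT⟩ else 0 with hh
  have hh1 : ∀ {T : Fin d → ℕ} (hT : T ∈ B), h T = g ⟨T, hT⟩ := fun hT => dif_pos hT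
  have hle : ∀ T ∈ B, h T ≤ h 0 := by
    intro T hT
    by_cases hT0 : T = 0
    · rw [hT0]
    · rw [hh1 hT, hh1 hzero]
      exact (hg.dec ⟨T, hT⟩ ⟨0, hzero⟩ (fun i => Nat.zero_le _) (fun h => hT0 h.symm)).le
  have habs := fun T (hT : T ∈ B) => abs_le.1 (hg.abs ⟨T, hT⟩)
  refine ⟨h, r, 2 * W, h 0, by linarith [hg.pos], ?_, rfl, ?_, ?_, ?_, ?_⟩
  · have h1 := (habs 0 hzero).1
    have h2 := hg.flat
    have h3 := hg.pos
    have h4 : K * W ≤ |K| * W := mul_le_mul_of_nonneg_right (le_abs_self K) h3.le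
    rw [hh1 hzero]
    nlinarith
  · intro T hT
    have hT' := hmem.2 hT
    refine ⟨?_, hle T hT'⟩
    have h1 := (habs T hT').1
    have h2 := (habs 0 hzero).2
    rw [hh1 hT', hh1 hzero]
    linarith
  · intro T hT i b hb
    have hT' := hmem.2 hT
    have hU : Function.update T i b ∈ B := by
      refine hmem.2 fun j => ?_
      by_cases hj : j = i
      · subst hj
        rw [Function.update_self]
        exact hb.le.trans (hT j)
      · rw [Function.update_of_ne hj]
        exact hT j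
    rw [hh1 hT', hh1 hU]
    refine hg.dec ⟨T, hT'⟩ ⟨_, hU⟩ (fun j => ?_) fun he => ?_
    · change Function.update T i b j ≤ T j
      by_cases hj : j = i
      · subst hj
        rw [Function.update_self]
        exact hb.le
      · rw [Function.update_of_ne hj]
    · have h1 := congrFun (show Function.update T i b = T from he) i
      rw [Function.update_self] at h1
      omega
  · intro T U hT hU hn
    obtain ⟨V, W', he, ha⟩ := exists_alt T U
    have h1 := he.le hT hU
    refine ⟨V, W', he, ha, h1.1, h1.2, fun h2 h3 => he.ne_zero ha h2 h3, ?_⟩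
    rw [hh1 (hmem.2 hT), hh1 (hmem.2 hU), hh1 (hmem.2 h1.1), hh1 (hmem.2 h1.2)]
    exact hg.exc ⟨T, _⟩ ⟨U, _⟩ ⟨V, _⟩ ⟨W', _⟩ he ha hn
  · intro a e hae
    have htB : ∀ S : NS (blk n), tup S ∈ B := fun S => hmem.2 (mem_Mo.1 (tup_mem S)).2
    set t : NS (blk n) → B := fun S => ⟨tup S, htB S⟩ with ht
    have htinj : Function.Injective t := by
      intro S S' hS
      exact tup_inj (congrArg Subtype.val hS)
    have h1 := hind (fun T => if hT : ∃ S, t S = T then a (Classical.choose hT) else 0) e (by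
      rw [← hae]
      congr 1
      have h2 : ∀ T : B, T ∉ Finset.univ.image t →
          (((if hT : ∃ S, t S = T then a (Classical.choose hT) else 0 : ℤ)) : ℝ) * g T = 0 := by
        intro T hT
        rw [dif_neg, Int.cast_zero, zero_mul]
        rintro ⟨S, rfl⟩
        exact hT (Finset.mem_image_of_mem _ (Finset.mem_univ _))
      rw [← Finset.sum_subset (Finset.subset_univ (Finset.univ.image t)) fun T _ hT => h2 T hT,
        Finset.sum_image fun _ _ _ _ h => htinj h]
      refine Finset.sum_congr rfl fun S _ => ?_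
      have h3 : ∃ S', t S' = t S := ⟨S, rfl⟩
      rw [dif_pos h3, htinj (Classical.choose_spec h3), hh1 (htB S)])
    refine ⟨funext fun S => ?_, h1.2⟩
    have h3 : ∃ S', t S' = t S := ⟨S, rfl⟩
    have h4 := congrFun h1.1 (t S)
    simp only [dif_pos h3] at h4
    rw [htinj (Classical.choose_spec h3)] at h4
    exact h4

end Pool.Agent.MPb0eA
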