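import Pool.Agent.Lib.MP_b0e20b_ag_A.AltW

/-!
# MP_b0e20b_ag, block A: weights with base point `p`, unused values
-/

set_option autoImplicit false

open scoped BigOperators

namespace Pool.Agent.MPb0eA

/-- The sign of `a - b`. -/
def sg (a b : ℕ) : ℝ := if a < b then -1 else if b < a then 1 else 0

/-- Weights: the sum over the elements with `T i = b` is `1` for `b = p i` and `0` otherwise. -/
structure Wp {d : ℕ} (C : Finset (Fin d → ℕ)) (lam : (Fin d → ℕ) → ℝ) (p : Fin d → ℕ) :
    Prop where
  one : ∑ T ∈ C, lam T = 1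
  marg : ∀ i b, ∑ T ∈ C with T i = b, lam T = if b = p i then 1 else 0

private theorem sg_ne {a b : ℕ} (h : a ≠ b) : sg a b = -1 ∨ sg a b = 1 := by
  unfold sg
  rcases lt_or_gt_of_ne h with h1 | h1
  · exact Or.inl (if_pos h1)
  · exact Or.inr (by rw [if_neg (by omega), if_pos h1])

/-- The sum of the signs between two places where `T` and `S` differ. -/
theorem Alt.sum_sg {d : ℕ} {T S : Fin d → ℕ} (h : Alt T S) : ∀ i j : Fin d, i < j →
    T i ≠ S i → T j ≠ S j →
      2 * ∑ k with i < k ∧ k < j, sg (T k) (S k) = -(sg (T i) (S i) + sg (T j) (S j)) := by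
  suffices H : ∀ m : ℕ, ∀ i j : Fin d, (j : ℕ) - i ≤ m → i < j → T i ≠ S i → T j ≠ S j →
      2 * ∑ k with i < k ∧ k < j, sg (T k) (S k) = -(sg (T i) (S i) + sg (T j) (S j)) from
    fun i j hij => H _ i j le_rfl hij
  intro m
  induction m with
  | zero =>
    intro i j hm hij
    have h1 : (i : ℕ) < j := hij
    omega
  | succ m ih =>
    intro i j hm hij hi hj
    by_cases hk : ∃ k, i < k ∧ k < j ∧ T k ≠ S k
    · obtain ⟨k, hik, hkj, hkn⟩ := hk
      have h1 : (i : ℕ) < k := hik
      have h2 : (k : ℕ) < j := hkj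
      have e1 := ih i k (by omega) hik hi hkn
      have e2 := ih k j (by omega) hkj hkn hj
      have e3 : ∑ l with i < l ∧ l < j, sg (T l) (S l) =
          ∑ l with i < l ∧ l < k, sg (T l) (S l) + (sg (T k) (S k) +
            ∑ l with k < l ∧ l < j, sg (T l) (S l)) := by
        have e4 : (Finset.univ.filter fun l : Fin d => i < l ∧ l < j) =
            (Finset.univ.filter fun l : Fin d => i < l ∧ l < k) ∪
              (insert k (Finset.univ.filter fun l : Fin d => k < l ∧ l < j)) := by
          ext l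
          simp only [Finset.mem_filter, Finset.mem_univ, true_and, Finset.mem_union,
            Finset.mem_insert]
          constructor
          · rintro ⟨h3, h4⟩
            rcases lt_trichotomy l k with h5 | h5 | h5
            · exact Or.inl ⟨h3, h5⟩
            · exact Or.inr (Or.inl h5)
            · exact Or.inr (Or.inr ⟨h5, h4⟩)
          · rintro (⟨h3, h4⟩ | rfl | ⟨h3, h4⟩)
            · exact ⟨h3, h4.trans hkj⟩
            · exact ⟨hik, hkj⟩
            · exact ⟨hik.trans h3, h4⟩
        rw [e4, Finset.sum_union, Finset.sum_insert]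
        · simp
        · rw [Finset.disjoint_left]
          intro l h3 h4
          have h5 := (Finset.mem_filter.1 h3).2.2
          rcases Finset.mem_insert.1 h4 with h6 | h6
          · exact absurd h6 (ne_of_lt h5)
          · exact absurd ((Finset.mem_filter.1 h6).2.1.trans h5) (lt_irrefl _)
      rw [e3]
      linarith
    · have h1 : ∀ k, i < k → k < j → T k = S k := by
        intro k h2 h3
        by_contra h4
        exact hk ⟨k, h2, h3, h4⟩
      have h2 : ∑ k with i < k ∧ k < j, sg (T k) (S k) = 0 := by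
        refine Finset.sum_eq_zero fun k hk' => ?_
        have h3 := (Finset.mem_filter.1 hk').2
        rw [h1 k h3.1 h3.2]
        simp [sg]
      have h3 := h i j hij hi hj h1
      rw [h2]
      unfold sg
      rcases lt_or_gt_of_ne hi with h4 | h4
      · have h5 := h3.1 h4
        rw [if_pos h4, if_neg (by omega), if_pos h5]
        norm_num
      · have h5 : T j < S j := by
          rcases lt_or_gt_of_ne hj with h6 | h6
          · exact h6
          · exact absurd (h3.2 h6) (by omega)
        rw [if_neg (by omega), if_pos h4, if_pos h5]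
        norm_num

/-- The average of a function of one coordinate. -/
theorem Wp.avg {d : ℕ} {C : Finset (Fin d → ℕ)} {lam : (Fin d → ℕ) → ℝ} {p : Fin d → ℕ}
    (h : Wp C lam p) (k : Fin d) (f : ℕ → ℝ) : ∑ S ∈ C, lam S * f (S k) = f (p k) := by
  classical
  have h1 : ∑ S ∈ C, lam S * f (S k) =
      ∑ b ∈ C.image (fun S => S k), ∑ S ∈ C with S k = b, lam S * f (S k) :=
    (Finset.sum_fiberwise_of_maps_to (fun S hS => Finset.mem_image_of_mem _ hS) _).symm
  have h2 : ∀ b, ∑ S ∈ C with S k = b, lam S * f (S k) = if b = p k then f b else 0 := by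
    intro b
    have h3 : ∑ S ∈ C with S k = b, lam S * f (S k) = (∑ S ∈ C with S k = b, lam S) * f b := by
      rw [Finset.sum_mul]
      refine Finset.sum_congr rfl fun S hS => ?_
      rw [(Finset.mem_filter.1 hS).2]
    rw [h3, h.marg]
    split_ifs <;> simp
  rw [h1, Finset.sum_congr rfl fun b _ => h2 b, Finset.sum_ite_eq' _ (p k) f, if_pos]
  have h4 := h.marg k (p k)
  rw [if_pos rfl] at h4
  have h5 : (C.filter fun S => S k = p k).Nonempty := by
    by_contra h6
    rw [Finset.not_nonempty_iff_eq_empty] at h6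
    rw [h6, Finset.sum_empty] at h4
    exact zero_ne_one h4
  obtain ⟨S, hS⟩ := h5
  exact Finset.mem_image.2 ⟨S, (Finset.mem_filter.1 hS).1, (Finset.mem_filter.1 hS).2⟩

/-- Two coordinates of `T` with values which are not used by `C`. -/
theorem Wp.two {d : ℕ} {C : Finset (Fin d → ℕ)} {lam : (Fin d → ℕ) → ℝ} {p : Fin d → ℕ}
    (h : Wp C lam p) {T : Fin d → ℕ} (hT : ∀ S ∈ C, Alt T S) {i j : Fin d} (hij : i < j)
    (hi : ∀ S ∈ C, S i ≠ T i) (hj : ∀ S ∈ C, S j ≠ T j) :
    2 * ∑ k with i < k ∧ k < j, sg (T k) (p k) = -(sg (T i) (p i) + sg (T j) (p j)) := by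
  have h1 : ∀ S ∈ C, lam S * (2 * ∑ k with i < k ∧ k < j, sg (T k) (S k)) =
      lam S * -(sg (T i) (S i) + sg (T j) (S j)) := fun S hS => by
    rw [(hT S hS).sum_sg i j hij (hi S hS).symm (hj S hS).symm]
  have h2 := Finset.sum_congr rfl h1
  have h3 : ∑ S ∈ C, lam S * (2 * ∑ k with i < k ∧ k < j, sg (T k) (S k)) =
      2 * ∑ k with i < k ∧ k < j, sg (T k) (p k) := by
    have h4 : ∀ S ∈ C, lam S * (2 * ∑ k with i < k ∧ k < j, sg (T k) (S k)) =
        2 * ∑ k with i < k ∧ k < j, lam S * sg (T k) (S k) := fun S _ => by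
      rw [← Finset.mul_sum]
      ring
    rw [Finset.sum_congr rfl h4, ← Finset.mul_sum, Finset.sum_comm]
    congr 1
    exact Finset.sum_congr rfl fun k _ => h.avg k fun b => sg (T k) b
  have h5 : ∑ S ∈ C, lam S * -(sg (T i) (S i) + sg (T j) (S j)) =
      -(sg (T i) (p i) + sg (T j) (p j)) := by
    have h6 : ∀ S ∈ C, lam S * -(sg (T i) (S i) + sg (T j) (S j)) =
        -(lam S * sg (T i) (S i)) + -(lam S * sg (T j) (S j)) := fun S _ => by ring
    rw [Finset.sum_congr rfl h6, Finset.sum_add_distrib, Finset.sum_neg_distrib,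
      Finset.sum_neg_distrib, h.avg i fun b => sg (T i) b, h.avg j fun b => sg (T j) b]
    ring
  rw [h3, h5] at h2
  exact h2

/-- At most one unused coordinate, upper version. -/
theorem Wp.two_gt {d : ℕ} {C : Finset (Fin d → ℕ)} {lam : (Fin d → ℕ) → ℝ} {p : Fin d → ℕ}
    (h : Wp C lam p) {T : Fin d → ℕ} (hT : ∀ S ∈ C, Alt T S) (hp : ∀ k, p k ≤ T k)
    {i j : Fin d} (hij : i ≠ j) (hi : ∀ S ∈ C, S i ≠ T i) (hj : ∀ S ∈ C, S j ≠ T j)
    (hi' : p i < T i) (hj' : p j < T j) : False := by
  have key : ∀ i j : Fin d, i < j → (∀ S ∈ C, S i ≠ T i) → (∀ S ∈ C, S j ≠ T j) →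
      p i < T i → p j < T j → False := by
    intro i j hij hi hj hi' hj'
    have h1 := h.two hT hij hi hj
    have h2 : 0 ≤ ∑ k with i < k ∧ k < j, sg (T k) (p k) := by
      refine Finset.sum_nonneg fun k _ => ?_
      unfold sg
      have := hp k
      split_ifs
      · omega
      · norm_num
      · norm_num
    have h3 : sg (T i) (p i) = 1 := by unfold sg; rw [if_neg (by omega), if_pos hi']
    have h4 : sg (T j) (p j) = 1 := by unfold sg; rw [if_neg (by omega), if_pos hj']
    rw [h3, h4] at h1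
    linarith
  rcases lt_or_gt_of_ne hij with h1 | h1
  · exact key i j h1 hi hj hi' hj'
  · exact key j i h1 hj hi hj' hi'

/-- At most one unused coordinate, lower version. -/
theorem Wp.two_lt {d : ℕ} {C : Finset (Fin d → ℕ)} {lam : (Fin d → ℕ) → ℝ} {p : Fin d → ℕ}
    (h : Wp C lam p) {T : Fin d → ℕ} (hT : ∀ S ∈ C, Alt T S) (hp : ∀ k, T k ≤ p k)
    {i j : Fin d} (hij : i ≠ j) (hi : ∀ S ∈ C, S i ≠ T i) (hj : ∀ S ∈ C, S j ≠ T j)
    (hi' : T i < p i) (hj' : T j < p j) : False := by
  have key : ∀ i j : Fin d, i < j → (∀ S ∈ C, S i ≠ T i) → (∀ S ∈ C, S j ≠ T j) →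
      T i < p i → T j < p j → False := by
    intro i j hij hi hj hi' hj'
    have h1 := h.two hT hij hi hj
    have h2 : ∑ k with i < k ∧ k < j, sg (T k) (p k) ≤ 0 := by
      refine Finset.sum_nonpos fun k _ => ?_
      unfold sg
      have := hp k
      split_ifs
      · norm_num
      · omega
      · norm_num
    have h3 : sg (T i) (p i) = -1 := by unfold sg; rw [if_pos hi']
    have h4 : sg (T j) (p j) = -1 := by unfold sg; rw [if_pos hj']
    rw [h3, h4] at h1
    linarith
  rcases lt_or_gt_of_ne hij with h1 | h1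
  · exact key i j h1 hi hj hi' hj'
  · exact key j i h1 hj hi hj' hi'

/-- Weights with base point `0`. -/
theorem Wt.toWp {d : ℕ} {C : Finset (Fin d → ℕ)} {lam : (Fin d → ℕ) → ℝ} (h : Wt C lam) :
    Wp C lam fun _ => 0 := by
  refine ⟨h.one, fun i b => ?_⟩
  rcases Nat.eq_zero_or_pos b with rfl | hb
  · rw [if_pos rfl]
    have h1 := h.le i 0
    rw [← h1]
    exact Finset.sum_congr (Finset.filter_congr fun T _ => by omega) fun _ _ => rfl
  · rw [if_neg (by omega)]
    exact h.zero i b hb

/-- Connectedness, with base point. -/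
theorem Wp.conn {G : Type} [AddCommGroup G] {d : ℕ} {C : Finset (Fin d → ℕ)}
    {lam : (Fin d → ℕ) → ℝ} {p : Fin d → ℕ} (hC : Pw C) (hw : Wp C lam p)
    (hp : (∀ T ∈ C, ∀ i, T i ≤ p i) ∨ ∀ i, p i = 0) (φ : Fin d → ℕ → G)
    (hφ : ∀ T ∈ C, ∀ U ∈ C, ∑ i, φ i (T i) = ∑ i, φ i (U i)) :
    ∀ T ∈ C, ∀ U ∈ C, ∀ i, φ i (T i) = φ i (U i) := by
  classical
  rcases hp with hp | hp
  swap
  · refine Wt.conn hC ⟨hw.one, fun i b hb => ?_⟩ φ hφ
    rw [hw.marg, if_neg (by rw [hp]; omega)]
  have hinj : Set.InjOn (fun (T : Fin d → ℕ) i => p i - T i) C := by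
    intro T hT U hU h
    funext i
    have h1 := congrFun h i
    have h2 := hp T hT i
    have h3 := hp U hU i
    simp only at h1
    omega
  have hrr : ∀ T ∈ C, (fun i => p i - (p i - T i)) = T := by
    intro T hT
    funext i
    have h2 := hp T hT i
    omega
  have hC' : Pw (C.image fun T i => p i - T i) := by
    intro T' hT' U' hU'
    obtain ⟨T, hT, rfl⟩ := Finset.mem_image.1 hT'
    obtain ⟨U, hU, rfl⟩ := Finset.mem_image.1 hU'
    intro i j hij hi hj hk
    have a1 := hp T hT
    have a2 := hp U hU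
    have h1 := hC T hT U hU i j hij (fun h => hi (by simp only [h]))
      (fun h => hj (by simp only [h])) (by
      intro k h3 h4
      have h5 := hk k h3 h4
      have h6 := a1 k
      have h7 := a2 k
      simp only at h5
      omega)
    have b1 := a1 i
    have b2 := a2 i
    have b3 := a1 j
    have b4 := a2 j
    simp only at hi hj ⊢
    constructor
    · intro h2
      by_contra h3
      have h4 : T j < U j ∨ T j = U j ∨ U j < T j := lt_trichotomy _ _
      have h5 : T i < U i := by
        rw [h1]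
        omega
      omega
    · intro h2
      by_contra h3
      have h5 : T i < U i := by omega
      have h6 := h1.1 h5
      omega
  have hw' : Wt (C.image fun T i => p i - T i) fun T' => lam fun i => p i - T' i := by
    constructor
    · rw [Finset.sum_image hinj, ← hw.one]
      exact Finset.sum_congr rfl fun T hT => by rw [hrr T hT]
    · intro i b hb
      rw [Finset.sum_filter, Finset.sum_image hinj]
      have h1 : ∑ T ∈ C, (if p i - T i = b then lam fun i => p i - (p i - T i) else 0) =
          if b ≤ p i then ∑ T ∈ C with T i = p i - b, lam T else 0 := by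
        split_ifs with h2
        · rw [Finset.sum_filter]
          refine Finset.sum_congr rfl fun T hT => ?_
          rw [hrr T hT]
          have h3 := hp T hT i
          by_cases h4 : T i = p i - b
          · rw [if_pos h4, if_pos (by omega)]
          · rw [if_neg h4, if_neg (by omega)]
        · refine Finset.sum_eq_zero fun T hT => if_neg ?_
          have h3 := hp T hT i
          omega
      rw [h1]
      split_ifs with h2
      · rw [hw.marg, if_neg (by omega)]
      · rfl
  intro T hT U hU i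
  have h1 := Wt.conn hC' hw' (fun i b => φ i (p i - b)) (by
    intro T' hT' U' hU'
    obtain ⟨T, hT, rfl⟩ := Finset.mem_image.1 hT'
    obtain ⟨U, hU, rfl⟩ := Finset.mem_image.1 hU'
    have h2 := hφ T hT U hU
    have h3 : ∀ T ∈ C, ∑ i, φ i (p i - (p i - T i)) = ∑ i, φ i (T i) := fun T hT =>
      Finset.sum_congr rfl fun i _ => by
        have h4 := hp T hT i
        have h5 : p i - (p i - T i) = T i := by omega
        rw [h5]
    simp only
    rw [h3 T hT, h3 U hU]
    exact h2) _ (Finset.mem_image_of_mem _ hT) _ (Finset.mem_image_of_mem _ hU) i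
  have h4 := hp T hT i
  have h5 := hp U hU i
  have h6 : p i - (p i - T i) = T i := by omega
  have h7 : p i - (p i - U i) = U i := by omega
  simp only [h6, h7] at h1
  exact h1

/-- Membership form of `Wp.conn`. -/
theorem Wp.mem {M : Type} [AddCommGroup M] {d : ℕ} {C : Finset (Fin d → ℕ)}
    {lam : (Fin d → ℕ) → ℝ} {p : Fin d → ℕ} (hC : Pw C) (hw : Wp C lam p)
    (hp : (∀ T ∈ C, ∀ i, T i ≤ p i) ∨ ∀ i, p i = 0) (Γ : AddSubgroup M) (e : Fin d → ℕ → M)
    (he : ∀ T ∈ C, ∀ U ∈ C, ∑ i, e i (T i) - ∑ i, e i (U i) ∈ Γ) :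
    ∀ T ∈ C, ∀ U ∈ C, ∀ i, e i (T i) - e i (U i) ∈ Γ := by
  intro T hT U hU i
  have h1 := Wp.conn hC hw hp (fun i b => (QuotientAddGroup.mk (e i b) : M ⧸ Γ)) (by
    intro T hT U hU
    have h2 := he T hT U hU
    have h3 : (QuotientAddGroup.mk (∑ i, e i (T i) - ∑ i, e i (U i)) : M ⧸ Γ) = 0 :=
      (QuotientAddGroup.eq_zero_iff _).2 h2
    have h4 : (QuotientAddGroup.mk (∑ i, e i (T i) - ∑ i, e i (U i)) : M ⧸ Γ) =
        ∑ i, (QuotientAddGroup.mk (e i (T i)) : M ⧸ Γ) -
          ∑ i, (QuotientAddGroup.mk (e i (U i)) : M ⧸ Γ) := by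
      have h5 := map_sub (QuotientAddGroup.mk' Γ) (∑ i, e i (T i)) (∑ i, e i (U i))
      rw [map_sum, map_sum] at h5
      exact h5
    rw [h4] at h3
    exact sub_eq_zero.1 h3) T hT U hU i
  have h2 : (QuotientAddGroup.mk (e i (T i) - e i (U i)) : M ⧸ Γ) = 0 := by
    have h3 := map_sub (QuotientAddGroup.mk' Γ) (e i (T i)) (e i (U i))
    have h4 : (QuotientAddGroup.mk (e i (T i) - e i (U i)) : M ⧸ Γ) =
        (QuotientAddGroup.mk (e i (T i)) : M ⧸ Γ) - QuotientAddGroup.mk (e i (U i)) := h3
    rw [h4]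
    exact sub_eq_zero.2 h1
  exact (QuotientAddGroup.eq_zero_iff _).1 h2

end Pool.Agent.MPb0eA
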