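import Pool.Agent.Lib.MP_b0e20b_ag_A.AltN

/-!
# MP_b0e20b_ag, block A: uniqueness of outer elements
-/

set_option autoImplicit false

open scoped BigOperators

namespace Pool.Agent.MPb0eA

/-- The integral combinations of the elements of `C` with coefficient sum zero. -/
private def AltQ_K {d : ℕ} (C : Finset (Fin d → ℕ)) : AddSubgroup (Fin d → ℕ → ℤ) where
  carrier := {x | ∃ c : (Fin d → ℕ) → ℤ, ∑ S ∈ C, c S = 0 ∧
    ∀ i b, x i b = ∑ S ∈ C with S i = b, c S}
  zero_mem' := ⟨0, by simp, fun i b => by simp⟩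
  add_mem' := by
    rintro x y ⟨c, h1, h2⟩ ⟨c', h1', h2'⟩
    refine ⟨c + c', ?_, fun i b => ?_⟩
    · simp only [Pi.add_apply]
      rw [Finset.sum_add_distrib, h1, h1', add_zero]
    · simp only [Pi.add_apply]
      rw [Finset.sum_add_distrib, ← h2, ← h2']
  neg_mem' := by
    rintro x ⟨c, h1, h2⟩
    refine ⟨-c, ?_, fun i b => ?_⟩
    · simp only [Pi.neg_apply]
      rw [Finset.sum_neg_distrib, h1, neg_zero]
    · simp only [Pi.neg_apply]
      rw [Finset.sum_neg_distrib, ← h2]

private def AltQ_e {d : ℕ} (i : Fin d) (b : ℕ) : Fin d → ℕ → ℤ :=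
  fun j b' => if j = i ∧ b' = b then 1 else 0

private theorem AltQ_sum {d : ℕ} (T : Fin d → ℕ) (i : Fin d) (b : ℕ) :
    (∑ k, AltQ_e k (T k)) i b = if T i = b then 1 else 0 := by
  rw [Finset.sum_apply, Finset.sum_apply, Finset.sum_eq_single i]
  · unfold AltQ_e
    by_cases h : T i = b
    · rw [if_pos h, if_pos ⟨rfl, h.symm⟩]
    · rw [if_neg h, if_neg fun h1 => h h1.2.symm]
  · intro k _ hk
    unfold AltQ_e
    exact if_neg fun h1 => hk h1.1.symm
  · intro h
    exact absurd (Finset.mem_univ i) h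

/-- Two outer elements, with the same unused values, are equal. -/
theorem Wp.uniq {d : ℕ} {C : Finset (Fin d → ℕ)} {lam : (Fin d → ℕ) → ℝ} {p : Fin d → ℕ}
    (hC : Pw C) (hw : Wp C lam p) (hp : (∀ T ∈ C, ∀ i, T i ≤ p i) ∨ ∀ i, p i = 0)
    {T U : Fin d → ℕ} (hT : T ∉ C) (hU : U ∉ C) (hTC : ∀ S ∈ C, Alt T S)
    (hUC : ∀ S ∈ C, Alt U S) (hTU : Alt T U)
    (hk : ∀ k, T k = U k ∨ ((∃ S ∈ C, S k = T k) ∧ ∃ S ∈ C, S k = U k)) : T = U := by
  classical
  by_contra hne
  have h1 : ∑ k, AltQ_e k (T k) - ∑ k, AltQ_e k (U k) ∈ AltQ_K C := by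
    rw [← Finset.sum_sub_distrib]
    refine AddSubgroup.sum_mem _ fun k _ => ?_
    rcases hk k with h | ⟨⟨S, hS, hS'⟩, S', hS1, hS1'⟩
    · rw [h, sub_self]
      exact zero_mem _
    · rw [← hS', ← hS1']
      refine Wp.mem hC hw hp (AltQ_K C) AltQ_e ?_ S hS S' hS1 k
      intro X hX Y hY
      refine ⟨fun Z => (if Z = X then 1 else 0) - (if Z = Y then 1 else 0), ?_, fun i b => ?_⟩
      · rw [Finset.sum_sub_distrib, Finset.sum_ite_eq', Finset.sum_ite_eq', if_pos hX, if_pos hY,
          sub_self]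
      · rw [Pi.sub_apply, Pi.sub_apply, AltQ_sum, AltQ_sum, Finset.sum_sub_distrib,
          Finset.sum_ite_eq', Finset.sum_ite_eq']
        simp only [Finset.mem_filter, hX, hY, true_and]
  obtain ⟨c, h2, h3⟩ := h1
  have hTU' : T ∉ insert U C := by
    rw [Finset.mem_insert, not_or]
    exact ⟨hne, hT⟩
  have hpw : Pw (insert T (insert U C)) := by
    intro X hX Y hY
    simp only [Finset.mem_insert] at hX hY
    rcases hX with rfl | rfl | hX <;> rcases hY with rfl | rfl | hY
    · exact Alt.refl _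
    · exact hTU
    · exact hTC Y hY
    · exact hTU.symm
    · exact Alt.refl _
    · exact hUC Y hY
    · exact (hTC X hX).symm
    · exact (hUC X hX).symm
    · exact hC X hX Y hY
  set c' : (Fin d → ℕ) → ℤ := fun X => if X = T then -1 else if X = U then 1 else c X with hc'
  have hcT : c' T = -1 := if_pos rfl
  have hcU : c' U = 1 := (if_neg fun h => hne h.symm).trans (if_pos rfl)
  have hcC : ∀ X ∈ C, c' X = c X := by
    intro X hX
    have h5 : X ≠ T := by
      rintro rfl
      exact hT hX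
    have h6 : X ≠ U := by
      rintro rfl
      exact hU hX
    exact (if_neg h5).trans (if_neg h6)
  have h4 := hpw.indep c' (by
    rw [Finset.sum_insert hTU', Finset.sum_insert hU, hcT, hcU, Finset.sum_congr rfl hcC, h2]
    norm_num) (by
    intro i b
    have h5 := h3 i b
    rw [Pi.sub_apply, Pi.sub_apply, AltQ_sum, AltQ_sum] at h5
    rw [Finset.sum_filter, Finset.sum_insert hTU', Finset.sum_insert hU, hcT, hcU]
    have h6 : ∑ X ∈ C, (if X i = b then c' X else 0) = ∑ S ∈ C with S i = b, c S := by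
      rw [Finset.sum_filter]
      exact Finset.sum_congr rfl fun X hX => by rw [hcC X hX]
    rw [h6, ← h5]
    split_ifs <;> norm_num) T (Finset.mem_insert_self _ _)
  rw [hcT] at h4
  exact absurd h4 (by norm_num)

end Pool.Agent.MPb0eA
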