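import Pool.Agent.Lib.MP_b0e20b_ag_A.AltD

/-!
# MP_b0e20b_ag, block A: pairwise alternating families are independent and unimodular
-/

set_option autoImplicit false

open scoped BigOperators

namespace Pool.Agent.MPb0eA

variable {G : Type} [AddCommGroup G]

private theorem AltU_other {α : Type} [DecidableEq α] (A : AddSubgroup G) {s : Finset α}
    {c : α → G} (h : ∑ x ∈ s, c x ∈ A) {t : α} (ht : t ∈ s) (hc : c t ∉ A) :
    ∃ x ∈ s, x ≠ t ∧ c x ∉ A := by
  by_contra hcon
  simp only [not_exists, not_and, not_not] at hcon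
  have h1 : ∑ x ∈ s.erase t, c x ∈ A :=
    A.sum_mem fun x hx => hcon x (Finset.mem_of_mem_erase hx) (Finset.ne_of_mem_erase hx)
  rw [← Finset.add_sum_erase s c ht] at h
  exact hc ((A.add_mem_cancel_right h1).1 h)

/-- Sums over the truncations. -/
theorem sum_image {d : ℕ} (C : Finset (Fin (d + 1) → ℕ)) (c : (Fin (d + 1) → ℕ) → G)
    (P : (Fin d → ℕ) → Prop) [DecidablePred P] :
    ∑ T' ∈ (C.image Fin.init : Finset (Fin d → ℕ)) with P T', ∑ T ∈ C with Fin.init T = T', c T =
      ∑ T ∈ C with P (Fin.init T), c T := by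
  have h := Finset.sum_fiberwise_of_maps_to (s := C.filter fun T => P (Fin.init T))
    (t := (C.image Fin.init : Finset (Fin d → ℕ)).filter P) (g := fun T => Fin.init T)
    (fun T hT => Finset.mem_filter.2 ⟨Finset.mem_image_of_mem _ (Finset.mem_filter.1 hT).1,
      (Finset.mem_filter.1 hT).2⟩) c
  rw [← h]
  refine Finset.sum_congr rfl fun T' hT' => Finset.sum_congr ?_ fun _ _ => rfl
  ext T
  simp only [Finset.mem_filter]
  constructor
  · rintro ⟨h1, rfl⟩
    exact ⟨⟨h1, (Finset.mem_filter.1 hT').2⟩, rfl⟩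
  · rintro ⟨⟨h1, _⟩, h2⟩
    exact ⟨h1, h2⟩

/-- Let `C` be pairwise alternating, and let the sum of the coefficients `c` over `C`, and over the
elements of `C` with a given value of a given coordinate, be in the subgroup `A`. Then all
coefficients are in `A`. (`A = 0`: independence; `A = ℤ` in `ℚ`: unimodularity.) -/
theorem Pw.sub (A : AddSubgroup G) : ∀ {d : ℕ} {C : Finset (Fin d → ℕ)}, Pw C →
    ∀ c : (Fin d → ℕ) → G, ∑ T ∈ C, c T ∈ A → (∀ i b, ∑ T ∈ C with T i = b, c T ∈ A) →
      ∀ T ∈ C, c T ∈ A := by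
  classical
  intro d
  induction d with
  | zero =>
    intro C _ c h _ T hT
    have h1 : C = {T} := by
      ext U
      rw [Finset.mem_singleton]
      exact ⟨fun _ => Subsingleton.elim _ _, fun h2 => h2 ▸ hT⟩
    rwa [h1, Finset.sum_singleton] at h
  | succ d ih =>
    intro C hC c h hb
    have h1 : ∀ T' ∈ C.image Fin.init, ∑ T ∈ C with Fin.init T = T', c T ∈ A := by
      refine ih hC.image (fun T' => ∑ T ∈ C with Fin.init T = T', c T) ?_ ?_
      · have h2 := sum_image C c (fun _ => True)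
        simp only [Finset.filter_true] at h2
        rw [h2]
        exact h
      · intro i b
        rw [sum_image C c (fun T' => T' i = b)]
        exact hb i.castSucc b
    by_contra hcon
    simp only [not_forall] at hcon
    obtain ⟨T₀, hT₀, hc₀⟩ := hcon
    obtain ⟨T, hT, hmin⟩ := exists_rmin (r := Sc) Sc.irrefl Sc.trans (C.filter fun X => c X ∉ A)
      ⟨T₀, Finset.mem_filter.2 ⟨hT₀, hc₀⟩⟩
    obtain ⟨hTC, hcT⟩ := Finset.mem_filter.1 hT
    obtain ⟨U, hU, hUT, hcU⟩ := AltU_other A (h1 _ (Finset.mem_image_of_mem _ hTC))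
      (Finset.mem_filter.2 ⟨hTC, rfl⟩) hcT
    obtain ⟨hUC, hUi⟩ := Finset.mem_filter.1 hU
    obtain ⟨V, hV, hVT, hcV⟩ := AltU_other A (hb (Fin.last d) (T (Fin.last d)))
      (Finset.mem_filter.2 ⟨hTC, rfl⟩) hcT
    obtain ⟨hVC, hVl⟩ := Finset.mem_filter.1 hV
    have h2 := hmin U (Finset.mem_filter.2 ⟨hUC, hcU⟩)
    have h3 := hmin V (Finset.mem_filter.2 ⟨hVC, hcV⟩)
    have h4 : U (Fin.last d) < T (Fin.last d) := by
      have h5 : U (Fin.last d) ≠ T (Fin.last d) := fun h6 => hUT (eq_of_init_last hUi h6)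
      rcases lt_or_gt_of_ne h5 with h6 | h6
      · exact h6
      · exact absurd (Or.inr ⟨hUi, h6⟩) h2
    have h5 : Rl (Fin.init T) (Fin.init V) := by
      have h6 : Fin.init T ≠ Fin.init V := fun h7 => hVT (eq_of_init_last h7.symm hVl)
      rcases Rl.tri h6 with h7 | h7
      · exact h7
      · exact absurd (Or.inl h7) h3
    have h6 := (hC U hUC V hVC).anti (by rw [hUi]; exact h5)
    omega

/-- Independence. -/
theorem Pw.indep {d : ℕ} {C : Finset (Fin d → ℕ)} (hC : Pw C) (c : (Fin d → ℕ) → G)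
    (h : ∑ T ∈ C, c T = 0) (hb : ∀ i b, ∑ T ∈ C with T i = b, c T = 0) : ∀ T ∈ C, c T = 0 := by
  intro T hT
  have h1 := Pw.sub (⊥ : AddSubgroup G) hC c (by rw [h]; exact zero_mem _)
    (fun i b => by rw [hb]; exact zero_mem _) T hT
  exact AddSubgroup.mem_bot.1 h1

/-- A relation between the elements of a pairwise alternating family, for all nonzero values of the
coordinates, has a nonzero sum of the coefficients. -/
theorem Pw.sum_ne {d : ℕ} {C : Finset (Fin d → ℕ)} (hC : Pw C) (c : (Fin d → ℕ) → G)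
    (hb : ∀ i b, 1 ≤ b → ∑ T ∈ C with T i = b, c T = 0) (hne : ∃ T ∈ C, c T ≠ 0) :
    ∑ T ∈ C, c T ≠ 0 := by
  classical
  intro h
  obtain ⟨T, hT, hc⟩ := hne
  refine hc (hC.indep c h (fun i b => ?_) T hT)
  rcases Nat.eq_zero_or_pos b with rfl | hb'
  · have h1 : ∑ T ∈ C, c T = ∑ T ∈ C with T i = 0, c T +
        ∑ T ∈ C with ¬ T i = 0, c T := (Finset.sum_filter_add_sum_filter_not _ _ _).symm
    have h2 : ∑ T ∈ C with ¬ T i = 0, c T = 0 := by
      have h3 := Finset.sum_fiberwise_of_maps_to (s := C.filter fun T => ¬ T i = 0)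
        (t := (C.filter fun T => ¬ T i = 0).image fun T => T i) (g := fun T => T i)
        (fun T hT => Finset.mem_image_of_mem _ hT) c
      rw [← h3]
      refine Finset.sum_eq_zero fun b hb'' => ?_
      obtain ⟨X, hX, rfl⟩ := Finset.mem_image.1 hb''
      have h4 := (Finset.mem_filter.1 hX).2
      have h5 := hb i (X i) (Nat.one_le_iff_ne_zero.2 h4)
      rw [← h5]
      refine Finset.sum_congr ?_ fun _ _ => rfl
      ext Y
      simp only [Finset.mem_filter]
      constructor
      · rintro ⟨⟨h6, _⟩, h7⟩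
        exact ⟨h6, h7⟩
      · rintro ⟨h6, h7⟩
        exact ⟨⟨h6, by rw [h7]; exact h4⟩, h7⟩
    rw [h2, add_zero] at h1
    rw [← h1, h]
  · exact hb i b hb'

end Pool.Agent.MPb0eA
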