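import Pool.Agent.Lib.MP_b0e20b_ag_A.AltU

/-!
# MP_b0e20b_ag, block A: weights on pairwise alternating families
-/

set_option autoImplicit false

open scoped BigOperators

namespace Pool.Agent.MPb0eA

/-- The sum of the weights over the elements with value larger than `c` is zero. -/
theorem Wt.gt {d : ℕ} {C : Finset (Fin d → ℕ)} {lam : (Fin d → ℕ) → ℝ} (h : Wt C lam)
    (i : Fin d) (c : ℕ) : ∑ T ∈ C with c < T i, lam T = 0 := by
  classical
  have h3 := Finset.sum_fiberwise_of_maps_to (s := C.filter fun T => c < T i)
    (t := (C.filter fun T => c < T i).image fun T => T i) (g := fun T => T i)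
    (fun T hT => Finset.mem_image_of_mem _ hT) lam
  rw [← h3]
  refine Finset.sum_eq_zero fun b hb => ?_
  obtain ⟨X, hX, rfl⟩ := Finset.mem_image.1 hb
  have h4 := (Finset.mem_filter.1 hX).2
  have h5 := h.zero i (X i) (by omega)
  rw [← h5]
  refine Finset.sum_congr ?_ fun _ _ => rfl
  ext Y
  simp only [Finset.mem_filter]
  constructor
  · rintro ⟨⟨h6, _⟩, h7⟩
    exact ⟨h6, h7⟩
  · rintro ⟨h6, h7⟩
    exact ⟨⟨h6, by rw [h7]; exact h4⟩, h7⟩

/-- The sum of the weights over the elements with value at most `c` is one. -/
theorem Wt.le {d : ℕ} {C : Finset (Fin d → ℕ)} {lam : (Fin d → ℕ) → ℝ} (h : Wt C lam)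
    (i : Fin d) (c : ℕ) : ∑ T ∈ C with T i ≤ c, lam T = 1 := by
  classical
  have h1 := Finset.sum_filter_add_sum_filter_not C (fun T => T i ≤ c) lam
  have h2 : ∑ T ∈ C with ¬ T i ≤ c, lam T = 0 := by
    rw [← h.gt i c]
    exact Finset.sum_congr (Finset.filter_congr fun T _ => by rw [not_le]) fun _ _ => rfl
  rw [h2, add_zero, h.one] at h1
  exact h1

/-- The weights of the truncations. -/
theorem Wt.image {d : ℕ} {C : Finset (Fin (d + 1) → ℕ)} {lam : (Fin (d + 1) → ℕ) → ℝ}
    (h : Wt C lam) :
    Wt (C.image Fin.init) fun T' => ∑ T ∈ C with Fin.init T = T', lam T := by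
  classical
  constructor
  · have h2 := sum_image C lam (fun _ => True)
    simp only [Finset.filter_true] at h2
    rw [h2]
    exact h.one
  · intro i b hb
    rw [sum_image C lam (fun T' => T' i = b)]
    exact h.zero i.castSucc b hb

/-- Every proper initial segment (for the reversed lexicographic order) has weight at least `1`. -/
theorem Wt.seg : ∀ {d : ℕ} {C : Finset (Fin d → ℕ)} {lam : (Fin d → ℕ) → ℝ}, Pw C → Wt C lam →
    ∀ κ ∈ C, (∃ U ∈ C, Rl κ U) → ∀ [DecidablePred fun T : Fin d → ℕ => Rl κ T],
      1 ≤ ∑ T ∈ C with ¬ Rl κ T, lam T := by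
  classical
  intro d
  induction d with
  | zero =>
    rintro C lam _ _ κ _ ⟨U, _, j, _⟩
    exact j.elim0
  | succ d ih =>
    intro C lam hC hw κ hκ hU inst
    set c := κ (Fin.last d) with hc
    -- the segment
    have hseg : ∀ T, ¬ Rl κ T ↔ (T (Fin.last d) < c ∨
        (T (Fin.last d) = c ∧ ¬ Rl (Fin.init κ) (Fin.init T))) := by
      intro T
      rw [Rl_succ]
      constructor
      · intro h
        simp only [not_or, not_and] at h
        rcases lt_trichotomy (T (Fin.last d)) c with h1 | h1 | h1
        · exact Or.inl h1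
        · exact Or.inr ⟨h1, h.2 h1.symm⟩
        · exact absurd h1 h.1
      · rintro (h | ⟨h, h'⟩)
        · rintro (h1 | ⟨h1, _⟩) <;> omega
        · rintro (h1 | ⟨_, h1⟩)
          · omega
          · exact h' h1
    by_cases hA : ∃ U ∈ C, U (Fin.last d) = c ∧ Rl (Fin.init κ) (Fin.init U)
    · obtain ⟨U, hUC, hUl, hUr⟩ := hA
      have h1 := ih hC.image hw.image (Fin.init κ) (Finset.mem_image_of_mem _ hκ)
        ⟨_, Finset.mem_image_of_mem _ hUC, hUr⟩
      rw [sum_image C lam (fun T' => ¬ Rl (Fin.init κ) T')] at h1
      -- the elements with truncation at most `init κ`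
      have hanti : ∀ T ∈ C, ¬ Rl (Fin.init κ) (Fin.init T) → c ≤ T (Fin.last d) := by
        intro T hT hr
        have h2 : Rl (Fin.init T) (Fin.init U) := by
          by_cases h3 : Fin.init T = Fin.init κ
          · rw [h3]
            exact hUr
          · rcases Rl.tri h3 with h4 | h4
            · exact h4.trans hUr
            · exact absurd h4 hr
        have h3 := (hC T hT U hUC).anti h2
        omega
      have hanti' : ∀ T ∈ C, c < T (Fin.last d) → ¬ Rl (Fin.init κ) (Fin.init T) := by
        intro T hT hl hr
        have h3 := (hC κ hκ T hT).anti hr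
        omega
      have h2 : ∑ T ∈ C with ¬ Rl (Fin.init κ) (Fin.init T), lam T =
          ∑ T ∈ C with c < T (Fin.last d), lam T +
            ∑ T ∈ C with (T (Fin.last d) = c ∧ ¬ Rl (Fin.init κ) (Fin.init T)), lam T := by
        rw [← Finset.sum_union]
        · refine Finset.sum_congr ?_ fun _ _ => rfl
          ext T
          simp only [Finset.mem_filter, Finset.mem_union]
          constructor
          · rintro ⟨h3, h4⟩
            have h5 := hanti T h3 h4
            rcases h5.lt_or_eq with h6 | h6
            · exact Or.inl ⟨h3, h6⟩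
            · exact Or.inr ⟨h3, h6.symm, h4⟩
          · rintro (⟨h3, h4⟩ | ⟨h3, _, h4⟩)
            · exact ⟨h3, hanti' T h3 h4⟩
            · exact ⟨h3, h4⟩
        · rw [Finset.disjoint_left]
          intro T h3 h4
          have h5 := (Finset.mem_filter.1 h3).2
          have h6 := (Finset.mem_filter.1 h4).2.1
          omega
      rw [h2, hw.gt, zero_add] at h1
      have h3 : ∑ T ∈ C with ¬ Rl κ T, lam T = ∑ T ∈ C with T (Fin.last d) < c, lam T +
          ∑ T ∈ C with (T (Fin.last d) = c ∧ ¬ Rl (Fin.init κ) (Fin.init T)), lam T := by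
        rw [← Finset.sum_union]
        · refine Finset.sum_congr ?_ fun _ _ => rfl
          ext T
          simp only [Finset.mem_filter, Finset.mem_union]
          rw [hseg T]
          tauto
        · rw [Finset.disjoint_left]
          intro T h3 h4
          have h5 := (Finset.mem_filter.1 h3).2
          have h6 := (Finset.mem_filter.1 h4).2.1
          omega
      have h4 : 0 ≤ ∑ T ∈ C with T (Fin.last d) < c, lam T := by
        rcases Nat.eq_zero_or_pos c with h5 | h5
        · rw [h5]
          refine le_of_eq (Finset.sum_eq_zero fun T hT => ?_).symm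
          exact absurd (Finset.mem_filter.1 hT).2 (Nat.not_lt_zero _)
        · have h6 := hw.le (Fin.last d) (c - 1)
          have h7 : ∑ T ∈ C with T (Fin.last d) < c, lam T =
              ∑ T ∈ C with T (Fin.last d) ≤ c - 1, lam T :=
            Finset.sum_congr (Finset.filter_congr fun T _ => by omega) fun _ _ => rfl
          rw [h7, h6]
          exact zero_le_one
      rw [h3]
      linarith
    · -- no element with the same last coordinate and a larger truncation
      have h1 : ∑ T ∈ C with ¬ Rl κ T, lam T = ∑ T ∈ C with T (Fin.last d) ≤ c, lam T := by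
        refine Finset.sum_congr (Finset.filter_congr fun T hT => ?_) fun _ _ => rfl
        rw [hseg T]
        constructor
        · rintro (h | ⟨h, _⟩) <;> omega
        · intro h
          rcases h.lt_or_eq with h2 | h2
          · exact Or.inl h2
          · exact Or.inr ⟨h2, fun h3 => hA ⟨T, hT, h2, h3⟩⟩
      rw [h1, hw.le]

/-- Connectedness: if `∑ i, φ i (T i)` is constant on `C`, then every `φ i (T i)` is constant
on `C`. -/
theorem Wt.conn {G : Type} [AddCommGroup G] : ∀ {d : ℕ} {C : Finset (Fin d → ℕ)}
    {lam : (Fin d → ℕ) → ℝ}, Pw C → Wt C lam → ∀ (φ : Fin d → ℕ → G),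
      (∀ T ∈ C, ∀ U ∈ C, ∑ i, φ i (T i) = ∑ i, φ i (U i)) →
        ∀ T ∈ C, ∀ U ∈ C, ∀ i, φ i (T i) = φ i (U i) := by
  classical
  intro d
  induction d with
  | zero => exact fun _ _ _ _ _ _ _ _ i => i.elim0
  | succ d ih =>
    intro C lam hC hw φ hφ
    have key : ∀ T ∈ C, ∀ U ∈ C, φ (Fin.last d) (T (Fin.last d)) =
        φ (Fin.last d) (U (Fin.last d)) := by
      by_contra hcon
      simp only [not_forall] at hcon
      obtain ⟨T₁, hT₁, U₁, hU₁, hne⟩ := hcon
      -- the last element of the staircase
      obtain ⟨M, hM, hMmax⟩ := exists_rmin (r := fun X Y => Sc Y X) (fun x => Sc.irrefl x)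
        (fun x y z h h' => Sc.trans _ _ _ h' h) C ⟨T₁, hT₁⟩
      have hB : (C.filter fun X => φ (Fin.last d) (X (Fin.last d)) ≠
          φ (Fin.last d) (M (Fin.last d))).Nonempty := by
        by_cases h1 : φ (Fin.last d) (T₁ (Fin.last d)) = φ (Fin.last d) (M (Fin.last d))
        · refine ⟨U₁, Finset.mem_filter.2 ⟨hU₁, fun h2 => hne (h1.trans h2.symm)⟩⟩
        · exact ⟨T₁, Finset.mem_filter.2 ⟨hT₁, h1⟩⟩
      obtain ⟨T, hT, hTmax⟩ := exists_rmin (r := fun X Y => Sc Y X) (fun x => Sc.irrefl x)
        (fun x y z h h' => Sc.trans _ _ _ h' h) _ hB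
      obtain ⟨hTC, hTne⟩ := Finset.mem_filter.1 hT
      have hTM : Sc T M := by
        rcases Sc.tri (show T ≠ M from fun h => hTne (by rw [h])) with h | h
        · exact h
        · exact absurd h (hMmax T hTC)
      -- the successor of `T`
      obtain ⟨U, hU, hUmin⟩ := exists_rmin (r := Sc) (fun x => Sc.irrefl x)
        Sc.trans (C.filter fun X => Sc T X) ⟨M, Finset.mem_filter.2 ⟨hM, hTM⟩⟩
      obtain ⟨hUC, hTU⟩ := Finset.mem_filter.1 hU
      have hUe : φ (Fin.last d) (U (Fin.last d)) = φ (Fin.last d) (M (Fin.last d)) := by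
        by_contra h
        exact hTmax U (Finset.mem_filter.2 ⟨hUC, h⟩) hTU
      have hsuc : ∀ X ∈ C, Sc T X → Sc X U → False := fun X hX h1 h2 =>
        hUmin X (Finset.mem_filter.2 ⟨hX, h1⟩) h2
      have hφne : φ (Fin.last d) (T (Fin.last d)) ≠ φ (Fin.last d) (U (Fin.last d)) := by
        rw [hUe]
        exact hTne
      have hinit : Rl (Fin.init T) (Fin.init U) := by
        rcases hTU with h | ⟨h, _⟩
        · exact h
        · exfalso
          apply hφne
          have h1 := hφ T hTC U hUC
          rw [Fin.sum_univ_castSucc, Fin.sum_univ_castSucc] at h1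
          have h2 : ∑ i : Fin d, φ i.castSucc (T i.castSucc) =
              ∑ i : Fin d, φ i.castSucc (U i.castSucc) := by
            refine Finset.sum_congr rfl fun i _ => ?_
            have h3 : T i.castSucc = U i.castSucc := congrFun h i
            rw [h3]
          rw [h2] at h1
          exact add_left_cancel h1
      have hlast : U (Fin.last d) < T (Fin.last d) := by
        have h1 := (hC T hTC U hUC).anti hinit
        rcases h1.lt_or_eq with h2 | h2
        · exact h2
        · exact absurd (by rw [h2]) hφne
      -- the elements before the diagonal step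
      have hiff : ∀ X ∈ C, (U (Fin.last d) < X (Fin.last d) ↔
          ¬ Rl (Fin.init T) (Fin.init X)) := by
        intro X hX
        constructor
        · intro h1 h2
          -- `X` is after `T`, hence not before `U`
          have h3 : ¬ Sc X U := hsuc X hX (Or.inl h2)
          have h4 : X ≠ U := fun h4 => by rw [h4] at h1; exact lt_irrefl _ h1
          rcases Sc.tri h4 with h5 | h5
          · exact h3 h5
          · rcases h5 with h5 | ⟨h5, h6⟩
            · have h7 := (hC U hUC X hX).anti h5
              omega
            · omega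
        · intro h1
          by_cases h2 : Fin.init X = Fin.init T
          · by_contra h3
            have h4 : X (Fin.last d) < T (Fin.last d) := by omega
            exact hsuc X hX (Or.inr ⟨h2.symm, h4⟩) (Or.inl (by rw [h2]; exact hinit))
          · have h3 : Rl (Fin.init X) (Fin.init T) := by
              rcases Rl.tri h2 with h4 | h4
              · exact h4
              · exact absurd h4 h1
            have h4 := (hC X hX T hTC).anti h3
            omega
      have h1 := Wt.seg hC.image hw.image (Fin.init T) (Finset.mem_image_of_mem _ hTC)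
        ⟨_, Finset.mem_image_of_mem _ hUC, hinit⟩
      rw [sum_image C lam (fun T' => ¬ Rl (Fin.init T) T')] at h1
      have h2 : ∑ X ∈ C with ¬ Rl (Fin.init T) (Fin.init X), lam X =
          ∑ X ∈ C with U (Fin.last d) < X (Fin.last d), lam X :=
        Finset.sum_congr (Finset.filter_congr fun X hX => (hiff X hX).symm) fun _ _ => rfl
      rw [h2, hw.gt] at h1
      exact absurd h1 (by norm_num)
    intro T hT U hU i
    refine Fin.lastCases (key T hT U hU) (fun i => ?_) i
    refine ih hC.image hw.image (fun i => φ i.castSucc) ?_ (Fin.init T)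
      (Finset.mem_image_of_mem _ hT) (Fin.init U) (Finset.mem_image_of_mem _ hU) i
    intro X' hX' Y' hY'
    obtain ⟨X, hX, rfl⟩ := Finset.mem_image.1 hX'
    obtain ⟨Y, hY, rfl⟩ := Finset.mem_image.1 hY'
    have h1 := hφ X hX Y hY
    rw [Fin.sum_univ_castSucc, Fin.sum_univ_castSucc, key X hX Y hY] at h1
    exact add_right_cancel h1

end Pool.Agent.MPb0eA
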