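import Pool.Agent.Lib.MP_b0e20b_ag_A.AltD

/-!
# MP_b0e20b_ag, block A: heights with strict exchange
-/

set_option autoImplicit false

open scoped BigOperators

namespace Pool.Agent.MPb0eA

/-- `V`, `W` arise from `T`, `U` by exchanging some coordinates. -/
def Exc {d : ℕ} (T U V W : Fin d → ℕ) : Prop :=
  ∀ i, (V i = T i ∧ W i = U i) ∨ (V i = U i ∧ W i = T i)

theorem Exc.symm {d : ℕ} {T U V W : Fin d → ℕ} (h : Exc T U V W) : Exc T U W V :=
  fun i => (h i).elim (fun h => Or.inr ⟨h.2, h.1⟩) fun h => Or.inl ⟨h.2, h.1⟩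

theorem Exc.le {d : ℕ} {T U V W n : Fin d → ℕ} (h : Exc T U V W) (hT : ∀ i, T i ≤ n i)
    (hU : ∀ i, U i ≤ n i) : (∀ i, V i ≤ n i) ∧ ∀ i, W i ≤ n i := by
  refine ⟨fun i => ?_, fun i => ?_⟩ <;> rcases h i with ⟨h1, h2⟩ | ⟨h1, h2⟩
  · exact h1 ▸ hT i
  · exact h1 ▸ hU i
  · exact h2 ▸ hU i
  · exact h2 ▸ hT i

/-- Every pair can be exchanged to an alternating pair. -/
theorem exists_alt {d : ℕ} (T U : Fin d → ℕ) : ∃ V W, Exc T U V W ∧ Alt V W := by
  classical
  set c : Fin d → ℕ := fun i => (Finset.univ.filter fun k => k < i ∧ T k ≠ U k).card with hc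
  refine ⟨fun i => if Even (c i) then max (T i) (U i) else min (T i) (U i),
    fun i => if Even (c i) then min (T i) (U i) else max (T i) (U i), ?_, ?_⟩
  · intro i
    by_cases h : Even (c i)
    · simp only [h, if_true]
      rcases le_total (T i) (U i) with h1 | h1
      · exact Or.inr ⟨max_eq_right h1, min_eq_left h1⟩
      · exact Or.inl ⟨max_eq_left h1, min_eq_right h1⟩
    · simp only [h, if_false]
      rcases le_total (T i) (U i) with h1 | h1
      · exact Or.inl ⟨min_eq_left h1, max_eq_right h1⟩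
      · exact Or.inr ⟨min_eq_right h1, max_eq_left h1⟩
  · have hne : ∀ i, ((if Even (c i) then max (T i) (U i) else min (T i) (U i)) ≠
        (if Even (c i) then min (T i) (U i) else max (T i) (U i))) ↔ T i ≠ U i := by
      intro i
      by_cases h : Even (c i)
      · simp only [h, if_true]
        omega
      · simp only [h, if_false]
        omega
    intro i j hij hi hj hk
    rw [hne] at hi hj
    have hk' : ∀ k, i < k → k < j → T k = U k := by
      intro k h1 h2
      by_contra h3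
      exact (hne k).2 h3 (hk k h1 h2)
    have hcj : c j = c i + 1 := by
      simp only [hc]
      have h1 : (Finset.univ.filter fun k => k < j ∧ T k ≠ U k) =
          insert i (Finset.univ.filter fun k => k < i ∧ T k ≠ U k) := by
        ext k
        simp only [Finset.mem_filter, Finset.mem_univ, true_and, Finset.mem_insert]
        constructor
        · rintro ⟨h1, h2⟩
          rcases lt_trichotomy k i with h3 | h3 | h3
          · exact Or.inr ⟨h3, h2⟩
          · exact Or.inl h3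
          · exact absurd (hk' k h3 h1) h2
        · rintro (rfl | ⟨h1, h2⟩)
          · exact ⟨hij, hi⟩
          · exact ⟨h1.trans hij, h2⟩
      rw [h1, Finset.card_insert_of_notMem (by simp)]
    have hpar : Even (c j) ↔ ¬ Even (c i) := by
      rw [hcj, Nat.even_add_one]
    by_cases h : Even (c i)
    · have h' : ¬ Even (c j) := fun h2 => (hpar.1 h2) h
      simp only [h, h', if_true, if_false]
      omega
    · have h' : Even (c j) := hpar.2 h
      simp only [h, h', if_true, if_false]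
      omega

/-- The exchanged pair is nonzero. -/
theorem Exc.ne_zero {d : ℕ} {T U V W : Fin d → ℕ} (h : Exc T U V W) (ha : Alt V W)
    (hT : T ≠ 0) (hU : U ≠ 0) : V ≠ 0 ∧ W ≠ 0 := by
  classical
  have key : ∀ V W : Fin d → ℕ, Exc T U V W → Alt V W → V ≠ 0 := by
    intro V W h ha hV
    have hV' : ∀ i, V i = 0 := fun i => congrFun hV i
    -- at most one coordinate of `W` is nonzero
    have h1 : ∀ i j, W i ≠ 0 → W j ≠ 0 → i = j := by
      have h2 : ∀ i j, i < j → W i ≠ 0 → W j ≠ 0 → False := by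
        intro i j hij hi hj
        have h3 : (Finset.univ.filter fun k => i < k ∧ W k ≠ 0).Nonempty :=
          ⟨j, Finset.mem_filter.2 ⟨Finset.mem_univ _, hij, hj⟩⟩
        set k := (Finset.univ.filter fun k => i < k ∧ W k ≠ 0).min' h3 with hk
        obtain ⟨_, h4, h5⟩ := Finset.mem_filter.1 (Finset.min'_mem _ h3)
        rw [← hk] at h4 h5
        have h6 := ha i k h4 (by rw [hV' i]; exact hi.symm) (by rw [hV' k]; exact h5.symm) (by
          intro l h7 h8
          rw [hV' l]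
          by_contra h9
          have h10 := Finset.min'_le (Finset.univ.filter fun k => i < k ∧ W k ≠ 0) l
            (Finset.mem_filter.2 ⟨Finset.mem_univ _, h7, fun h => h9 h.symm⟩)
          exact absurd h8 (not_lt.2 h10))
        have h7 := h6.1 (by rw [hV' i]; omega)
        rw [hV' k] at h7
        omega
      intro i j hi hj
      rcases lt_trichotomy i j with h3 | h3 | h3
      · exact absurd (h2 i j h3 hi hj) id
      · exact h3
      · exact absurd (h2 j i h3 hj hi) id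
    obtain ⟨i, hi⟩ := Function.ne_iff.1 hT
    obtain ⟨j, hj⟩ := Function.ne_iff.1 hU
    have hi' : T i ≠ 0 := hi
    have hj' : U j ≠ 0 := hj
    have h3 : W i ≠ 0 := by
      rcases h i with ⟨h4, h5⟩ | ⟨h4, h5⟩
      · exact absurd (h4.symm.trans (hV' i)) hi'
      · rw [h5]; exact hi'
    have h4 : W j ≠ 0 := by
      rcases h j with ⟨h4, h5⟩ | ⟨h4, h5⟩
      · rw [h5]; exact hj'
      · exact absurd (h4.symm.trans (hV' j)) hj'
    have h5 := h1 i j h3 h4
    subst h5
    rcases h i with ⟨h6, h7⟩ | ⟨h6, h7⟩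
    · exact hi' (h6.symm.trans (hV' i))
    · exact hj' (h6.symm.trans (hV' i))
  refine ⟨key V W h ha, key W V h.symm ha.symm⟩

/-- The quadratic form of the heights. -/
noncomputable def Qf {d : ℕ} (ε : ℝ) (x : Fin d → ℝ) : ℝ :=
  ∑ i : Fin d, ∑ j : Fin d, if i < j then ε ^ ((j : ℕ) - (i : ℕ)) * (x i * x j) else 0

/-- The basic heights. -/
noncomputable def wX {d : ℕ} (ε : ℝ) (T : Fin d → ℕ) : ℝ :=
  -∑ i, (T i : ℝ) - Qf ε fun i => (T i : ℝ)

private theorem Qf_add {d : ℕ} (ε : ℝ) (x y : Fin d → ℝ) :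
    Qf ε x + Qf ε y = (Qf ε (fun i => x i + y i) + Qf ε (fun i => x i - y i)) / 2 := by
  unfold Qf
  rw [eq_div_iff two_ne_zero, ← Finset.sum_add_distrib, ← Finset.sum_add_distrib,
    Finset.sum_mul]
  refine Finset.sum_congr rfl fun i _ => ?_
  rw [← Finset.sum_add_distrib, ← Finset.sum_add_distrib, Finset.sum_mul]
  refine Finset.sum_congr rfl fun j _ => ?_
  by_cases h : i < j
  · simp only [h, if_true]
    ring
  · simp only [h, if_false]
    ring

private theorem Qf_prod {d : ℕ} (ε : ℝ) (x : Fin d → ℝ) : Qf ε x =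
    ∑ p : Fin d × Fin d, if p.1 < p.2 then ε ^ ((p.2 : ℕ) - (p.1 : ℕ)) * (x p.1 * x p.2) else 0 := by
  unfold Qf
  rw [Fintype.sum_prod_type]

/-- The main estimate: the form is larger at vectors which do not alternate. -/
private theorem Qf_lt {d : ℕ} {N ε : ℝ} (h0 : 0 < ε) (h1 : ε ≤ 1)
    (hε : (d : ℝ) ^ 2 * N ^ 2 * ε ≤ 1 / 2) (x y : Fin d → ℝ)
    (hxy : ∀ i, x i = y i ∨ x i = -y i) (hN : ∀ i, |y i| ≤ N) (h2 : ∀ i, y i ≠ 0 → 1 ≤ |y i|)
    (ha : ∀ i j, i < j → y i ≠ 0 → y j ≠ 0 → (∀ k, i < k → k < j → y k = 0) → y i * y j < 0)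
    (hn : ∃ i j, i < j ∧ x i * x j ≠ y i * y j) : Qf ε y + ε ^ d ≤ Qf ε x := by
  classical
  set S : Finset (Fin d × Fin d) :=
    Finset.univ.filter fun p => p.1 < p.2 ∧ x p.1 * x p.2 ≠ y p.1 * y p.2 with hS
  have hne : S.Nonempty := by
    obtain ⟨i, j, h3, h4⟩ := hn
    exact ⟨(i, j), Finset.mem_filter.2 ⟨Finset.mem_univ _, h3, h4⟩⟩
  obtain ⟨p₀, hp₀, hmin⟩ := Finset.exists_min_image S (fun p => (p.2 : ℕ) - (p.1 : ℕ)) hne
  obtain ⟨_, hp1, hp2⟩ := Finset.mem_filter.1 hp₀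
  set L : ℕ := (p₀.2 : ℕ) - (p₀.1 : ℕ) with hL
  have hN0 : 0 ≤ N := (abs_nonneg _).trans (hN p₀.1)
  have habs : ∀ i, |x i| = |y i| := by
    intro i
    rcases hxy i with h | h <;> rw [h]
    exact abs_neg _
  have hz : ∀ i, y i = 0 → x i = 0 := by
    intro i h
    have h3 := habs i
    rw [h, abs_zero] at h3
    exact abs_eq_zero.1 h3
  have hsq : ∀ i, x i * x i = y i * y i := by
    intro i
    rcases hxy i with h | h <;> rw [h]
    ring
  -- pairs of length at most `L`
  have hA : ∀ i j : Fin d, i < j → x i * x j ≠ y i * y j → (j : ℕ) - (i : ℕ) ≤ L →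
      2 ≤ x i * x j - y i * y j := by
    intro i j hij ht hlen
    have hyi : y i ≠ 0 := by
      intro h
      apply ht
      rw [h, hz i h, zero_mul, zero_mul]
    have hyj : y j ≠ 0 := by
      intro h
      apply ht
      rw [h, hz j h, mul_zero, mul_zero]
    have hbet : ∀ k, i < k → k < j → y k = 0 := by
      intro k h3 h4
      by_contra h5
      have h6 : x i * x k = y i * y k := by
        by_contra h7
        have h8 := hmin (i, k) (Finset.mem_filter.2 ⟨Finset.mem_univ _, h3, h7⟩)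
        have h9 : (i : ℕ) < k := h3
        have h10 : (k : ℕ) < j := h4
        simp only at h8
        omega
      have h7 : x k * x j = y k * y j := by
        by_contra h7
        have h8 := hmin (k, j) (Finset.mem_filter.2 ⟨Finset.mem_univ _, h4, h7⟩)
        have h9 : (i : ℕ) < k := h3
        have h10 : (k : ℕ) < j := h4
        simp only at h8
        omega
      apply ht
      have h8 : (x i * x j) * (y k * y k) = (y i * y j) * (y k * y k) := by
        rw [← hsq k]
        calc (x i * x j) * (x k * x k) = (x i * x k) * (x k * x j) := by ring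
          _ = (y i * y k) * (y k * y j) := by rw [h6, h7]
          _ = (y i * y j) * (y k * y k) := by ring
          _ = (y i * y j) * (x k * x k) := by rw [hsq k]
      exact mul_right_cancel₀ (mul_ne_zero h5 h5) h8
    have h3 := ha i j hij hyi hyj hbet
    have h4 : x i * x j = -(y i * y j) := by
      rcases hxy i with h | h <;> rcases hxy j with h' | h'
      · exact absurd (by rw [h, h']) ht
      · rw [h, h']
        ring
      · rw [h, h']
        ring
      · exact absurd (by rw [h, h']; ring) ht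
    have h5 : 1 ≤ |y i * y j| := by
      rw [abs_mul]
      exact one_le_mul_of_one_le_of_one_le (h2 i hyi) (h2 j hyj)
    rw [abs_of_neg h3] at h5
    rw [h4]
    linarith
  have hB : ∀ i j : Fin d, -(2 * N ^ 2) ≤ x i * x j - y i * y j := by
    intro i j
    have h3 : |x i * x j| ≤ N ^ 2 := by
      rw [abs_mul, habs, habs, sq]
      exact mul_le_mul (hN i) (hN j) (abs_nonneg _) hN0
    have h4 : |y i * y j| ≤ N ^ 2 := by
      rw [abs_mul, sq]
      exact mul_le_mul (hN i) (hN j) (abs_nonneg _) hN0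
    have h5 := abs_le.1 h3
    have h6 := abs_le.1 h4
    linarith [h5.1, h6.2]
  -- the terms
  have hterm : ∀ p : Fin d × Fin d, (if p = p₀ then 2 * ε ^ L else 0) ≤
      ((if p.1 < p.2 then ε ^ ((p.2 : ℕ) - (p.1 : ℕ)) * (x p.1 * x p.2) else 0) -
        if p.1 < p.2 then ε ^ ((p.2 : ℕ) - (p.1 : ℕ)) * (y p.1 * y p.2) else 0) +
        2 * N ^ 2 * ε ^ (L + 1) := by
    intro p
    have hc : 0 ≤ 2 * N ^ 2 * ε ^ (L + 1) := by positivity
    by_cases hp : p.1 < p.2
    · rw [if_pos hp, if_pos hp, ← mul_sub]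
      by_cases ht : x p.1 * x p.2 = y p.1 * y p.2
      · have hpp : p ≠ p₀ := by
          rintro rfl
          exact hp2 ht
        rw [if_neg hpp, ht, sub_self, mul_zero, zero_add]
        exact hc
      · have hmem : p ∈ S := Finset.mem_filter.2 ⟨Finset.mem_univ _, hp, ht⟩
        have hge : L ≤ (p.2 : ℕ) - (p.1 : ℕ) := hmin p hmem
        rcases Nat.lt_or_ge L ((p.2 : ℕ) - (p.1 : ℕ)) with hl | hl
        · rw [if_neg (fun h => by rw [h] at hl; exact lt_irrefl _ hl)]
          have h3 : ε ^ ((p.2 : ℕ) - (p.1 : ℕ)) ≤ ε ^ (L + 1) :=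
            pow_le_pow_of_le_one h0.le h1 hl
          have h4 := hB p.1 p.2
          have h5 : 0 ≤ ε ^ ((p.2 : ℕ) - (p.1 : ℕ)) := by positivity
          have h6 : ε ^ ((p.2 : ℕ) - (p.1 : ℕ)) * (-(2 * N ^ 2)) ≤
              ε ^ ((p.2 : ℕ) - (p.1 : ℕ)) * (x p.1 * x p.2 - y p.1 * y p.2) :=
            mul_le_mul_of_nonneg_left h4 h5
          have h7 : ε ^ ((p.2 : ℕ) - (p.1 : ℕ)) * (2 * N ^ 2) ≤ ε ^ (L + 1) * (2 * N ^ 2) :=
            mul_le_mul_of_nonneg_right h3 (by positivity)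
          linarith
        · have h3 := hA p.1 p.2 hp ht hl
          have h4 : (p.2 : ℕ) - (p.1 : ℕ) = L := le_antisymm hl hge
          rw [h4]
          have h5 : 0 < ε ^ L := by positivity
          have h6 : ε ^ L * 2 ≤ ε ^ L * (x p.1 * x p.2 - y p.1 * y p.2) :=
            mul_le_mul_of_nonneg_left h3 h5.le
          split_ifs
          · linarith
          · linarith
    · have hpp : p ≠ p₀ := by
        rintro rfl
        exact hp hp1
      rw [if_neg hpp, if_neg hp, if_neg hp, sub_self, zero_add]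
      exact hc
  have hsum := Finset.sum_le_sum fun p (_ : p ∈ (Finset.univ : Finset (Fin d × Fin d))) => hterm p
  rw [Finset.sum_ite_eq' Finset.univ p₀, if_pos (Finset.mem_univ _), Finset.sum_add_distrib,
    Finset.sum_sub_distrib, ← Qf_prod, ← Qf_prod, Finset.sum_const, Finset.card_univ,
    Fintype.card_prod, Fintype.card_fin, nsmul_eq_mul] at hsum
  push_cast at hsum
  have h3 : (d : ℝ) * d * (2 * N ^ 2 * ε ^ (L + 1)) = 2 * ((d : ℝ) ^ 2 * N ^ 2 * ε) * ε ^ L := by
    ring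
  rw [h3] at hsum
  have h4 : 0 < ε ^ L := by positivity
  have h5 : 2 * ((d : ℝ) ^ 2 * N ^ 2 * ε) * ε ^ L ≤ 1 * ε ^ L :=
    mul_le_mul_of_nonneg_right (by linarith) h4.le
  have h6 : ε ^ d ≤ ε ^ L := by
    refine pow_le_pow_of_le_one h0.le h1 ?_
    have := p₀.2.isLt
    omega
  linarith

/-- Strict exchange for the basic heights. -/
theorem wX_exc {d : ℕ} {N : ℕ} {ε : ℝ} (h0 : 0 < ε) (h1 : ε ≤ 1)
    (hε : (d : ℝ) ^ 2 * (N : ℝ) ^ 2 * ε ≤ 1 / 2) {T U V W : Fin d → ℕ} (hT : ∀ i, T i ≤ N)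
    (hU : ∀ i, U i ≤ N) (he : Exc T U V W) (ha : Alt V W) (hn : ¬ Alt T U) :
    wX ε T + wX ε U + ε ^ d / 2 ≤ wX ε V + wX ε W := by
  have hne : ∀ i, V i ≠ W i ↔ T i ≠ U i := by
    intro i
    rcases he i with ⟨h2, h3⟩ | ⟨h2, h3⟩ <;> rw [h2, h3]
    exact ne_comm
  have hy : ∀ i, (V i : ℝ) - W i ≠ 0 ↔ V i ≠ W i := by
    intro i
    rw [sub_ne_zero]
    exact Nat.cast_injective.ne_iff
  have hneg : ∀ a b a' b' : ℕ, a ≠ b → a' ≠ b' → (a < b ↔ b' < a') →
      ((a : ℝ) - b) * ((a' : ℝ) - b') < 0 := by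
    intro a b a' b' h2 h3 h4
    rcases lt_or_gt_of_ne h2 with h5 | h5
    · have h6 := h4.1 h5
      exact mul_neg_of_neg_of_pos (sub_neg.2 (by exact_mod_cast h5))
        (sub_pos.2 (by exact_mod_cast h6))
    · have h6 : a' < b' := by
        rcases lt_or_gt_of_ne h3 with h6 | h6
        · exact h6
        · exact absurd (h4.2 h6) (not_lt.2 h5.le)
      exact mul_neg_of_pos_of_neg (sub_pos.2 (by exact_mod_cast h5))
        (sub_neg.2 (by exact_mod_cast h6))
  have hpos : ∀ a b a' b' : ℕ, a ≠ b → a' ≠ b' → ¬ (a < b ↔ b' < a') →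
      0 < ((a : ℝ) - b) * ((a' : ℝ) - b') := by
    intro a b a' b' h2 h3 h4
    have h5 := hneg a b b' a' h2 h3.symm (by omega)
    have h6 : ((a : ℝ) - b) * ((b' : ℝ) - a') = -(((a : ℝ) - b) * ((a' : ℝ) - b')) := by ring
    rw [h6] at h5
    linarith
  have key := Qf_lt h0 h1 hε (fun i => (T i : ℝ) - U i) (fun i => (V i : ℝ) - W i) (by
      intro i
      rcases he i with ⟨h2, h3⟩ | ⟨h2, h3⟩
      · left
        simp only [h2, h3]
      · right
        simp only [h2, h3]
        ring) (by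
      intro i
      have h2 : (V i : ℝ) ≤ N := by
        rcases he i with ⟨h2, _⟩ | ⟨h2, _⟩ <;> rw [h2]
        · exact_mod_cast hT i
        · exact_mod_cast hU i
      have h3 : (W i : ℝ) ≤ N := by
        rcases he i with ⟨_, h2⟩ | ⟨_, h2⟩ <;> rw [h2]
        · exact_mod_cast hU i
        · exact_mod_cast hT i
      have h4 : (0 : ℝ) ≤ V i := Nat.cast_nonneg _
      have h5 : (0 : ℝ) ≤ W i := Nat.cast_nonneg _
      rw [abs_le]
      constructor <;> linarith) (by
      intro i hi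
      have h2 : V i ≠ W i := (hy i).1 hi
      have h3 : (1 : ℤ) ≤ |(V i : ℤ) - W i| := by
        rw [← Int.zero_add 1, Int.add_one_le_iff, abs_pos, sub_ne_zero]
        exact_mod_cast h2
      have h4 : ((1 : ℤ) : ℝ) ≤ ((|(V i : ℤ) - W i| : ℤ) : ℝ) := by exact_mod_cast h3
      push_cast at h4
      exact h4) (by
      intro i j hij hi hj hk
      refine hneg _ _ _ _ ((hy i).1 hi) ((hy j).1 hj) (ha i j hij ((hy i).1 hi) ((hy j).1 hj) ?_)
      intro k h2 h3
      by_contra h4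
      exact (hy k).2 h4 (hk k h2 h3)) (by
      by_contra hcon
      apply hn
      intro i j hij hi hj hk
      by_contra h2
      apply hcon
      refine ⟨i, j, hij, ?_⟩
      have h3 := hpos _ _ _ _ hi hj h2
      have h4 := hneg _ _ _ _ ((hne i).2 hi) ((hne j).2 hj) (ha i j hij ((hne i).2 hi)
        ((hne j).2 hj) (fun k h5 h6 => by
          by_contra h7
          exact (hne k).1 h7 (hk k h5 h6)))
      exact ne_of_gt (h4.trans h3))
  have hadd : (fun i => (T i : ℝ) + U i) = fun i => (V i : ℝ) + W i := by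
    funext i
    rcases he i with ⟨h2, h3⟩ | ⟨h2, h3⟩
    · rw [h2, h3]
    · rw [h2, h3, add_comm]
  have e1 := Qf_add ε (fun i => (T i : ℝ)) fun i => (U i : ℝ)
  have e2 := Qf_add ε (fun i => (V i : ℝ)) fun i => (W i : ℝ)
  have e3 : ∑ i, (T i : ℝ) + ∑ i, (U i : ℝ) = ∑ i, (V i : ℝ) + ∑ i, (W i : ℝ) := by
    rw [← Finset.sum_add_distrib, ← Finset.sum_add_distrib]
    exact Finset.sum_congr rfl fun i _ => congrFun hadd i
  rw [hadd] at e1
  unfold wX
  linarith

/-- The basic heights decrease. -/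
theorem wX_dec {d : ℕ} {ε : ℝ} (h0 : 0 ≤ ε) {T U : Fin d → ℕ} (h : ∀ i, T i ≤ U i)
    (hn : T ≠ U) : wX ε U + 1 ≤ wX ε T := by
  have h1 : Qf ε (fun i => (T i : ℝ)) ≤ Qf ε fun i => (U i : ℝ) := by
    unfold Qf
    refine Finset.sum_le_sum fun i _ => Finset.sum_le_sum fun j _ => ?_
    split_ifs
    · refine mul_le_mul_of_nonneg_left ?_ (pow_nonneg h0 _)
      have h2 : (T i : ℝ) ≤ U i := by exact_mod_cast h i
      have h3 : (T j : ℝ) ≤ U j := by exact_mod_cast h j
      exact mul_le_mul h2 h3 (Nat.cast_nonneg _) (Nat.cast_nonneg _)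
    · exact le_rfl
  have h2 : ∑ i, T i < ∑ i, U i := by
    obtain ⟨i, hi⟩ := Function.ne_iff.1 hn
    exact Finset.sum_lt_sum (fun i _ => h i) ⟨i, Finset.mem_univ _, lt_of_le_of_ne (h i) hi⟩
  have h3 : ∑ i, (T i : ℝ) + 1 ≤ ∑ i, (U i : ℝ) := by exact_mod_cast h2
  unfold wX
  linarith

/-- The basic heights are bounded. -/
theorem wX_abs {d : ℕ} {N : ℕ} {ε : ℝ} (h0 : 0 ≤ ε) (h1 : ε ≤ 1) {T : Fin d → ℕ}
    (hT : ∀ i, T i ≤ N) : |wX ε T| ≤ d * N + (d : ℝ) ^ 2 * (N : ℝ) ^ 2 := by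
  have h2 : 0 ≤ ∑ i, (T i : ℝ) := Finset.sum_nonneg fun i _ => Nat.cast_nonneg _
  have h3 : ∑ i, (T i : ℝ) ≤ d * N := by
    have h4 : ∑ i, (T i : ℝ) ≤ ∑ _i : Fin d, (N : ℝ) :=
      Finset.sum_le_sum fun i _ => by exact_mod_cast hT i
    rwa [Finset.sum_const, Finset.card_univ, Fintype.card_fin, nsmul_eq_mul] at h4
  have h4 : ∀ p : Fin d × Fin d, 0 ≤ (if p.1 < p.2 then
      ε ^ ((p.2 : ℕ) - (p.1 : ℕ)) * ((T p.1 : ℝ) * T p.2) else 0) := by
    intro p
    split_ifs
    · positivity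
    · exact le_rfl
  have h5 : ∀ p : Fin d × Fin d, (if p.1 < p.2 then
      ε ^ ((p.2 : ℕ) - (p.1 : ℕ)) * ((T p.1 : ℝ) * T p.2) else 0) ≤ (N : ℝ) ^ 2 := by
    intro p
    split_ifs
    · have h6 : ε ^ ((p.2 : ℕ) - (p.1 : ℕ)) ≤ 1 := pow_le_one₀ h0 h1
      have h7 : (T p.1 : ℝ) * T p.2 ≤ N * N :=
        mul_le_mul (by exact_mod_cast hT _) (by exact_mod_cast hT _) (Nat.cast_nonneg _)
          (Nat.cast_nonneg _)
      calc ε ^ ((p.2 : ℕ) - (p.1 : ℕ)) * ((T p.1 : ℝ) * T p.2) ≤ 1 * (N * N) :=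
            mul_le_mul h6 h7 (by positivity) zero_le_one
        _ = (N : ℝ) ^ 2 := by ring
    · positivity
  have h6 : 0 ≤ Qf ε fun i => (T i : ℝ) := by
    rw [Qf_prod]
    exact Finset.sum_nonneg fun p _ => h4 p
  have h7 : (Qf ε fun i => (T i : ℝ)) ≤ (d : ℝ) ^ 2 * (N : ℝ) ^ 2 := by
    rw [Qf_prod]
    have h8 := Finset.sum_le_sum fun p (_ : p ∈ (Finset.univ : Finset (Fin d × Fin d))) => h5 p
    rw [Finset.sum_const, Finset.card_univ, Fintype.card_prod, Fintype.card_fin,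
      nsmul_eq_mul] at h8
    push_cast at h8
    calc _ ≤ _ := h8
      _ = _ := by ring
  unfold wX
  rw [abs_le]
  constructor <;> linarith

/-- Rationally independent approximations. -/
theorem exists_indep {ι : Type} [Finite ι] (f : ι → ℝ) {δ : ℝ} (hδ : 0 < δ) :
    ∃ g : ι → ℝ, (∀ i, |g i - f i| < δ) ∧ LinearIndependent ℚ g := by
  set b := Module.Basis.ofVectorSpace ℚ ℝ with hb
  have hinf : Infinite (Module.Basis.ofVectorSpaceIndex ℚ ℝ) := by
    by_contra h
    rw [not_infinite_iff_finite] at h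
    have h1 : Module.Finite ℚ ℝ := Module.Finite.of_basis b
    have h2 : Countable ℝ := Finsupp.Countable.of_moduleFinite (R := ℚ) (M := ℝ)
    exact not_countable_iff.2 inferInstance h2
  obtain ⟨n, ⟨e⟩⟩ := Finite.exists_equiv_fin ι
  set v : ι → ℝ := fun i => b (Infinite.natEmbedding _ ((e i : Fin n) : ℕ)) with hv
  have hvi : LinearIndependent ℚ v := by
    refine b.linearIndependent.comp (fun i => Infinite.natEmbedding _ ((e i : Fin n) : ℕ)) ?_
    intro i j hij
    exact e.injective (Fin.val_injective ((Infinite.natEmbedding _).injective hij))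
  have hq : ∀ i, ∃ q : ℚ, q ≠ 0 ∧ |(q : ℝ) * v i - f i| < δ := by
    intro i
    have hv0 : v i ≠ 0 := hvi.ne_zero i
    have hv1 : 0 < |v i| := abs_pos.2 hv0
    have h1 : f i / v i < f i / v i + δ / |v i| := by
      have : 0 < δ / |v i| := div_pos hδ hv1
      linarith
    obtain ⟨q1, h2, h3⟩ := exists_rat_btwn h1
    obtain ⟨q2, h4, h5⟩ := exists_rat_btwn h3
    have h6 : ∀ q : ℚ, f i / v i < q → (q : ℝ) < f i / v i + δ / |v i| →
        |(q : ℝ) * v i - f i| < δ := by
      intro q h7 h8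
      have h9 : (q : ℝ) * v i - f i = (q - f i / v i) * v i := by
        field_simp
      rw [h9, abs_mul, abs_of_pos (sub_pos.2 h7)]
      calc (q - f i / v i) * |v i| < δ / |v i| * |v i| :=
            mul_lt_mul_of_pos_right (by linarith) hv1
        _ = δ := div_mul_cancel₀ _ hv1.ne'
    by_cases h7 : q1 = 0
    · refine ⟨q2, ?_, h6 q2 (h2.trans h4) h5⟩
      rw [h7] at h4
      exact_mod_cast (show (0 : ℝ) < q2 by exact_mod_cast h4).ne'
    · exact ⟨q1, h7, h6 q1 h2 h3⟩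
  choose q hq0 hq1 using hq
  refine ⟨fun i => (q i : ℝ) * v i, hq1, ?_⟩
  have h1 := hvi.units_smul fun i => Units.mk0 (q i) (hq0 i)
  have h2 : ((fun i => Units.mk0 (q i) (hq0 i)) • v : ι → ℝ) = fun i => (q i : ℝ) * v i := by
    funext i
    simp only [Pi.smul_apply', Units.smul_mk0, Rat.smul_def]
  rwa [h2] at h1

/-- The conditions for the heights: flat, decreasing, strict exchange. -/
structure Hts {d : ℕ} {ι : Type} (t : ι → Fin d → ℕ) (C : ℝ) (h : ι → ℝ) (H W : ℝ) : Prop where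
  pos : 0 < W
  flat : C * W < H
  abs : ∀ S, |h S - H| ≤ W
  dec : ∀ S S', (∀ i, t S' i ≤ t S i) → t S' ≠ t S → h S < h S'
  exc : ∀ S S' V V', Exc (t S) (t S') (t V) (t V') → Alt (t V) (t V') → ¬ Alt (t S) (t S') →
    h S + h S' < h V + h V'

/-- The existence of the heights. -/
theorem exists_heights {d : ℕ} {ι : Type} [Fintype ι] (t : ι → Fin d → ℕ) (C : ℝ) :
    ∃ (h : ι → ℝ) (r : Fin d → ℝ) (H W : ℝ), Hts t C h H W ∧
      ∀ (c : ι → ℤ) (e : Fin d → ℤ),
        ∑ S, (c S : ℝ) * h S + ∑ i, (e i : ℝ) * r i = 0 → c = 0 ∧ e = 0 := by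
  classical
  obtain ⟨N, hN⟩ : ∃ N : ℕ, ∀ S i, t S i ≤ N := by
    refine ⟨∑ S, ∑ i, t S i, fun S i => ?_⟩
    refine (Finset.single_le_sum (f := fun i => t S i) (fun _ _ => Nat.zero_le _)
      (Finset.mem_univ i)).trans ?_
    exact Finset.single_le_sum (f := fun S => ∑ i, t S i) (fun _ _ => Nat.zero_le _)
      (Finset.mem_univ S)
  set ε : ℝ := 1 / (2 * ((d : ℝ) ^ 2 * (N : ℝ) ^ 2) + 1) with hε
  have hM : 0 ≤ (d : ℝ) ^ 2 * (N : ℝ) ^ 2 := by positivity
  have hD : 0 < 2 * ((d : ℝ) ^ 2 * (N : ℝ) ^ 2) + 1 := by linarith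
  have h0 : 0 < ε := by positivity
  have h1 : ε ≤ 1 := by
    rw [hε, div_le_one hD]
    linarith
  have h2 : (d : ℝ) ^ 2 * (N : ℝ) ^ 2 * ε ≤ 1 / 2 := by
    rw [hε, mul_one_div, div_le_div_iff₀ hD two_pos]
    linarith
  set W : ℝ := d * N + (d : ℝ) ^ 2 * (N : ℝ) ^ 2 + 1 with hW
  have hW0 : 0 < W := by positivity
  set H : ℝ := C * W + 1 with hH
  have hεd : 0 < ε ^ d := by positivity
  have hεd1 : ε ^ d ≤ 1 := pow_le_one₀ h0.le h1
  set δ : ℝ := ε ^ d / 16 with hδ
  have hδ0 : 0 < δ := by positivity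
  obtain ⟨g, hg, hgi⟩ := exists_indep (ι := ι ⊕ Fin d)
    (Sum.elim (fun S => H + wX ε (t S)) fun _ => (0 : ℝ)) hδ0
  have hgS : ∀ S, |g (Sum.inl S) - (H + wX ε (t S))| < δ := fun S => hg (Sum.inl S)
  refine ⟨fun S => g (Sum.inl S), fun i => g (Sum.inr i), H, W, ⟨hW0, ?_, ?_, ?_, ?_⟩, ?_⟩
  · rw [hH]
    linarith
  · intro S
    have h3 := wX_abs h0.le h1 (hN S)
    have h4 := abs_lt.1 (hgS S)
    have h5 := abs_le.1 h3
    rw [abs_le]
    constructor <;> linarith [h4.1, h4.2, h5.1, h5.2]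
  · intro S S' h3 h4
    have h5 := wX_dec h0.le h3 h4
    have h6 := abs_lt.1 (hgS S)
    have h7 := abs_lt.1 (hgS S')
    linarith [h6.2, h7.1]
  · intro S S' V V' h3 h4 h5
    have h6 := wX_exc h0 h1 h2 (hN S) (hN S') h3 h4 h5
    have h7 := abs_lt.1 (hgS S)
    have h8 := abs_lt.1 (hgS S')
    have h9 := abs_lt.1 (hgS V)
    have h10 := abs_lt.1 (hgS V')
    linarith [h7.2, h8.2, h9.1, h10.1]
  · intro c e hce
    have h3 := Fintype.linearIndependent_iff.1 hgi
      (Sum.elim (fun S => (c S : ℚ)) fun i => (e i : ℚ)) (by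
        rw [Fintype.sum_sum_type]
        simp only [Sum.elim_inl, Sum.elim_inr, Rat.smul_def, Rat.cast_intCast]
        exact hce)
    refine ⟨funext fun S => ?_, funext fun i => ?_⟩
    · have h4 : (c S : ℚ) = 0 := h3 (Sum.inl S)
      have h5 : c S = 0 := by exact_mod_cast h4
      exact h5
    · have h4 : (e i : ℚ) = 0 := h3 (Sum.inr i)
      have h5 : e i = 0 := by exact_mod_cast h4
      exact h5

end Pool.Agent.MPb0eA
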