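import Pool.Agent.Lib.MP_b0e20b_ag_A.Val

/-!
# MP_b0e20b_ag, block A: the two types of flags, with the maxima, and injectivity
-/

set_option autoImplicit false

open scoped BigOperators

namespace Pool.Agent.MPb0eA

variable {d : ℕ} {n : Fin d → ℕ} {h : (Fin d → ℕ) → ℝ} {u u' : Fin d → ℕ → ℝ}
  {s s' : Fin d → ℝ} {r : Fin d → ℕ} {J : Finset (Fin d)}

/-- The first type of flags: Nash cores. -/
structure ClsN (n : Fin d → ℕ) (h : (Fin d → ℕ) → ℝ) (u : Fin d → ℕ → ℝ) (s : Fin d → ℝ)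
    (V : ℝ) : Prop where
  hs : ∀ i, s i = 2 * u i (n i)
  top : ∀ T ∈ Mo n, vM h u T ≤ V
  pw : Pw (Cf n h u V)
  wp : ∃ lam : (Fin d → ℕ) → ℝ, (∀ T ∈ Cf n h u V, lam T ≠ 0) ∧ Wp (Cf n h u V) lam fun _ => 0
  used : ∀ i, ∀ b ≤ n i, ∃ T ∈ Cf n h u V, T i = b

/-- The second type of flags. -/
structure ClsM (n : Fin d → ℕ) (h : (Fin d → ℕ) → ℝ) (u : Fin d → ℕ → ℝ) (s : Fin d → ℝ)
    (r : Fin d → ℕ) (J : Finset (Fin d)) : Prop where
  J0 : J.Nonempty
  rn : ∀ i, r i ≤ n i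
  hs : ∀ i, s i = 2 * u i (r i)
  top : ∀ T ∈ Mo n, vM h u T ≤ vP s
  pw : Pw (Cf n h u (vP s))
  wp : ∃ lam : (Fin d → ℕ) → ℝ, (∀ T ∈ Cf n h u (vP s), lam T ≠ 0) ∧ Wp (Cf n h u (vP s)) lam r
  C1 : ∀ T ∈ Cf n h u (vP s), ∀ i, (if i ∈ J then 1 else 0) ≤ T i ∧ T i ≤ r i
  used : ∀ i b, (if i ∈ J then 1 else 0) ≤ b → b ≤ r i → ∃ T ∈ Cf n h u (vP s), T i = b
  up : ∀ i b, r i < b → b ≤ n i → ∃ T, T i = b ∧ Mx n h u i T ∧
    (∀ j, j ≠ i → (if j ∈ J then 1 else 0) ≤ T j ∧ T j ≤ r j) ∧ vM h u T = vT u s i b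
  dn : ∃ a : ℝ, ∀ i ∈ J, (∃ j ∈ J, j ≠ i) → ∃ T, T i = 0 ∧ Mx n h u i T ∧
    (∀ k, k ≠ i → (if k ∈ J then 1 else 0) ≤ T k ∧ T k ≤ r k) ∧ vM h u T = a

theorem Wp.ne {C : Finset (Fin d → ℕ)} {lam : (Fin d → ℕ) → ℝ} {p : Fin d → ℕ}
    (hw : Wp C lam p) : C.Nonempty := by
  by_contra hcon
  rw [Finset.not_nonempty_iff_eq_empty] at hcon
  have h1 := hw.one
  rw [hcon, Finset.sum_empty] at h1
  exact zero_ne_one h1

/-- Real weights from complex weights. -/
theorem exists_Wp {C : Finset (Fin d → ℕ)} (hC : Pw C) {p : Fin d → ℕ} {z : (Fin d → ℕ) → ℂ}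
    {q : ℂ} (hq : q ≠ 0) (hz : ∀ T ∈ C, z T ≠ 0) (h1 : ∑ T ∈ C, z T = q)
    (hm : ∀ i b, ∑ T ∈ C with T i = b, z T = if b = p i then q else 0) :
    ∃ lam : (Fin d → ℕ) → ℝ, (∀ T ∈ C, lam T ≠ 0) ∧ Wp C lam p := by
  have h2 : ∀ T ∈ C, (z T / q).im = 0 := by
    refine hC.indep (fun T => (z T / q).im) ?_ fun i b => ?_
    · rw [← Complex.im_sum, ← Finset.sum_div, h1, div_self hq, Complex.one_im]
    · rw [← Complex.im_sum, ← Finset.sum_div, hm]
      split_ifs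
      · rw [div_self hq, Complex.one_im]
      · rw [zero_div, Complex.zero_im]
  refine ⟨fun T => (z T / q).re, fun T hT h3 => ?_, ?_, fun i b => ?_⟩
  · have h4 : z T / q = 0 := Complex.ext h3 (h2 T hT)
    rcases div_eq_zero_iff.1 h4 with h5 | h5
    · exact hz T hT h5
    · exact hq h5
  · rw [← Complex.re_sum, ← Finset.sum_div, h1, div_self hq, Complex.one_re]
  · rw [← Complex.re_sum, ← Finset.sum_div, hm]
    split_ifs
    · rw [div_self hq, Complex.one_re]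
    · rw [zero_div, Complex.zero_re]

theorem ClsN.con {V : ℝ} (hN : ClsN n h u s V) : Con (Cf n h u V) 0 n := by
  intro G _ φ hφ i b _ hb
  obtain ⟨lam, _, hw⟩ := hN.wp
  obtain ⟨S, hS, hSi⟩ := hN.used i b hb
  obtain ⟨T, hT, hTi⟩ := hN.used i (n i) le_rfl
  have h1 := hw.conn hN.pw (Or.inr fun _ => rfl) φ hφ S hS T hT i
  rw [hSi, hTi] at h1
  exact h1

theorem ClsN.toA {V : ℝ} (hN : ClsN n h u s V) : ClsA n h u s := ⟨hN.hs, V, hN.con⟩

theorem ClsM.r1 (hM : ClsM n h u s r J) : ∀ i ∈ J, 1 ≤ r i := by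
  intro i hi
  obtain ⟨lam, _, hw⟩ := hM.wp
  obtain ⟨T, hT⟩ := hw.ne
  have h1 := hM.C1 T hT i
  rw [if_pos hi] at h1
  exact h1.1.trans h1.2

theorem ClsM.lo_le (hM : ClsM n h u s r J) (i : Fin d) : (if i ∈ J then 1 else 0) ≤ r i := by
  split_ifs with hi
  · exact hM.r1 i hi
  · exact Nat.zero_le _

theorem ClsM.con (hM : ClsM n h u s r J) :
    Con (Cf n h u (vP s)) (fun i => if i ∈ J then 1 else 0) r := by
  intro G _ φ hφ i b hb0 hb
  obtain ⟨lam, _, hw⟩ := hM.wp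
  obtain ⟨S, hS, hSi⟩ := hM.used i b hb0 hb
  obtain ⟨T, hT, hTi⟩ := hM.used i (r i) (hM.lo_le i) le_rfl
  have h1 := hw.conn hM.pw (Or.inl fun T hT i => (hM.C1 T hT i).2) φ hφ S hS T hT i
  rw [hSi, hTi] at h1
  exact h1

theorem ClsM.toB (hM : ClsM n h u s r J) : ClsB n h u s r J := by
  obtain ⟨lam, _, hw⟩ := hM.wp
  refine ⟨hM.J0, hM.r1, hM.rn, hM.hs, hw.ne, hM.C1, hM.con, fun i b hb hbn => ?_,
    fun i hi j hj hij => ?_⟩
  · obtain ⟨T, h1, h2, h3, h4⟩ := hM.up i b hb hbn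
    exact ⟨T, h2.1, h1, h3, h4⟩
  · obtain ⟨a, ha⟩ := hM.dn
    obtain ⟨T, h1, h2, h3, h4⟩ := ha i hi ⟨j, hj, hij.symm⟩
    obtain ⟨U, h1', h2', h3', h4'⟩ := ha j hj ⟨i, hi, hij⟩
    exact ⟨T, h2.1, U, h2'.1, h1, h1', h3, h3', h4.trans h4'.symm⟩

/-- The Nash core determines the exponents. -/
theorem ClsN.inj {V V' : ℝ} (hN : ClsN n h u s V) (hN' : ClsN n h u' s' V')
    (hC : Cf n h u V = Cf n h u' V') (h0 : ∀ i, u i 0 = u' i 0) :
    (∀ i, ∀ b ≤ n i, u i b = u' i b) ∧ s = s' := by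
  have h1 := hN.con ℝ (fun i b => u i b - u' i b) (by
    have h2 : ∀ T ∈ Cf n h u V, ∑ i, (u i (T i) - u' i (T i)) = V - V' := by
      intro T hT
      have h3 := (mem_Cf.1 hT).2
      rw [hC] at hT
      have h4 := (mem_Cf.1 hT).2
      rw [Finset.sum_sub_distrib]
      unfold vM at h3 h4
      linarith
    intro T hT U hU
    rw [h2 T hT, h2 U hU])
  have h2 : ∀ i, ∀ b ≤ n i, u i b = u' i b := by
    intro i b hb
    have h3 := h1 i b (Nat.zero_le _) hb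
    have h4 := h1 i 0 le_rfl (Nat.zero_le _)
    have h5 := h0 i
    linarith
  refine ⟨h2, funext fun i => ?_⟩
  rw [hN.hs, hN'.hs, h2 i (n i) le_rfl]

/-- The core determines the exponents, second type. -/
theorem ClsM.inj (hM : ClsM n h u s r J) (hM' : ClsM n h u' s' r J)
    (hC : Cf n h u (vP s) = Cf n h u' (vP s')) (h0 : ∀ i, u i 0 = u' i 0) :
    (∀ i, ∀ b ≤ n i, u i b = u' i b) ∧ s = s' := by
  classical
  set δ : Fin d → ℕ → ℝ := fun i b => u i b - u' i b with hδ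
  have hP : vP s - vP s' = 2 * ∑ i, δ i (r i) := by
    unfold vP
    rw [← Finset.sum_sub_distrib, Finset.mul_sum]
    refine Finset.sum_congr rfl fun i _ => ?_
    rw [hM.hs, hM'.hs]
    simp only [hδ]
    ring
  have hsum : ∀ T ∈ Cf n h u (vP s), ∑ i, δ i (T i) = vP s - vP s' := by
    intro T hT
    have h3 := (mem_Cf.1 hT).2
    rw [hC] at hT
    have h4 := (mem_Cf.1 hT).2
    simp only [hδ]
    rw [Finset.sum_sub_distrib]
    unfold vM at h3 h4
    linarith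
  have hcon : ∀ i b, (if i ∈ J then 1 else 0) ≤ b → b ≤ r i → δ i b = δ i (r i) :=
    hM.con ℝ δ fun T hT U hU => by rw [hsum T hT, hsum U hU]
  -- the sum over the monomials in the box
  have hbox : ∀ (T : Fin d → ℕ) (i : Fin d),
      (∀ k, k ≠ i → (if k ∈ J then 1 else 0) ≤ T k ∧ T k ≤ r k) →
      vM h u T - vM h u' T = δ i (T i) + (∑ k, δ k (r k) - δ i (r i)) := by
    intro T i hT
    have h3 : vM h u T - vM h u' T = ∑ k, δ k (T k) := by
      simp only [hδ]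
      rw [Finset.sum_sub_distrib]
      unfold vM
      ring
    rw [h3, ← Finset.add_sum_erase _ _ (Finset.mem_univ i),
      ← Finset.add_sum_erase _ (fun k => δ k (r k)) (Finset.mem_univ i), add_sub_cancel_left]
    congr 1
    refine Finset.sum_congr rfl fun k hk => ?_
    obtain ⟨h4, h5⟩ := hT k (Finset.ne_of_mem_erase hk)
    exact hcon k (T k) h4 h5
  have hS0 : ∑ k, δ k (r k) = 0 := by
    obtain ⟨lam, _, hw⟩ := hM.wp
    obtain ⟨T, hT⟩ := hw.ne
    have h1 := hsum T hT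
    have h2 : ∑ i, δ i (T i) = ∑ i, δ i (r i) := by
      refine Finset.sum_congr rfl fun i _ => ?_
      obtain ⟨h4, h5⟩ := hM.C1 T hT i
      exact hcon i (T i) h4 h5
    rw [hP, h2] at h1
    linarith
  have hδ0 : ∀ i, δ i 0 = 0 := fun i => sub_eq_zero.2 (h0 i)
  -- maxima of the same class
  have hmax : ∀ (i : Fin d) (T T' : Fin d → ℕ), T i = T' i → Mx n h u i T → Mx n h u' i T' →
      (∀ k, k ≠ i → (if k ∈ J then 1 else 0) ≤ T k ∧ T k ≤ r k) →
      (∀ k, k ≠ i → (if k ∈ J then 1 else 0) ≤ T' k ∧ T' k ≤ r k) →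
      vM h u T = vM h u' T' + (δ i (T i) - δ i (r i)) := by
    intro i T T' hTT hT hT' hb hb'
    have h1 := hbox T i hb
    have h2 := hbox T' i hb'
    have h3 := hT.2 T' hT'.1 hTT.symm
    have h4 := hT'.2 T hT.1 hTT
    rw [hS0] at h1 h2
    rw [← hTT] at h2
    linarith
  have hnJ : ∀ i, i ∉ J → δ i (r i) = 0 := by
    intro i hi
    rw [← hcon i 0 (by rw [if_neg hi]) (Nat.zero_le _)]
    exact hδ0 i
  have hr : ∀ i, δ i (r i) = 0 := by
    obtain ⟨a, ha⟩ := hM.dn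
    obtain ⟨a', ha'⟩ := hM'.dn
    have hJs : ∑ i ∈ J, δ i (r i) = 0 := by
      rw [← hS0]
      exact Finset.sum_subset (Finset.subset_univ J) fun i _ hi => hnJ i hi
    intro i
    by_cases hi : i ∈ J
    swap
    · exact hnJ i hi
    by_cases hj : ∃ j ∈ J, j ≠ i
    · have h1 : ∀ k ∈ J, δ k (r k) = a' - a := by
        intro k hk
        have hj' : ∃ j ∈ J, j ≠ k := by
          obtain ⟨j, hj, hji⟩ := hj
          by_cases hki : k = i
          · exact ⟨j, hj, hki ▸ hji⟩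
          · exact ⟨i, hi, Ne.symm hki⟩
        obtain ⟨T, h1, h2, h3, h4⟩ := ha k hk hj'
        obtain ⟨T', h1', h2', h3', h4'⟩ := ha' k hk hj'
        have h5 := hmax k T T' (h1.trans h1'.symm) h2 h2' h3 h3'
        rw [h4, h4', h1, hδ0] at h5
        linarith
      have h2 : ∑ k ∈ J, δ k (r k) = (J.card : ℝ) * (a' - a) := by
        rw [Finset.sum_congr rfl h1, Finset.sum_const, nsmul_eq_mul]
      rw [hJs] at h2
      have h3 : (J.card : ℝ) ≠ 0 := Nat.cast_ne_zero.2 (Finset.card_ne_zero_of_mem hi)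
      rw [h1 i hi]
      rcases mul_eq_zero.1 h2.symm with h4 | h4
      · exact absurd h4 h3
      · exact h4
    · simp only [not_exists, not_and, not_not] at hj
      have h1 : J = {i} := by
        ext k
        rw [Finset.mem_singleton]
        exact ⟨fun hk => hj k hk, fun hk => hk ▸ hi⟩
      rw [h1, Finset.sum_singleton] at hJs
      exact hJs
  have hss : s = s' := by
    funext i
    have h1 := hr i
    rw [hM.hs, hM'.hs]
    simp only [hδ] at h1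
    linarith
  refine ⟨fun i b hb => ?_, hss⟩
  have h3 : δ i b = 0 := by
    by_cases hb1 : r i < b
    · obtain ⟨T, h1, h2, h3, h4⟩ := hM.up i b hb1 hb
      obtain ⟨T', h1', h2', h3', h4'⟩ := hM'.up i b hb1 hb
      have h5 := hmax i T T' (h1.trans h1'.symm) h2 h2' h3 h3'
      rw [h4, h4', h1, hr i, ← hss] at h5
      unfold vT at h5
      simp only [hδ] at h5 ⊢
      linarith
    · by_cases hb0 : b = 0
      · rw [hb0]
        exact hδ0 i
      · rw [hcon i b (by split_ifs <;> omega) (by omega)]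
        exact hr i
  exact sub_eq_zero.1 h3

end Pool.Agent.MPb0eA
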