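import Pool.Agent.Lib.MP_b0e20b_ag_A.Val0
import Pool.Agent.Lib.MP_b0e20b_ag_A.ClsM

/-!
# MP_b0e20b_ag, block A: flags whose top level consists of monomials
-/

set_option autoImplicit false

open scoped BigOperators

namespace Pool.Agent.MPb0eA

variable {d : ℕ} {n : Fin d → ℕ} {h : (Fin d → ℕ) → ℝ} {H c V : ℝ} {u : Fin d → ℕ → ℝ}
  {s : Fin d → ℝ} {z : (Fin d → ℕ) → ℂ} {y : Fin d → ℕ → ℂ} {q : ℂ}

/-- The values of the top level are used by elements with another nonzero coordinate. -/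
theorem exists_two {C : Finset (Fin d → ℕ)} (hz : ∀ T ∈ C, z T ≠ 0) {i : Fin d} {b : ℕ}
    (hm : ∑ T ∈ C with T i = b, z T = 0) {T : Fin d → ℕ} (hT : T ∈ C) (hb : T i = b) :
    ∃ U ∈ C, U i = b ∧ ∃ j, j ≠ i ∧ U j ≠ 0 := by
  classical
  by_contra hcon
  simp only [not_exists, not_and, not_not] at hcon
  have h1 : C.filter (fun T => T i = b) = {T} := by
    ext U
    rw [Finset.mem_filter, Finset.mem_singleton]
    constructor
    · rintro ⟨h1, h2⟩
      funext j
      by_cases hj : j = i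
      · rw [hj, h2, hb]
      · rw [hcon U h1 h2 j hj, hcon T hT hb j hj]
    · rintro rfl
      exact ⟨hT, hb⟩
  rw [h1, Finset.sum_singleton] at hm
  exact hz T hT hm

/-- The weights of a level. -/
theorem toWt {C : Finset (Fin d → ℕ)} (hC : Pw C) (hne : ∃ T ∈ C, z T ≠ 0)
    (hm : ∀ i b, 1 ≤ b → ∑ T ∈ C with T i = b, z T = 0) :
    Wt C fun T => (z T / ∑ T ∈ C, z T).re := by
  have h1 := hC.sum_ne z hm hne
  refine ⟨?_, fun i b hb => ?_⟩
  · rw [← Complex.re_sum, ← Finset.sum_div, div_self h1, Complex.one_re]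
  · rw [← Complex.re_sum, ← Finset.sum_div, hm i b hb, zero_div, Complex.zero_re]

/-- The sum over the elements with label zero. -/
theorem sum_zero_label {C : Finset (Fin d → ℕ)}
    (hm : ∀ i b, 1 ≤ b → ∑ T ∈ C with T i = b, z T = 0) (i : Fin d) :
    ∑ T ∈ C with T i = 0, z T = ∑ T ∈ C, z T := by
  classical
  have h1 : ∑ T ∈ C, z T = ∑ b ∈ C.image (fun T => T i), ∑ T ∈ C with T i = b, z T :=
    (Finset.sum_fiberwise_of_maps_to (fun T hT => Finset.mem_image_of_mem _ hT) _).symm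
  rw [h1]
  symm
  by_cases h0 : 0 ∈ C.image fun T => T i
  · refine Finset.sum_eq_single_of_mem 0 h0 fun b _ hb => ?_
    exact hm i b (Nat.one_le_iff_ne_zero.2 hb)
  · rw [Finset.sum_eq_zero fun b hb => hm i b (Nat.one_le_iff_ne_zero.2 fun hb0 =>
      h0 (hb0 ▸ hb))]
    symm
    refine Finset.sum_eq_zero fun T hT => ?_
    obtain ⟨h2, h3⟩ := Finset.mem_filter.1 hT
    exact absurd (Finset.mem_image.2 ⟨T, h2, h3⟩) h0

theorem Wp.used {C : Finset (Fin d → ℕ)} {lam : (Fin d → ℕ) → ℝ} {p : Fin d → ℕ}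
    (hw : Wp C lam p) (i : Fin d) : ∃ S ∈ C, S i = p i := by
  by_contra hcon
  simp only [not_exists, not_and] at hcon
  have h1 := hw.marg i (p i)
  rw [if_pos rfl, Finset.sum_eq_zero fun S hS => ?_] at h1
  · exact zero_ne_one h1
  · obtain ⟨h2, h3⟩ := Finset.mem_filter.1 hS
    exact absurd h3 (hcon S h2)

/-- If no `t (i, b)` has the top value then the flag is a Nash core. -/
theorem LF.clsN (hL : LF n h u s z y q) (hx : Hx n h H c) (hn : ∀ i, 1 ≤ n i)
    (hV : ∀ T ∈ Mo n, vM h u T ≤ V) (hA : ∃ T ∈ Mo n, vM h u T = V)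
    (hlt : ∀ i, ∀ b ≤ n i, vT u s i b < V) : ClsN n h u s V := by
  classical
  have hc := hx.pos
  have hd' : (0 : ℝ) ≤ d := Nat.cast_nonneg d
  have hC := Cf.pw hx hV
  have hzC : ∀ T ∈ Cf n h u V, z T ≠ 0 := fun T hT => hL.z0 T (mem_Cf.1 hT).1
  have hne : (Cf n h u V).Nonempty := by
    obtain ⟨T, h1, h2⟩ := hA
    exact ⟨T, mem_Cf.2 ⟨h1, h2⟩⟩
  -- the marginals
  have hm : ∀ i b, 1 ≤ b → ∑ T ∈ Cf n h u V with T i = b, z T = 0 := by
    intro i b hb
    by_cases hbn : b ≤ n i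
    · have h1 := hL.row (i := i) (b := b) (by omega) hbn (X := V) (fun T hT _ => hV T hT)
        (hlt i b hbn).le
      rw [if_neg (ne_of_lt (hlt i b hbn))] at h1
      rw [Cf, Finset.filter_filter]
      exact h1
    · refine Finset.sum_eq_zero fun T hT => ?_
      obtain ⟨h1, h2⟩ := Finset.mem_filter.1 hT
      exact absurd ((mem_Mo.1 (mem_Cf.1 h1).1).2 i) (by omega)
  obtain ⟨T₀, hT₀⟩ := hne
  have hZ := hC.sum_ne z hm ⟨T₀, hT₀, hzC T₀ hT₀⟩
  obtain ⟨lam, hlam, hw⟩ := exists_Wp (p := fun _ => 0) hC hZ hzC rfl (fun i b => by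
    by_cases hb : b = 0
    · subst hb
      rw [if_pos rfl]
      exact sum_zero_label hm i
    · rw [if_neg hb]
      exact hm i b (Nat.one_le_iff_ne_zero.2 hb))
  have h0 : ∀ i, ∃ S ∈ Cf n h u V, S i = 0 := fun i => hw.used i
  -- the top value is large
  have hbig : H - 3 * c ≤ V := by
    obtain ⟨i, hi⟩ := Function.ne_iff.1 (mem_Mo.1 (mem_Cf.1 hT₀).1).1
    have hi' : T₀ i ≠ 0 := hi
    obtain ⟨T, hT, hTi, j, hj, hTj⟩ := exists_two hzC (hm i (T₀ i) (by omega)) hT₀ rfl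
    obtain ⟨hT1, hT2⟩ := mem_Cf.1 hT
    have hTi' : T i ≠ 0 := hTi.symm ▸ hi'
    have h1 := hx.upd_le (u := u) hT1 (Nat.zero_le (n i)) (Or.inr ⟨j, hj, hTj⟩)
    have h2 := hV _ (update_mem hT1 (Nat.zero_le (n i)) (Or.inr ⟨j, hj, hTj⟩))
    rw [hL.u0, hT2] at h1
    have h3 := single_mem (n := n) hTi' ((mem_Mo.1 hT1).2 i)
    have h4 := hV _ h3
    rw [vM_single hL.u0] at h4
    have h5 := abs_le.1 (hx.near _ h3)
    linarith
  -- the exponents are small
  have hu : ∀ i, ∀ b ≤ n i, u i b ≤ 2 * c := by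
    intro i b hb
    obtain ⟨S, hS, hSi⟩ := h0 i
    obtain ⟨hS1, hS2⟩ := mem_Cf.1 hS
    have h1 : ∃ j, j ≠ i ∧ S j ≠ 0 := by
      obtain ⟨j, hj⟩ := Function.ne_iff.1 (mem_Mo.1 hS1).1
      refine ⟨j, ?_, hj⟩
      rintro rfl
      exact hj hSi
    have h2 := hx.upd_le (u := u) hS1 hb (Or.inr h1)
    have h3 := hV _ (update_mem hS1 hb (Or.inr h1))
    rw [hSi, hL.u0, hS2] at h2
    linarith
  have hs : ∀ i, s i ≤ 4 * c := by
    intro i
    obtain ⟨b, hb, h1⟩ := hL.vP_le i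
    have h2 := hu i b hb
    unfold vP vT at h1
    linarith
  have hrow : ∀ i, ∀ b ≤ n i, b ≠ 0 → ∃ T ∈ Mo n, T i = b ∧ vT u s i b < vM h u T := by
    intro i b hb hb0
    obtain ⟨S, hS, hSi⟩ := h0 i
    obtain ⟨hS1, hS2⟩ := mem_Cf.1 hS
    refine ⟨Function.update S i b, update_mem hS1 hb (Or.inl hb0), Function.update_self i b S, ?_⟩
    have h2 := hx.upd_le (u := u) hS1 hb (Or.inl hb0)
    rw [hSi, hL.u0, hS2] at h2
    have h3 : ∑ j, s j - s i ≤ 4 * c * d := by
      rw [← Finset.add_sum_erase _ _ (Finset.mem_univ i), add_sub_cancel_left]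
      have h4 : ∑ j ∈ Finset.univ.erase i, s j ≤ ∑ j ∈ Finset.univ.erase i, 4 * c :=
        Finset.sum_le_sum fun j _ => hs j
      rw [Finset.sum_const, nsmul_eq_mul] at h4
      have h5 : (((Finset.univ.erase i : Finset (Fin d)).card : ℕ) : ℝ) ≤ d := by
        have h6 := Finset.card_le_univ (Finset.univ.erase i : Finset (Fin d))
        rw [Fintype.card_fin] at h6
        exact_mod_cast h6
      nlinarith
    have h4 := hx.flat
    have h5 := hu i b hb
    unfold vT
    nlinarith [mul_nonneg hd' hc.le]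
  -- all coordinates are used
  have hused : ∀ i, ∀ b ≤ n i, ∃ S ∈ Cf n h u V, S i = b := by
    intro i b hb
    by_cases hb0 : b = 0
    · rw [hb0]
      exact h0 i
    by_contra hcon
    simp only [not_exists, not_and] at hcon
    obtain ⟨T, hTb, hT⟩ := exists_Mx (h := h) (u := u) (exists_Mo hb0 hb)
    have hk : ∀ U, Mx n h u i U → U i = b → ∀ k, k ≠ i → ∃ S ∈ Cf n h u V, S k = U k := by
      intro U hU hUb k hk
      by_contra hcon'
      simp only [not_exists, not_and] at hcon'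
      have h1 : U k ≠ 0 := by
        intro h1
        obtain ⟨S, hS, hS'⟩ := h0 k
        exact hcon' S hS (by rw [hS', h1])
      exact hw.two_gt (fun S hS => hU.alt hx hV hS) (fun k => Nat.zero_le _) (Ne.symm hk)
        (fun S hS h2 => hcon S hS (h2.trans hUb)) hcon' (by omega) (by omega)
    have hun : ∀ U, Mx n h u i U → U i = b → U = T := by
      intro U hU hUb
      exact hU.uniq hx hV hw (Or.inr fun _ => rfl) hT (hUb.trans hTb.symm)
        (fun S hS h2 => hcon S hS (h2.trans hUb)) fun k hki =>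
        ⟨hk U hU hUb k hki, hk T hT hTb k hki⟩
    have h1 : vT u s i b < vM h u T := by
      obtain ⟨U, hU, hUb, h1⟩ := hrow i b hb hb0
      exact h1.trans_le (hT.2 U hU (hUb.trans hTb.symm))
    have h2 := hL.row hb0 hb (X := vM h u T)
      (fun U hU hUb => hT.2 U hU (hUb.trans hTb.symm)) h1.le
    rw [if_neg (ne_of_lt h1)] at h2
    have h3 : (Mo n).filter (fun U => vM h u U = vM h u T ∧ U i = b) = {T} := by
      ext U
      rw [Finset.mem_filter, Finset.mem_singleton]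
      constructor
      · rintro ⟨h3, h4, h5⟩
        refine hun U ⟨h3, fun W hW hWU => ?_⟩ h5
        rw [h4]
        exact hT.2 W hW (hWU.trans (h5.trans hTb.symm))
      · rintro rfl
        exact ⟨hT.1, rfl, hTb⟩
    rw [h3, Finset.sum_singleton] at h2
    exact hL.z0 T hT.1 h2
  refine ⟨fun i => ?_, hV, hC, ⟨lam, hlam, hw⟩, hused⟩
  · have h1 : ∀ b ≤ n i, b ≠ n i → u i b < u i (n i) := by
      intro b hb hbn
      obtain ⟨S, hS, hSi⟩ := hused i (n i) le_rfl
      obtain ⟨T, hT, hTi, hj⟩ := exists_two hzC (hm i (n i) (hn i)) hS hSi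
      obtain ⟨hT1, hT2⟩ := mem_Cf.1 hT
      have h1 := hx.upd_lt (u := u) hT1 (i := i) (b := b) (by omega) (Or.inr hj)
      have h2 := hV _ (update_mem hT1 hb (Or.inr hj))
      rw [hTi, hT2] at h1
      linarith
    have h2 : vT u s i (n i) ≤ vP s := hL.vT_le le_rfl fun b hb hbn => by
      have := h1 b hb hbn
      unfold vT
      linarith
    obtain ⟨b, hb, h3⟩ := hL.vP_le i
    have h4 : vT u s i b ≤ vT u s i (n i) := by
      by_cases hbn : b = n i
      · rw [hbn]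
      · have := h1 b hb hbn
        unfold vT
        linarith
    have h5 := le_antisymm h2 (h3.trans h4)
    unfold vT vP at h5
    linarith

/-- If no `t (i, b)` has the top value then the flag is a Nash core. -/
theorem LF.clsA (hL : LF n h u s z y q) (hx : Hx n h H c) (hn : ∀ i, 1 ≤ n i)
    (hV : ∀ T ∈ Mo n, vM h u T ≤ V) (hA : ∃ T ∈ Mo n, vM h u T = V)
    (hlt : ∀ i, ∀ b ≤ n i, vT u s i b < V) : ClsA n h u s :=
  (hL.clsN hx hn hV hA hlt).toA

end Pool.Agent.MPb0eA
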