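import Pool.Agent.Lib.MP_b0e20b_ag_A.LabD

/-!
# MP_b0e20b_ag, block A: the rows of the relations at the level of values
-/

set_option autoImplicit false

open scoped BigOperators

namespace Pool.Agent.MPb0eA

variable {d : ℕ} {n : Fin d → ℕ} {h : (Fin d → ℕ) → ℝ} {u : Fin d → ℕ → ℝ} {sg : Fin d → ℝ}
  {z : (Fin d → ℕ) → ℂ} {y : Fin d → ℕ → ℂ} {q : ℂ}

private theorem Row_sum (i : Fin d) (f : Fin d → ℕ → ℂ) (g : ℕ → ℂ)
    (s : Fin d → Finset ℕ) (h0 : ∀ j, j ≠ i → ∀ b ∈ s j, f j b = 0)
    (hi : ∀ b ∈ s i, f i b = g b) : ∑ j, ∑ b ∈ s j, f j b = ∑ b ∈ s i, g b := by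
  rw [Finset.sum_eq_single i]
  · exact Finset.sum_congr rfl hi
  · intro j _ hj
    exact Finset.sum_eq_zero (h0 j hj)
  · intro hi
    exact absurd (Finset.mem_univ i) hi

/-- The row of the coordinate `b` of the factor `i`. -/
theorem LF.row1 (hF : LF n h u sg z y q) {i : Fin d} {b : ℕ} {v : ℝ} (hb : b ≠ 0) (hn : b ≤ n i)
    (hT : ∀ T ∈ Mo n, T i = b → vM h u T ≤ v) (ht : vT u sg i b ≤ v) :
    ∑ T ∈ (Mo n).filter (fun T => T i = b ∧ vM h u T = v), z T =
      if vT u sg i b = v then y i b else 0 := by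
  classical
  have h1 := hF.rel (fun j c => if j = i ∧ c = b then 1 else 0) 0 v
    (fun j => if_neg fun hj => hb hj.2.symm) (fun T hT' hv => by
      rw [Finset.sum_eq_single i]
      · refine if_neg fun hT1 => ?_
        exact absurd (hT T hT' hT1.2) (not_le.2 hv)
      · intro j _ hj
        exact if_neg fun h2 => hj h2.1
      · intro hi
        exact absurd (Finset.mem_univ i) hi) (fun j c hc hv => by
      rw [Pi.zero_apply]
      refine (if_neg fun h2 => ?_).symm
      obtain ⟨rfl, rfl⟩ := h2
      exact absurd ht (not_le.2 hv)) (fun _ => by simp)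
  have h2 : ∀ T : Fin d → ℕ, ∑ j, (if j = i ∧ T j = b then (1 : ℚ) else 0) =
      if T i = b then 1 else 0 := by
    intro T
    rw [Finset.sum_eq_single i]
    · simp
    · intro j _ hj
      exact if_neg fun h2 => hj h2.1
    · intro hi
      exact absurd (Finset.mem_univ i) hi
  simp only [h2, Pi.zero_apply, Finset.sum_const_zero, Rat.cast_zero, mul_zero, ite_self,
    sub_zero, zero_sub] at h1
  rw [Row_sum i (fun j c => y j c * ((-(if j = i ∧ c = b then (1 : ℚ) else 0) : ℚ) : ℂ))
    (fun c => if c = b then -y i b else 0)] at h1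
  · simp only [Finset.sum_ite_eq', Finset.mem_filter, Finset.mem_range] at h1
    have h3 : ∑ T ∈ (Mo n).filter (fun T => vM h u T = v),
        z T * ((if T i = b then (1 : ℚ) else 0 : ℚ) : ℂ) =
        ∑ T ∈ (Mo n).filter (fun T => T i = b ∧ vM h u T = v), z T := by
      rw [Finset.sum_filter, Finset.sum_filter]
      refine Finset.sum_congr rfl fun T _ => ?_
      by_cases h4 : vM h u T = v <;> by_cases h5 : T i = b <;> simp [h4, h5]
    rw [h3] at h1
    by_cases h4 : vT u sg i b = v
    · rw [if_pos ⟨by omega, h4⟩] at h1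
      rw [if_pos h4]
      linear_combination h1
    · rw [if_neg fun h5 => h4 h5.2] at h1
      rw [if_neg h4]
      linear_combination h1
  · intro j hj c _
    rw [if_neg fun h4 => hj h4.1]
    simp
  · intro c _
    by_cases h4 : c = b
    · rw [if_pos ⟨rfl, h4⟩, if_pos h4, h4]
      push_cast
      ring
    · rw [if_neg fun h5 => h4 h5.2, if_neg h4]
      simp

/-- The row of `s i`. -/
theorem LF.row2 (hF : LF n h u sg z y q) {i : Fin d} {v : ℝ}
    (ht : ∀ b ≤ n i, vT u sg i b ≤ v) (hp : vP sg ≤ v) :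
    ∑ b ∈ (Finset.range (n i + 1)).filter (fun b => vT u sg i b = v), y i b =
      if vP sg = v then q else 0 := by
  classical
  have h1 := hF.rel 0 (fun j => if j = i then 1 else 0) v (fun j => rfl)
    (fun T _ _ => by simp) (fun j c hc hv => by
      rw [Pi.zero_apply, Pi.zero_apply]
      refine if_neg fun h2 => ?_
      subst h2
      exact absurd (ht c hc) (not_le.2 hv)) (fun hv => absurd hp (not_le.2 hv))
  simp only [Pi.zero_apply, Finset.sum_const_zero, Rat.cast_zero, mul_zero, zero_add,
    sub_zero, Finset.sum_ite_eq', Finset.mem_univ, if_true, Rat.cast_one, mul_one] at h1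
  rw [Row_sum i (fun j c => y j c * (((if j = i then (1 : ℚ) else 0) : ℚ) : ℂ)) (fun c => y i c)]
    at h1
  · exact sub_eq_zero.1 h1
  · intro j hj c _
    rw [if_neg hj, Rat.cast_zero, mul_zero]
  · intro c _
    rw [if_pos rfl, Rat.cast_one, mul_one]

/-- The difference of the rows of the erased factors `i` and `j`. -/
theorem LF.row3 (hF : LF n h u sg z y q) {i j : Fin d} {v : ℝ} (hij : i ≠ j)
    (hi : ∀ T ∈ Mo n, T i = 0 → T j ≠ 0 → vM h u T ≤ v)
    (hj : ∀ T ∈ Mo n, T j = 0 → T i ≠ 0 → vM h u T ≤ v)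
    (hti : vT u sg i 0 ≤ v) (htj : vT u sg j 0 ≤ v) :
    ∑ T ∈ (Mo n).filter (fun T => (T i = 0 ∧ T j ≠ 0) ∧ vM h u T = v), z T +
      (if vT u sg j 0 = v then y j 0 else 0) =
    ∑ T ∈ (Mo n).filter (fun T => (T j = 0 ∧ T i ≠ 0) ∧ vM h u T = v), z T +
      (if vT u sg i 0 = v then y i 0 else 0) := by
  classical
  set φ : Fin d → ℕ → ℚ := fun k c =>
    if c = 0 then 0 else if k = i then 1 else if k = j then -1 else 0 with hφ
  set ψ : Fin d → ℚ := fun k => if k = i then 1 else if k = j then -1 else 0 with hψ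
  have hφT : ∀ T : Fin d → ℕ, ∑ k, φ k (T k) =
      (if T i = 0 then 0 else 1) - (if T j = 0 then 0 else 1) := by
    intro T
    have h1 : ∀ k, φ k (T k) = (if k = i then (if T i = 0 then 0 else 1) else 0) -
        (if k = j then (if T j = 0 then 0 else 1) else 0) := by
      intro k
      simp only [hφ]
      by_cases hk : k = i
      · subst hk
        rw [if_pos rfl, if_pos rfl, if_neg hij, sub_zero]
      · by_cases hk' : k = j
        · subst hk'
          rw [if_neg hk, if_pos rfl, if_neg hk, if_pos rfl]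
          split_ifs <;> norm_num
        · rw [if_neg hk, if_neg hk', if_neg hk, if_neg hk', sub_zero]
          split_ifs <;> rfl
    rw [Finset.sum_congr rfl fun k _ => h1 k, Finset.sum_sub_distrib, Finset.sum_ite_eq',
      Finset.sum_ite_eq', if_pos (Finset.mem_univ _), if_pos (Finset.mem_univ _)]
  have hψs : ∑ k, ψ k = 0 := by
    have h1 : ∀ k, ψ k = (if k = i then 1 else 0) - (if k = j then 1 else 0) := by
      intro k
      simp only [hψ]
      by_cases hk : k = i
      · subst hk
        rw [if_pos rfl, if_pos rfl, if_neg hij, sub_zero]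
      · by_cases hk' : k = j
        · rw [if_neg hk, if_pos hk', if_neg hk, if_pos hk', zero_sub]
        · rw [if_neg hk, if_neg hk', if_neg hk, if_neg hk', sub_zero]
    rw [Finset.sum_congr rfl fun k _ => h1 k, Finset.sum_sub_distrib, Finset.sum_ite_eq',
      Finset.sum_ite_eq', if_pos (Finset.mem_univ _), if_pos (Finset.mem_univ _), sub_self]
  have h1 := hF.rel φ ψ v (fun k => if_pos rfl) (fun T hT hv => by
      rw [hφT]
      by_cases h2 : T i = 0 <;> by_cases h3 : T j = 0
      · rw [if_pos h2, if_pos h3, sub_zero]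
      · exact absurd (hi T hT h2 h3) (not_le.2 hv)
      · exact absurd (hj T hT h3 h2) (not_le.2 hv)
      · rw [if_neg h2, if_neg h3, sub_self]) (fun k c hc hv => by
      simp only [hφ, hψ]
      by_cases h2 : c = 0
      · rw [if_pos h2]
        subst h2
        by_cases hk : k = i
        · subst hk
          exact absurd hti (not_le.2 hv)
        · by_cases hk' : k = j
          · subst hk'
            exact absurd htj (not_le.2 hv)
          · rw [if_neg hk, if_neg hk']
      · rw [if_neg h2]) (fun _ => hψs)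
  rw [hψs, Rat.cast_zero, mul_zero, ite_self, sub_zero] at h1
  have h2 : ∑ T ∈ (Mo n).filter (fun T => vM h u T = v), z T * ((∑ k, φ k (T k) : ℚ) : ℂ) =
      ∑ T ∈ (Mo n).filter (fun T => (T j = 0 ∧ T i ≠ 0) ∧ vM h u T = v), z T -
      ∑ T ∈ (Mo n).filter (fun T => (T i = 0 ∧ T j ≠ 0) ∧ vM h u T = v), z T := by
    rw [Finset.sum_filter, Finset.sum_filter, Finset.sum_filter, ← Finset.sum_sub_distrib]
    refine Finset.sum_congr rfl fun T _ => ?_
    rw [hφT]
    by_cases h4 : vM h u T = v <;> by_cases h5 : T i = 0 <;> by_cases h6 : T j = 0 <;>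
      simp [h4, h5, h6]
  have h3 : ∑ k, ∑ b ∈ (Finset.range (n k + 1)).filter (fun b => vT u sg k b = v),
      y k b * ((ψ k - φ k b : ℚ) : ℂ) =
      (if vT u sg i 0 = v then y i 0 else 0) - (if vT u sg j 0 = v then y j 0 else 0) := by
    have h4 : ∀ k, ∑ b ∈ (Finset.range (n k + 1)).filter (fun b => vT u sg k b = v),
        y k b * ((ψ k - φ k b : ℚ) : ℂ) =
        (if k = i then (if vT u sg i 0 = v then y i 0 else 0) else 0) -
        (if k = j then (if vT u sg j 0 = v then y j 0 else 0) else 0) := by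
      intro k
      have h5 : ∀ b ∈ (Finset.range (n k + 1)).filter (fun b => vT u sg k b = v),
          y k b * ((ψ k - φ k b : ℚ) : ℂ) = if b = 0 then y k 0 * ((ψ k : ℚ) : ℂ) else 0 := by
        intro b _
        simp only [hφ, hψ]
        by_cases h6 : b = 0
        · subst h6
          rw [if_pos rfl, if_pos rfl, sub_zero]
        · rw [if_neg h6, if_neg h6, sub_self, Rat.cast_zero, mul_zero]
      rw [Finset.sum_congr rfl h5]
      simp only [Finset.sum_ite_eq', Finset.mem_filter, Finset.mem_range, hψ]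
      by_cases hk : k = i
      · subst hk
        by_cases h7 : vT u sg k 0 = v
        · rw [if_pos ⟨by omega, h7⟩, if_pos rfl, if_pos rfl, if_pos h7, if_neg hij]
          simp
        · rw [if_neg fun h8 => h7 h8.2, if_pos rfl, if_neg h7, if_neg hij, sub_zero]
      · by_cases hk' : k = j
        · subst hk'
          by_cases h7 : vT u sg k 0 = v
          · rw [if_pos ⟨by omega, h7⟩, if_neg hk, if_pos rfl, if_neg hk, if_pos rfl, if_pos h7]
            push_cast
            ring
          · rw [if_neg fun h8 => h7 h8.2, if_neg hk, if_pos rfl, if_neg h7, sub_zero]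
        · rw [if_neg hk, if_neg hk', if_neg hk, if_neg hk']
          simp
    rw [Finset.sum_congr rfl fun k _ => h4 k, Finset.sum_sub_distrib, Finset.sum_ite_eq',
      Finset.sum_ite_eq', if_pos (Finset.mem_univ _), if_pos (Finset.mem_univ _)]
  rw [h2, h3] at h1
  linear_combination -h1

end Pool.Agent.MPb0eA
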