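import Pool.Agent.Lib.MP_b0e20b_ag_A.ClsM
import Pool.Agent.Lib.MP_b0e20b_ag_A.Row

/-!
# MP_b0e20b_ag, block A: flags where some element `t (i, b)` has the top value
-/

set_option autoImplicit false

open scoped BigOperators

namespace Pool.Agent.MPb0eA

variable {d : ℕ} {n : Fin d → ℕ} {h : (Fin d → ℕ) → ℝ} {H c V : ℝ} {u : Fin d → ℕ → ℝ}
  {s : Fin d → ℝ} {z : (Fin d → ℕ) → ℂ} {y : Fin d → ℕ → ℂ} {q : ℂ} {r : Fin d → ℕ}

/-- Some element `t (j, b)` has at least the value of `p`. -/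
private theorem ClB_s (hL : LF n h u s z y q) (j : Fin d) : ∃ b ≤ n j, s j ≤ 2 * u j b := by
  by_contra hcon
  have hcon' : ∀ b ≤ n j, 2 * u j b < s j := fun b hb => by
    by_contra h1
    exact hcon ⟨b, hb, not_lt.1 h1⟩
  have h1 := hL.row2 (i := j) (v := vP s) (fun b hb => by
    have := hcon' b hb
    unfold vT vP
    linarith) le_rfl
  rw [if_pos rfl, Finset.filter_false_of_mem, Finset.sum_empty] at h1
  · exact hL.q0 h1.symm
  · intro b hb h2
    have h3 := hcon' b (Nat.lt_succ_iff.1 (Finset.mem_range.1 hb))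
    unfold vT vP at h2
    linarith

/-- The coordinate of an element of top value is used. -/
private theorem ClB_ex (hL : LF n h u s z y q) (hV : ∀ T ∈ Mo n, vM h u T ≤ V) {i : Fin d} {b : ℕ}
    (hb : b ≠ 0) (hbn : b ≤ n i) (ht : vT u s i b = V) : ∃ T ∈ Cf n h u V, T i = b := by
  have h1 := hL.row hb hbn (X := V) (fun T hT _ => hV T hT) ht.le
  rw [if_pos ht] at h1
  obtain ⟨T, hT, _⟩ := Finset.exists_ne_zero_of_sum_ne_zero (h1 ▸ hL.y0 i b hbn)
  obtain ⟨h2, h3, h4⟩ := Finset.mem_filter.1 hT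
  exact ⟨T, mem_Cf.2 ⟨h2, h3⟩, h4⟩

private theorem ClB_big (hx : Hx n h H c) (A : Finset (Fin d)) (f : Fin d → ℝ)
    (hf : H - c ≤ ∑ j ∈ A, f j) : ∃ j ∈ A, 8 * c < f j := by
  by_contra hcon
  have hcon' : ∀ j ∈ A, f j ≤ 8 * c := fun j hj => by
    by_contra h1
    exact hcon ⟨j, hj, not_le.1 h1⟩
  have h1 := Finset.sum_le_card_nsmul A f (8 * c) hcon'
  rw [nsmul_eq_mul] at h1
  have h2 : (A.card : ℝ) ≤ d := by
    have h3 := Finset.card_le_univ A
    rw [Fintype.card_fin] at h3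
    exact_mod_cast h3
  have h3 := hx.pos
  have h4 := hx.flat
  have h5 : (A.card : ℝ) * (8 * c) ≤ d * (8 * c) := mul_le_mul_of_nonneg_right h2 (by linarith)
  have h6 : 0 ≤ (d : ℝ) * c := mul_nonneg (Nat.cast_nonneg d) h3.le
  nlinarith

/-- At most one element `t (i, b)` has the top value. -/
private theorem ClB_one (hx : Hx n h H c) (hL : LF n h u s z y q)
    (hV : ∀ T ∈ Mo n, vM h u T ≤ V) {i : Fin d} {b b' : ℕ} (hb : b ≤ n i) (hlt : b' < b)
    (h1 : vT u s i b = V) (h2 : vT u s i b' = V) : False := by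
  have hu : u i b' = u i b := by
    unfold vT at h1 h2
    linarith
  obtain ⟨T, hT, hTi⟩ := ClB_ex hL hV (by omega) hb h1
  obtain ⟨hTM, hTV⟩ := mem_Cf.1 hT
  by_cases h0 : b' ≠ 0 ∨ ∃ j, j ≠ i ∧ T j ≠ 0
  · have h3 := hx.upd_lt (u := u) hTM (i := i) (b := b') (by omega) h0
    have h4 := hV _ (update_mem hTM (hlt.le.trans hb) h0)
    rw [hTi, hu, hTV] at h3
    linarith
  · rw [not_or, not_not] at h0
    obtain ⟨hb', h0⟩ := h0
    subst hb'
    have h0' : ∀ j, j ≠ i → T j = 0 := fun j hj => by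
      by_contra h3
      exact h0 ⟨j, hj, h3⟩
    have hub : u i b = 0 := by
      rw [← hu]
      exact hL.u0 i
    have hval : vM h u T = h T := by
      unfold vM
      rw [Finset.sum_eq_zero, add_zero]
      intro j _
      by_cases hj : j = i
      · subst hj
        rw [hTi, hub]
      · rw [h0' j hj]
        exact hL.u0 j
    have hVH : H - c ≤ V := by
      have h3 := abs_le.1 (hx.near T hTM)
      linarith
    have hs : ∑ j ∈ Finset.univ.erase i, s j = V := by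
      have h3 := Finset.add_sum_erase Finset.univ s (Finset.mem_univ i)
      unfold vT at h2
      rw [hL.u0] at h2
      linarith
    obtain ⟨j, hj, hsj⟩ := ClB_big hx (Finset.univ.erase i) s (hs ▸ hVH)
    have hji := Finset.ne_of_mem_erase hj
    obtain ⟨b'', hb'', h3⟩ := ClB_s hL j
    have hc := hx.pos
    have hb0 : b'' ≠ 0 := by
      rintro rfl
      rw [hL.u0] at h3
      linarith
    have h4 := hx.upd_le (u := u) hTM (i := j) hb'' (Or.inl hb0)
    have h5 := hV _ (update_mem hTM hb'' (Or.inl hb0))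
    rw [h0' j hji, hL.u0, hTV] at h4
    linarith

/-- The point `r` of a flag of the second type. -/
private structure ClBr (n : Fin d → ℕ) (h : (Fin d → ℕ) → ℝ) (u : Fin d → ℕ → ℝ) (s : Fin d → ℝ)
    (y : Fin d → ℕ → ℂ) (q : ℂ) (V : ℝ) (r : Fin d → ℕ) : Prop where
  u0 : ∀ i, u i 0 = 0
  hV : ∀ T ∈ Mo n, vM h u T ≤ V
  VP : vP s = V
  rn : ∀ i, r i ≤ n i
  hs : ∀ i, s i = 2 * u i (r i)
  yr : ∀ i, y i (r i) = q
  lt : ∀ i, ∀ b ≤ n i, b ≠ r i → u i b < u i (r i)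

private theorem ClB_r (hx : Hx n h H c) (hL : LF n h u s z y q)
    (hV : ∀ T ∈ Mo n, vM h u T ≤ V) (hVP : vP s ≤ V) (hVT : ∀ i, ∀ b ≤ n i, vT u s i b ≤ V)
    (hex : ∃ i, ∃ b ≤ n i, vT u s i b = V) : ∃ r, ClBr n h u s y q V r := by
  classical
  have key : ∀ i b, b ≤ n i → vT u s i b = V →
      ∑ b ∈ (Finset.range (n i + 1)).filter (fun b => vT u s i b = V), y i b = y i b := by
    intro i b hb hbV
    refine Finset.sum_eq_single b (fun b' hb' hne => ?_) fun h1 => ?_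
    · exfalso
      obtain ⟨h2, h3⟩ := Finset.mem_filter.1 hb'
      rcases lt_or_gt_of_ne hne with h4 | h4
      · exact ClB_one hx hL hV hb h4 hbV h3
      · exact ClB_one hx hL hV (Nat.lt_succ_iff.1 (Finset.mem_range.1 h2)) h4 h3 hbV
    · exact absurd (Finset.mem_filter.2 ⟨Finset.mem_range.2 (by omega), hbV⟩) h1
  have hVP' : vP s = V := by
    obtain ⟨i, b, hb, hbV⟩ := hex
    have h1 := hL.rowS i (hVT i) hVP
    rw [key i b hb hbV] at h1
    by_contra h2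
    rw [if_neg h2] at h1
    exact hL.y0 i b hb h1
  have h1 : ∀ i, ∃ b ≤ n i, vT u s i b = V := by
    intro i
    have h2 := hL.rowS i (hVT i) hVP
    rw [if_pos hVP'] at h2
    obtain ⟨b, hb, _⟩ := Finset.exists_ne_zero_of_sum_ne_zero (h2 ▸ hL.q0)
    obtain ⟨h3, h4⟩ := Finset.mem_filter.1 hb
    exact ⟨b, Nat.lt_succ_iff.1 (Finset.mem_range.1 h3), h4⟩
  choose r hrn hrV using h1
  have hs : ∀ i, s i = 2 * u i (r i) := by
    intro i
    have h2 := hrV i
    unfold vT at h2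
    unfold vP at hVP'
    linarith
  refine ⟨r, hL.u0, hV, hVP', hrn, hs, fun i => ?_, fun i b hb hne => ?_⟩
  · have h2 := hL.rowS i (hVT i) hVP
    rw [if_pos hVP', key i (r i) (hrn i) (hrV i)] at h2
    exact h2
  · have h2 := hVT i b hb
    have h3 : vT u s i b ≠ V := by
      intro h3
      rcases lt_or_gt_of_ne hne with h4 | h4
      · exact ClB_one hx hL hV (hrn i) h4 (hrV i) h3
      · exact ClB_one hx hL hV hb h4 h3 (hrV i)
    have h4 := lt_of_le_of_ne h2 h3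
    have h5 := hs i
    unfold vT at h4
    unfold vP at hVP'
    linarith

private theorem ClBr.vT_eq (hr : ClBr n h u s y q V r) (i : Fin d) (b : ℕ) :
    vT u s i b = V + 2 * (u i b - u i (r i)) := by
  have h1 := hr.VP
  have h2 := hr.hs i
  unfold vP at h1
  unfold vT
  linarith

private theorem ClBr.nonneg (hr : ClBr n h u s y q V r) (i : Fin d) : 0 ≤ u i (r i) := by
  by_cases h1 : 0 = r i
  · rw [← h1, hr.u0]
  · rw [← hr.u0 i]
    exact (hr.lt i 0 (Nat.zero_le _) h1).le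

private theorem ClBr.le (hr : ClBr n h u s y q V r) {i : Fin d} {b : ℕ} (hb : b ≤ n i) :
    u i b ≤ u i (r i) := by
  by_cases h1 : b = r i
  · rw [h1]
  · exact (hr.lt i b hb h1).le

private theorem ClBr.V_eq (hr : ClBr n h u s y q V r) : V = 2 * ∑ i, u i (r i) := by
  rw [← hr.VP, Finset.mul_sum]
  exact Finset.sum_congr rfl fun i _ => hr.hs i

private theorem ClBr.r0 (hr : ClBr n h u s y q V r) (hc : 0 < c) {i : Fin d}
    (hi : 2 * c < u i (r i)) : r i ≠ 0 := by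
  intro h1
  rw [h1, hr.u0] at hi
  linarith

/-- The row of a class whose monomial of maximal value is unique. -/
private theorem ClB_row1 (hL : LF n h u s z y q) {i : Fin d} {b : ℕ} (hb : b ≠ 0) (hbn : b ≤ n i)
    {T : Fin d → ℕ} (hTi : T i = b) (hT : Mx n h u i T)
    (hu : ∀ U, Mx n h u i U → U i = b → U = T) : vM h u T = vT u s i b := by
  classical
  rcases lt_trichotomy (vM h u T) (vT u s i b) with h1 | h1 | h1
  · exfalso
    have h2 := hL.row hb hbn (X := vT u s i b)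
      (fun U hU hUi => (hT.2 U hU (hUi.trans hTi.symm)).trans h1.le) le_rfl
    rw [if_pos rfl, Finset.filter_false_of_mem, Finset.sum_empty] at h2
    · exact hL.y0 i b hbn h2.symm
    · rintro U hU ⟨h3, h4⟩
      exact absurd (hT.2 U hU (h4.trans hTi.symm)) (not_le.2 (h3 ▸ h1))
  · exact h1
  · exfalso
    have h2 := hL.row hb hbn (X := vM h u T) (fun U hU hUi => hT.2 U hU (hUi.trans hTi.symm)) h1.le
    have h3 : (Mo n).filter (fun U => vM h u U = vM h u T ∧ U i = b) = {T} := by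
      ext U
      rw [Finset.mem_filter, Finset.mem_singleton]
      constructor
      · rintro ⟨h4, h5, h6⟩
        exact hu U ⟨h4, fun W hW hWU => by
          rw [h5]
          exact hT.2 W hW (hWU.trans (h6.trans hTi.symm))⟩ h6
      · rintro rfl
        exact ⟨hT.1, rfl, hTi⟩
    rw [h3, Finset.sum_singleton, if_neg h1.ne] at h2
    exact hL.z0 T hT.1 h2

/-- The difference of two rows of erased factors. -/
private theorem ClB_row3 (hL : LF n h u s z y q) {i j : Fin d} (hij : i ≠ j) {T : Fin d → ℕ}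
    (hTi : T i = 0) (hTj : T j ≠ 0) (hT : Mx n h u i T)
    (hu : ∀ U, Mx n h u i U → U i = 0 → U = T)
    (hlt : ∀ U ∈ Mo n, U j = 0 → vM h u U < vM h u T) (hti : vT u s i 0 < vM h u T)
    (htj : vT u s j 0 < vM h u T) : False := by
  classical
  have h1 := hL.row3 hij (v := vM h u T) (fun U hU hUi _ => hT.2 U hU (hUi.trans hTi.symm))
    (fun U hU hUj _ => (hlt U hU hUj).le) hti.le htj.le
  have h3 : (Mo n).filter (fun U => (U i = 0 ∧ U j ≠ 0) ∧ vM h u U = vM h u T) = {T} := by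
    ext U
    rw [Finset.mem_filter, Finset.mem_singleton]
    constructor
    · rintro ⟨h4, ⟨h6, _⟩, h5⟩
      exact hu U ⟨h4, fun W hW hWU => by
        rw [h5]
        exact hT.2 W hW (hWU.trans (h6.trans hTi.symm))⟩ h6
    · rintro rfl
      exact ⟨hT.1, ⟨hTi, hTj⟩, rfl⟩
  have h4 : (Mo n).filter (fun U => (U j = 0 ∧ U i ≠ 0) ∧ vM h u U = vM h u T) = ∅ := by
    rw [Finset.filter_eq_empty_iff]
    rintro U hU ⟨⟨h5, _⟩, h6⟩
    exact absurd h6 (hlt U hU h5).ne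
  rw [h3, h4, Finset.sum_singleton, Finset.sum_empty, if_neg hti.ne, if_neg htj.ne, add_zero,
    add_zero] at h1
  exact hL.z0 T hT.1 h1

private theorem ClB_single (hu : ∀ i, u i 0 = 0) (i : Fin d) (b : ℕ) :
    vM h u (Pi.single i b) = h (Pi.single i b) + u i b := by
  unfold vM
  rw [Finset.sum_eq_single i]
  · rw [Pi.single_eq_same]
  · intro j _ hj
    rw [Pi.single_eq_of_ne hj, hu]
  · intro h1
    exact absurd (Finset.mem_univ i) h1

private theorem ClB_single_mem {i : Fin d} {b : ℕ} (hb : b ≠ 0) (hbn : b ≤ n i) :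
    (Pi.single i b : Fin d → ℕ) ∈ Mo n := by
  refine mem_Mo.2 ⟨fun h1 => ?_, fun j => ?_⟩
  · have h2 := congrFun h1 i
    rw [Pi.single_eq_same] at h2
    exact hb h2
  · by_cases hj : j = i
    · subst hj
      rw [Pi.single_eq_same]
      exact hbn
    · rw [Pi.single_eq_of_ne hj]
      exact Nat.zero_le _

private theorem ClBr.ne (hx : Hx n h H c) (hL : LF n h u s z y q) (hn : ∀ i, 1 ≤ n i)
    (hd : 0 < d) (hr : ClBr n h u s y q V r) : r ≠ 0 := by
  intro h0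
  have hc := hx.pos
  have hH : 20 * c < H := by
    have h1 := hx.flat
    have h2 : 0 ≤ (d : ℝ) * c := mul_nonneg (Nat.cast_nonneg d) hc.le
    nlinarith
  have hV0 : V = 0 := by
    rw [hr.V_eq, Finset.sum_eq_zero, mul_zero]
    intro i _
    rw [h0]
    exact hr.u0 i
  have hu : ∀ i, ∀ b ≤ n i, b ≠ 0 → u i b ≤ -(H - c) := by
    intro i b hb hb0
    have h1 := ClB_single_mem (n := n) hb0 hb
    have h2 := hr.hV _ h1
    rw [ClB_single hr.u0] at h2
    have h3 := abs_le.1 (hx.near _ h1)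
    linarith
  have hz : ∀ (i : Fin d) (T : Fin d → ℕ), Mx n h u i T → T i ≠ 0 → ∀ j, j ≠ i → T j = 0 := by
    intro i T hT hTi j hj
    by_contra h1
    have h2 := hx.upd_le (u := u) hT.1 (i := j) (b := 0) (Nat.zero_le _) (Or.inr ⟨i, hj.symm, hTi⟩)
    have h3 := hT.2 _ (update_mem hT.1 (Nat.zero_le _) (Or.inr ⟨i, hj.symm, hTi⟩))
      (Function.update_of_ne hj.symm _ _)
    have h4 := hu j (T j) ((mem_Mo.1 hT.1).2 j) h1
    rw [hr.u0] at h2
    linarith
  obtain ⟨T, hTi, hT⟩ := exists_Mx (n := n) (h := h) (u := u)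
    (exists_Mo (i := (⟨0, hd⟩ : Fin d)) one_ne_zero (hn _))
  have h1 := ClB_row1 hL one_ne_zero (hn _) hTi hT (fun U hU hUi => by
    funext j
    by_cases hj : j = ⟨0, hd⟩
    · rw [hj, hUi, hTi]
    · rw [hz _ U hU (by rw [hUi]; exact one_ne_zero) j hj,
        hz _ T hT (by rw [hTi]; exact one_ne_zero) j hj])
  have h2 : vM h u T = h T + u ⟨0, hd⟩ 1 := by
    unfold vM
    rw [Finset.sum_eq_single (⟨0, hd⟩ : Fin d), hTi]
    · intro j _ hj
      rw [hz _ T hT (by rw [hTi]; exact one_ne_zero) j hj, hr.u0]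
    · intro h3
      exact absurd (Finset.mem_univ _) h3
  have h3 := hr.vT_eq ⟨0, hd⟩ 1
  rw [h0, Pi.zero_apply, hr.u0, hV0] at h3
  have h4 := hu ⟨0, hd⟩ 1 (hn _) one_ne_zero
  have h5 := abs_le.1 (hx.near T hT.1)
  rw [h2, h3] at h1
  linarith

private theorem ClBr.sum_ge (hx : Hx n h H c) (hr : ClBr n h u s y q V r) (h0 : r ≠ 0) :
    H - c ≤ ∑ i, u i (r i) := by
  have h1 : r ∈ Mo n := mem_Mo.2 ⟨h0, hr.rn⟩
  have h2 := hr.hV r h1
  have h3 := hr.V_eq
  have h4 := abs_le.1 (hx.near r h1)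
  unfold vM at h2
  linarith

private theorem ClBr.near (hx : Hx n h H c) (hr : ClBr n h u s y q V r) (h0 : r ≠ 0)
    {T : Fin d → ℕ} (hT : T ∈ Cf n h u V) (i : Fin d) : u i (r i) - u i (T i) ≤ 2 * c := by
  obtain ⟨h1, h2⟩ := mem_Cf.1 hT
  have h3 := hr.sum_ge hx h0
  have h4 := abs_le.1 (hx.near T h1)
  have h5 := hr.V_eq
  have h6 : ∑ i, (u i (r i) - u i (T i)) ≤ 2 * c := by
    rw [Finset.sum_sub_distrib]
    unfold vM at h2
    linarith
  refine le_trans ?_ h6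
  exact Finset.single_le_sum (f := fun i => u i (r i) - u i (T i))
    (fun j _ => sub_nonneg.2 (hr.le ((mem_Mo.1 h1).2 j))) (Finset.mem_univ i)

private theorem ClBr.C_ne (hx : Hx n h H c) (hr : ClBr n h u s y q V r) (h0 : r ≠ 0)
    {T : Fin d → ℕ} (hT : T ∈ Cf n h u V) {i : Fin d} (hi : 2 * c < u i (r i)) : T i ≠ 0 := by
  intro h1
  have h2 := hr.near hx h0 hT i
  rw [h1, hr.u0] at h2
  linarith

/-- The marginals of the leading coefficients. -/
private theorem ClBr.marg (hx : Hx n h H c) (hL : LF n h u s z y q)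
    (hr : ClBr n h u s y q V r) (h0 : r ≠ 0) {j : Fin d} (hj : 2 * c < u j (r j)) :
    ∑ T ∈ Cf n h u V, z T = q ∧
      ∀ i b, ∑ T ∈ Cf n h u V with T i = b, z T = if b = r i then q else 0 := by
  classical
  have h1 : ∀ i b, b ≠ 0 → ∑ T ∈ Cf n h u V with T i = b, z T = if b = r i then q else 0 := by
    intro i b hb
    rw [Cf, Finset.filter_filter]
    by_cases hbn : b ≤ n i
    · rw [hL.row hb hbn (fun T hT _ => hr.hV T hT)
        (by rw [hr.vT_eq]; linarith [hr.le hbn]), hr.vT_eq]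
      by_cases h2 : b = r i
      · rw [if_pos h2, h2, sub_self, mul_zero, add_zero, if_pos rfl, hr.yr]
      · rw [if_neg h2, if_neg]
        have h3 := hr.lt i b hbn h2
        linarith
    · rw [if_neg (by have := hr.rn i; omega)]
      refine Finset.sum_eq_zero fun T hT => ?_
      obtain ⟨h2, _, h3⟩ := Finset.mem_filter.1 hT
      exact absurd (h3 ▸ (mem_Mo.1 h2).2 i) hbn
  have h2 : ∀ i, ∑ T ∈ Cf n h u V, z T =
      ∑ T ∈ Cf n h u V with T i = 0, z T + if r i = 0 then 0 else q := by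
    intro i
    rw [← Finset.sum_fiberwise_of_maps_to (s := Cf n h u V) (t := Finset.range (n i + 1))
      (g := fun T => T i) (fun T hT => Finset.mem_range.2
        (Nat.lt_succ_iff.2 ((mem_Mo.1 (mem_Cf.1 hT).1).2 i))),
      ← Finset.add_sum_erase _ _ (Finset.mem_range.2 (Nat.succ_pos (n i)))]
    congr 1
    rw [Finset.sum_congr rfl fun b hb => h1 i b (Finset.ne_of_mem_erase hb), Finset.sum_ite_eq']
    by_cases h3 : r i = 0
    · rw [if_pos h3, if_neg (fun h4 => Finset.ne_of_mem_erase h4 h3)]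
    · rw [if_neg h3, if_pos (Finset.mem_erase.2 ⟨h3, Finset.mem_range.2 (by
        have := hr.rn i; omega)⟩)]
  have h3 : ∑ T ∈ Cf n h u V, z T = q := by
    rw [h2 j, Finset.sum_eq_zero, zero_add, if_neg (hr.r0 hx.pos hj)]
    intro T hT
    obtain ⟨h4, h5⟩ := Finset.mem_filter.1 hT
    exact absurd h5 (hr.C_ne hx h0 h4 hj)
  refine ⟨h3, fun i b => ?_⟩
  by_cases hb : b = 0
  · subst hb
    have h4 := h2 i
    rw [h3] at h4
    by_cases h5 : r i = 0
    · rw [if_pos h5, add_zero] at h4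
      rw [if_pos h5.symm]
      exact h4.symm
    · rw [if_neg h5] at h4
      rw [if_neg (Ne.symm h5)]
      linear_combination -h4
  · exact h1 i b hb

private theorem Wp.usedB {C : Finset (Fin d → ℕ)} {lam : (Fin d → ℕ) → ℝ} {p : Fin d → ℕ}
    (hw : Wp C lam p) (i : Fin d) : ∃ S ∈ C, S i = p i := by
  have h1 := hw.marg i (p i)
  rw [if_pos rfl] at h1
  obtain ⟨S, hS, _⟩ := Finset.exists_ne_zero_of_sum_ne_zero (h1 ▸ one_ne_zero)
  exact ⟨S, (Finset.mem_filter.1 hS).1, (Finset.mem_filter.1 hS).2⟩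

/-- The point `r` is the upper bound of the monomials of top value. -/
private theorem ClBr.C_le (hx : Hx n h H c) (hr : ClBr n h u s y q V r) (h0 : r ≠ 0) {j : Fin d}
    (hj : 2 * c < u j (r j)) {T : Fin d → ℕ} (hT : T ∈ Cf n h u V) (i : Fin d) : T i ≤ r i := by
  by_contra h1
  rw [not_le] at h1
  obtain ⟨h2, h3⟩ := mem_Cf.1 hT
  have h4 : r i ≠ 0 ∨ ∃ k, k ≠ i ∧ T k ≠ 0 := by
    by_cases h5 : j = i
    · exact Or.inl (h5 ▸ hr.r0 hx.pos hj)
    · exact Or.inr ⟨j, h5, hr.C_ne hx h0 hT hj⟩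
  have h5 := hx.upd_lt (u := u) h2 h1 h4
  have h6 := hr.hV _ (update_mem h2 (hr.rn i) h4)
  have h7 := hr.lt i (T i) ((mem_Mo.1 h2).2 i) h1.ne'
  linarith

/-- The monomials of maximal value in a class. -/
private theorem ClBr.mx (hx : Hx n h H c) (hr : ClBr n h u s y q V r) {i : Fin d}
    {T : Fin d → ℕ} (hT : Mx n h u i T) (h0 : T i ≠ 0 ∨ ∃ j, j ≠ i ∧ 2 * c < u j (r j))
    {j : Fin d} (hj : j ≠ i) : (2 * c < u j (r j) → T j ≠ 0) ∧ T j ≤ r j := by
  have h1 : ∀ j, j ≠ i → 2 * c < u j (r j) → T j ≠ 0 := by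
    intro j hj hc h2
    have h3 := hr.r0 hx.pos hc
    have h4 := hx.upd_le (u := u) hT.1 (hr.rn j) (Or.inl h3)
    have h5 := hT.2 _ (update_mem hT.1 (hr.rn j) (Or.inl h3)) (Function.update_of_ne hj.symm _ _)
    rw [h2, hr.u0] at h4
    linarith
  refine ⟨h1 j hj, ?_⟩
  by_contra h2
  rw [not_le] at h2
  have h3 : r j ≠ 0 ∨ ∃ k, k ≠ j ∧ T k ≠ 0 := by
    rcases h0 with h0 | ⟨k, hk, hk'⟩
    · exact Or.inr ⟨i, hj.symm, h0⟩
    · by_cases h5 : k = j
      · exact Or.inl (h5 ▸ hr.r0 hx.pos hk')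
      · exact Or.inr ⟨k, h5, h1 k hk hk'⟩
  have h4 := hx.upd_lt (u := u) hT.1 h2 h3
  have h5 := hT.2 _ (update_mem hT.1 (hr.rn j) h3) (Function.update_of_ne hj.symm _ _)
  have h6 := hr.lt j (T j) ((mem_Mo.1 hT.1).2 j) h2.ne'
  linarith

/-- The monomial of maximal value in a class below `r` which is not used is unique. -/
private theorem ClBr.uniq_lt (hx : Hx n h H c) (hr : ClBr n h u s y q V r) (h0 : r ≠ 0)
    {j : Fin d} (hj : 2 * c < u j (r j)) {lam : (Fin d → ℕ) → ℝ} (hw : Wp (Cf n h u V) lam r)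
    {i : Fin d} {b : ℕ} (hb : b < r i) (hnu : ∀ S ∈ Cf n h u V, S i ≠ b)
    (h1 : b ≠ 0 ∨ ∃ j, j ≠ i ∧ 2 * c < u j (r j)) {T : Fin d → ℕ} (hT : Mx n h u i T)
    (hTi : T i = b) (U : Fin d → ℕ) (hU : Mx n h u i U) (hUi : U i = b) : U = T := by
  have key : ∀ T, Mx n h u i T → T i = b → ∀ k, k ≠ i → ∃ S ∈ Cf n h u V, S k = T k := by
    intro T hT hTi k hk
    by_contra hcon
    have hle : ∀ j, j ≠ i → T j ≤ r j := fun j hj => (hr.mx hx hT (by rw [hTi]; exact h1) hj).2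
    have h2 : T k ≠ r k := by
      intro h3
      obtain ⟨S, hS, hS'⟩ := hw.usedB k
      exact hcon ⟨S, hS, hS'.trans h3.symm⟩
    refine hw.two_lt (fun S hS => hT.alt hx hr.hV hS) (fun j => ?_) (Ne.symm hk)
      (fun S hS => by rw [hTi]; exact hnu S hS) (fun S hS h3 => hcon ⟨S, hS, h3⟩)
      (by rw [hTi]; exact hb) (lt_of_le_of_ne (hle k hk) h2)
    by_cases hji : j = i
    · rw [hji, hTi]
      exact hb.le
    · exact hle j hji
  exact Mx.uniq hx hr.hV hw (Or.inl fun S hS k => hr.C_le hx h0 hj hS k) hU hT (hUi.trans hTi.symm)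
    (fun S hS => by rw [hUi]; exact hnu S hS) fun k hk => ⟨key U hU hUi k hk, key T hT hTi k hk⟩

/-- All labels between the lower bounds and `r` are used. -/
private theorem ClBr.used (hx : Hx n h H c) (hL : LF n h u s z y q) (hn : ∀ i, 1 ≤ n i)
    (hr : ClBr n h u s y q V r) (h0 : r ≠ 0) {j : Fin d} (hj : 8 * c < u j (r j))
    {lam : (Fin d → ℕ) → ℝ} (hw : Wp (Cf n h u V) lam r) {i : Fin d} {b : ℕ} (hb : b ≤ r i)
    (hlo : 2 * c < u i (r i) → b ≠ 0) : ∃ S ∈ Cf n h u V, S i = b := by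
  by_contra hcon
  have hc := hx.pos
  have hj' : 2 * c < u j (r j) := by linarith
  have hnu : ∀ S ∈ Cf n h u V, S i ≠ b := fun S hS h1 => hcon ⟨S, hS, h1⟩
  obtain ⟨S, hS, hSi⟩ := hw.usedB i
  have hbr : b < r i := lt_of_le_of_ne hb fun h1 => hnu S hS (hSi.trans h1.symm)
  obtain ⟨hSM, hSV⟩ := mem_Cf.1 hS
  by_cases hb0 : b = 0
  · subst hb0
    have hYi : u i (r i) ≤ 2 * c := by
      by_contra h1
      exact hlo (not_le.1 h1) rfl
    have hji : j ≠ i := by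
      rintro rfl
      linarith
    have hY0 := hr.nonneg i
    obtain ⟨T, hTi, hT⟩ := exists_Mx (h := h) (u := u) (exists_Mo0 (n := n) hji.symm (hn j))
    have hTj := (hr.mx hx hT (Or.inr ⟨j, hji, hj'⟩) hji).1 hj'
    have h1 : V - u i (r i) < vM h u T := by
      have h2 : (0 : ℕ) ≠ 0 ∨ ∃ k, k ≠ i ∧ S k ≠ 0 := Or.inr ⟨j, hji, hr.C_ne hx h0 hS hj'⟩
      have h3 := hx.upd_lt (u := u) hSM (i := i) (b := 0) (by omega) h2
      have h4 := hT.2 _ (update_mem hSM (Nat.zero_le _) h2)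
        ((Function.update_self _ _ _).trans hTi.symm)
      rw [hSi, hSV, hr.u0] at h3
      linarith
    have h2 : H - 5 * c + ∑ k, u k (r k) ≤ vM h u T := by
      have hrM : r ∈ Mo n := mem_Mo.2 ⟨h0, hr.rn⟩
      have h2 : (0 : ℕ) ≠ 0 ∨ ∃ k, k ≠ i ∧ r k ≠ 0 := Or.inr ⟨j, hji, hr.r0 hc hj'⟩
      have h3 := hx.upd_le (u := u) hrM (i := i) (b := 0) (Nat.zero_le _) h2
      have h4 := hT.2 _ (update_mem hrM (Nat.zero_le _) h2)
        ((Function.update_self _ _ _).trans hTi.symm)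
      have h5 := abs_le.1 (hx.near r hrM)
      have h6 : vM h u r = h r + ∑ k, u k (r k) := rfl
      rw [hr.u0] at h3
      linarith
    refine ClB_row3 hL hji.symm hTi hTj hT
      (hr.uniq_lt hx h0 hj' hw hbr hnu (Or.inr ⟨j, hji, hj'⟩) hT hTi) (fun U hU hUj => ?_) ?_ ?_
    · have h3 := abs_le.1 (hx.near U hU)
      have h4 : u j (r j) ≤ ∑ k, (u k (r k) - u k (U k)) := by
        have h5 := Finset.single_le_sum (f := fun k => u k (r k) - u k (U k))
          (fun k _ => sub_nonneg.2 (hr.le ((mem_Mo.1 hU).2 k))) (Finset.mem_univ j)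
        simp only [hUj, hr.u0, sub_zero] at h5
        exact h5
      rw [Finset.sum_sub_distrib] at h4
      have h6 : vM h u U = h U + ∑ k, u k (U k) := rfl
      linarith
    · rw [hr.vT_eq, hr.u0]
      linarith
    · rw [hr.vT_eq, hr.u0]
      linarith
  · have hbn : b ≤ n i := hb.trans (hr.rn i)
    obtain ⟨T, hTi, hT⟩ := exists_Mx (h := h) (u := u) (exists_Mo (n := n) hb0 hbn)
    have h1 := ClB_row1 hL hb0 hbn hTi hT
      (hr.uniq_lt hx h0 hj' hw hbr hnu (Or.inl hb0) hT hTi)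
    have h2 := hx.upd_lt (u := u) hSM (i := i) (b := b) (by omega) (Or.inl hb0)
    have h3 := hT.2 _ (update_mem hSM hbn (Or.inl hb0))
      ((Function.update_self _ _ _).trans hTi.symm)
    have h4 := hr.lt i b hbn hbr.ne
    rw [hSi, hSV] at h2
    rw [hr.vT_eq] at h1
    linarith

/-- The monomial of maximal value in a class is unique if its other coordinates are used. -/
private theorem ClBr.uniq (hx : Hx n h H c) (hL : LF n h u s z y q) (hn : ∀ i, 1 ≤ n i)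
    (hr : ClBr n h u s y q V r) (h0 : r ≠ 0) {j : Fin d} (hj : 8 * c < u j (r j))
    {lam : (Fin d → ℕ) → ℝ} (hw : Wp (Cf n h u V) lam r) {i : Fin d} {b : ℕ}
    (hnu : ∀ S ∈ Cf n h u V, S i ≠ b) (h1 : b ≠ 0 ∨ ∃ j, j ≠ i ∧ 2 * c < u j (r j))
    {T : Fin d → ℕ} (hT : Mx n h u i T) (hTi : T i = b) (U : Fin d → ℕ) (hU : Mx n h u i U)
    (hUi : U i = b) : U = T := by
  have hc := hx.pos
  have key : ∀ T, Mx n h u i T → T i = b → ∀ k, k ≠ i → ∃ S ∈ Cf n h u V, S k = T k := by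
    intro T hT hTi k hk
    obtain ⟨h2, h3⟩ := hr.mx hx hT (by rw [hTi]; exact h1) hk
    exact hr.used hx hL hn h0 hj hw h3 h2
  exact Mx.uniq hx hr.hV hw (Or.inl fun S hS k => hr.C_le hx h0 (by linarith) hS k) hU hT
    (hUi.trans hTi.symm) (fun S hS => by rw [hUi]; exact hnu S hS)
    fun k hk => ⟨key U hU hUi k hk, key T hT hTi k hk⟩

private theorem ClB_lo {J : Finset (Fin d)} {j : Fin d} {a : ℕ} (h1 : j ∈ J → a ≠ 0) :
    (if j ∈ J then 1 else 0) ≤ a := by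
  split_ifs with h2
  · exact Nat.one_le_iff_ne_zero.2 (h1 h2)
  · exact Nat.zero_le _

/-- The flags where some element `t (i, b)` has the top value. -/
theorem LF.clB (hx : Hx n h H c) (hL : LF n h u s z y q) (hn : ∀ i, 1 ≤ n i) (hd : 0 < d)
    (hV : ∀ T ∈ Mo n, vM h u T ≤ V) (hVP : vP s ≤ V) (hVT : ∀ i, ∀ b ≤ n i, vT u s i b ≤ V)
    (hex : ∃ i, ∃ b ≤ n i, vT u s i b = V) : ∃ r J, vP s = V ∧ ClsM n h u s r J := by
  classical
  obtain ⟨r, hr⟩ := ClB_r hx hL hV hVP hVT hex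
  have hc := hx.pos
  have h0 := hr.ne hx hL hn hd
  obtain ⟨j₀, -, hj₀⟩ := ClB_big hx Finset.univ (fun i => u i (r i)) (hr.sum_ge hx h0)
  have hj₀' : 2 * c < u j₀ (r j₀) := by linarith
  have hpw := Cf.pw (u := u) hx hV
  obtain ⟨lam, hlam, hw⟩ := exists_Wp hpw hL.q0 (fun T hT => hL.z0 T (mem_Cf.1 hT).1)
    (hr.marg hx hL h0 hj₀').1 (hr.marg hx hL h0 hj₀').2
  have hle := fun T (hT : T ∈ Cf n h u V) i => hr.C_le hx h0 hj₀' hT i
  set J : Finset (Fin d) := Finset.univ.filter fun i => 2 * c < u i (r i) with hJ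
  have hmJ : ∀ j, j ∈ J ↔ 2 * c < u j (r j) := fun j => by simp [hJ]
  have hVP' := hr.VP
  -- the value of an element `t (i, 0)`
  have hW : ∀ i ∈ J, ∀ T, Mx n h u i T → T i = 0 → (∃ j ∈ J, i ≠ j) →
      V - u i (r i) < vM h u T := by
    rintro i hi T hT hTi ⟨j, hj, hij⟩
    obtain ⟨S, hS, hSi⟩ := hw.usedB i
    obtain ⟨hSM, hSV⟩ := mem_Cf.1 hS
    have h1 := hr.r0 hc ((hmJ i).1 hi)
    have h2 : (0 : ℕ) ≠ 0 ∨ ∃ k, k ≠ i ∧ S k ≠ 0 :=
      Or.inr ⟨j, hij.symm, hr.C_ne hx h0 hS ((hmJ j).1 hj)⟩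
    have h3 := hx.upd_lt (u := u) hSM (i := i) (b := 0) (by omega) h2
    have h4 := hT.2 _ (update_mem hSM (Nat.zero_le _) h2)
      ((Function.update_self _ _ _).trans hTi.symm)
    rw [hSi, hSV, hr.u0] at h3
    linarith
  have hnle : ∀ i ∈ J, ∀ j ∈ J, i ≠ j → ∀ T U, Mx n h u i T → T i = 0 → Mx n h u j U → U j = 0 →
      vM h u T ≤ vM h u U := by
    intro i hi j hj hij T U hT hTi hU hUj
    by_contra h1
    rw [not_le] at h1
    have hi' := (hmJ i).1 hi
    have hj' := (hmJ j).1 hj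
    have h2 := hW i hi T hT hTi ⟨j, hj, hij⟩
    have h3 := hW j hj U hU hUj ⟨i, hi, hij.symm⟩
    refine ClB_row3 hL hij hTi ((hr.mx hx hT (Or.inr ⟨j, hij.symm, hj'⟩) hij.symm).1 hj') hT
      (hr.uniq hx hL hn h0 hj₀ hw (fun S hS => hr.C_ne hx h0 hS hi')
        (Or.inr ⟨j, hij.symm, hj'⟩) hT hTi)
      (fun W hW hWj => (hU.2 W hW (hWj.trans hUj.symm)).trans_lt h1) ?_ ?_
    · rw [hr.vT_eq, hr.u0]
      linarith
    · rw [hr.vT_eq, hr.u0]
      linarith
  refine ⟨r, J, hVP', ⟨⟨j₀, (hmJ _).2 hj₀'⟩, hr.rn, hr.hs, ?_, ?_, ?_, ?_, ?_, ?_, ?_⟩⟩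
  · rw [hVP']
    exact hV
  · rw [hVP']
    exact hpw
  · rw [hVP']
    exact ⟨lam, hlam, hw⟩
  · rw [hVP']
    intro T hT i
    exact ⟨ClB_lo fun hi => hr.C_ne hx h0 hT ((hmJ i).1 hi), hle T hT i⟩
  · rw [hVP']
    intro i b hb hbr
    exact hr.used hx hL hn h0 hj₀ hw hbr (fun h1 h2 => by
      rw [if_pos ((hmJ i).2 h1)] at hb
      omega)
  · intro i b hb hbn
    have hb0 : b ≠ 0 := by omega
    obtain ⟨T, hTi, hT⟩ := exists_Mx (h := h) (u := u) (exists_Mo (n := n) hb0 hbn)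
    have hnu : ∀ S ∈ Cf n h u V, S i ≠ b := fun S hS h1 => by
      have h2 := hle S hS i
      omega
    refine ⟨T, hTi, hT, fun j hj => ?_, ClB_row1 hL hb0 hbn hTi hT
      (hr.uniq hx hL hn h0 hj₀ hw hnu (Or.inl hb0) hT hTi)⟩
    obtain ⟨h1, h2⟩ := hr.mx hx hT (Or.inl (by rw [hTi]; exact hb0)) hj
    exact ⟨ClB_lo fun h3 => h1 ((hmJ j).1 h3), h2⟩
  · have hT0 : ∀ i ∈ J, (∃ j ∈ J, j ≠ i) → ∃ T, T i = 0 ∧ Mx n h u i T ∧
        ∀ k, k ≠ i → (if k ∈ J then 1 else 0) ≤ T k ∧ T k ≤ r k := by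
      rintro i _ ⟨j, hj, hji⟩
      have hj' := (hmJ j).1 hj
      obtain ⟨T, hTi, hT⟩ := exists_Mx (h := h) (u := u) (exists_Mo0 (n := n) hji.symm (hn j))
      refine ⟨T, hTi, hT, fun k hk => ?_⟩
      obtain ⟨h1, h2⟩ := hr.mx hx hT (Or.inr ⟨j, hji, hj'⟩) hk
      exact ⟨ClB_lo fun h3 => h1 ((hmJ k).1 h3), h2⟩
    by_cases hJ2 : ∃ i ∈ J, ∃ j ∈ J, j ≠ i
    · obtain ⟨i₁, hi₁, hj₁⟩ := hJ2
      obtain ⟨T₁, hT₁, hT₁', _⟩ := hT0 i₁ hi₁ hj₁
      refine ⟨vM h u T₁, fun i hi hj => ?_⟩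
      obtain ⟨T, h1, h2, h3⟩ := hT0 i hi hj
      refine ⟨T, h1, h2, h3, ?_⟩
      by_cases h4 : i = i₁
      · subst h4
        exact le_antisymm (hT₁'.2 T h2.1 (h1.trans hT₁.symm)) (h2.2 T₁ hT₁'.1 (hT₁.trans h1.symm))
      · exact le_antisymm (hnle i hi i₁ hi₁ h4 T T₁ h2 h1 hT₁' hT₁)
          (hnle i₁ hi₁ i hi (Ne.symm h4) T₁ T hT₁' hT₁ h2 h1)
    · exact ⟨0, fun i hi hj => absurd ⟨i, hi, hj⟩ hJ2⟩

end Pool.Agent.MPb0eA
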