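import Pool.Agent.Lib.MP_b0e20b_ag_A.Lab
import Pool.Agent.Lib.MP_b0e20b_ag_G.Defs

/-!
# MP_b0e20b_ag, block A: the lattice of a classified flag
-/

set_option autoImplicit false

open scoped BigOperators

namespace Pool.Agent.MPb0eA

open MPb0eF MPb0eQ

section

variable {Ω Λ : Type} [Fintype Ω]

/-- A sum which is balanced on the levels vanishes on functions of the level. -/
theorem bsum_const {R : Type} [CommRing R] {lev : Ω → ℕ} {c : Ω → ℤ} (hc : BSum lev c) {f : Ω → R}
    (hf : ∀ E E', lev E = lev E' → f E = f E') : ∑ E, (c E : R) * f E = 0 := by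
  classical
  rw [← Finset.sum_fiberwise_of_maps_to (s := Finset.univ) (t := Finset.univ.image lev)
    (g := lev) (fun E _ => Finset.mem_image_of_mem _ (Finset.mem_univ E))]
  refine Finset.sum_eq_zero fun j hj => ?_
  obtain ⟨E0, -, rfl⟩ := Finset.mem_image.1 hj
  have h1 : ∀ E ∈ Finset.univ.filter (fun E => lev E = lev E0), (c E : R) * f E =
      (c E : R) * f E0 := by
    intro E hE
    rw [hf E E0 (Finset.mem_filter.1 hE).2]
  have h2 := congrArg (Int.cast : ℤ → R) (hc (lev E0))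
  rw [Finset.sum_congr rfl h1, ← Finset.sum_mul, Finset.sum_filter]
  push_cast at h2
  rw [h2, zero_mul]

/-- The lattice of the relations which are balanced on the levels and for the function `g`. -/
def GaS (ex : Ω → Λ → ℤ) (lev : Ω → ℕ) (g : Ω → ℤ) : AddSubgroup (Λ → ℤ) where
  carrier := {v | ∃ c : Ω → ℤ, BSum lev c ∧ ∑ E, c E * g E = 0 ∧ ∀ l, ∑ E, c E * ex E l = v l}
  add_mem' := by
    rintro v v' ⟨c, h1, h2, h3⟩ ⟨c', h1', h2', h3'⟩
    refine ⟨fun E => c E + c' E, fun j => ?_, ?_, fun l => ?_⟩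
    · have e1 := h1 j
      have e2 := h1' j
      have : ∑ E, (if lev E = j then c E + c' E else 0) =
          ∑ E, (if lev E = j then c E else 0) + ∑ E, (if lev E = j then c' E else 0) := by
        rw [← Finset.sum_add_distrib]
        exact Finset.sum_congr rfl fun E _ => by split_ifs <;> simp
      rw [this, e1, e2, add_zero]
    · simp only [add_mul, Finset.sum_add_distrib]
      rw [h2, h2', add_zero]
    · simp only [add_mul, Finset.sum_add_distrib, Pi.add_apply]
      rw [h3, h3']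
  zero_mem' := ⟨fun _ => 0, fun j => by simp, by simp, fun l => by simp⟩
  neg_mem' := by
    rintro v ⟨c, h1, h2, h3⟩
    refine ⟨fun E => - c E, fun j => ?_, ?_, fun l => ?_⟩
    · have e1 := h1 j
      have : ∑ E, (if lev E = j then - c E else 0) = - ∑ E, (if lev E = j then c E else 0) := by
        rw [← Finset.sum_neg_distrib]
        exact Finset.sum_congr rfl fun E _ => by split_ifs <;> simp
      rw [this, e1, neg_zero]
    · simp only [neg_mul, Finset.sum_neg_distrib]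
      rw [h2, neg_zero]
    · simp only [neg_mul, Finset.sum_neg_distrib, Pi.neg_apply]
      rw [h3]

theorem mem_GaS {ex : Ω → Λ → ℤ} {lev : Ω → ℕ} {g : Ω → ℤ} {v : Λ → ℤ} :
    v ∈ GaS ex lev g ↔ ∃ c : Ω → ℤ, BSum lev c ∧ ∑ E, c E * g E = 0 ∧
      ∀ l, ∑ E, c E * ex E l = v l := Iff.rfl

/-- Differences inside the levels. -/
theorem GaS_diff {ex : Ω → Λ → ℤ} {lev : Ω → ℕ} {g : Ω → ℤ} {E E' : Ω} (h : lev E = lev E')
    (hg : g E = g E') : ex E - ex E' ∈ GaS ex lev g := by
  classical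
  have key : ∀ f : Ω → ℤ, ∑ F, ((if F = E then 1 else 0) - (if F = E' then 1 else 0)) * f F =
      f E - f E' := by
    intro f
    simp [sub_mul, Finset.sum_sub_distrib]
  refine ⟨fun F => (if F = E then 1 else 0) - (if F = E' then 1 else 0), fun j => ?_, ?_,
    fun l => ?_⟩
  · have h1 := key fun F => if lev F = j then 1 else 0
    simp only [mul_ite, mul_one, mul_zero] at h1
    rw [h1, h, sub_self]
  · rw [key, hg, sub_self]
  · rw [key fun F => ex F l, Pi.sub_apply]

/-- Exactness: if the lattice contains a multiple of every unknown then `g` is constant on the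
levels. -/
theorem exact_g [Fintype Λ] [DecidableEq Λ] {h : Ω → ℝ} {ex : Ω → Λ → ℤ} {w : Λ → ℝ}
    {lev : Ω → ℕ} {g : Ω → ℤ} (hg : Gen h ex) (hL : Lev h ex w lev) {N : ℤ} (hN : N ≠ 0)
    (hl : ∀ l, N • Pi.single l (1 : ℤ) ∈ GaS ex lev g) {E E' : Ω} (hE : lev E = lev E') :
    g E = g E' := by
  classical
  choose c hc1 hc2 hc3 using fun l => mem_GaS.1 (hl l)
  obtain ⟨b, hb⟩ : ∃ b : Ω → ℤ, b = fun F => N * ((if F = E then 1 else 0) -
    (if F = E' then 1 else 0)) - ∑ l, (ex E l - ex E' l) * c l F := ⟨_, rfl⟩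
  -- the values of linear functionals on `b`
  have key : ∀ (R : Type) [CommRing R] (f : Ω → R), ∑ F, (b F : R) * f F =
      (N : R) * (f E - f E') - ∑ l, ((ex E l - ex E' l : ℤ) : R) * ∑ F, (c l F : R) * f F := by
    intro R _ f
    have h1 : ∀ F, (b F : R) * f F = (N : R) * ((if F = E then f F else 0) -
        (if F = E' then f F else 0)) -
        ∑ l, ((ex E l - ex E' l : ℤ) : R) * ((c l F : R) * f F) := by
      intro F
      rw [hb]
      push_cast
      rw [sub_mul, Finset.sum_mul]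
      congr 1
      · split_ifs <;> simp
      · exact Finset.sum_congr rfl fun l _ => by ring
    rw [Finset.sum_congr rfl fun F _ => h1 F, Finset.sum_sub_distrib, ← Finset.mul_sum,
      Finset.sum_sub_distrib, Finset.sum_comm]
    simp [Finset.mul_sum]
  have hv : ∀ F F', lev F = lev F' → val h ex w F = val h ex w F' := hL.1
  have h0 : ∀ l, ∑ F, c l F = 0 := by
    intro l
    have := bsum_const (R := ℤ) (f := fun _ => 1) (hc1 l) fun _ _ _ => rfl
    simpa using this
  have b0 : ∑ F, b F = 0 := by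
    have h1 := key ℤ fun _ => 1
    simp only [mul_one, Int.cast_id, sub_self, mul_zero, h0] at h1
    simpa using h1
  have b1 : ∀ l, ∑ F, b F * ex F l = 0 := by
    intro l
    have h1 := key ℤ fun F => ex F l
    simp only [Int.cast_id] at h1
    rw [h1]
    have h2 : ∀ l', ∑ F, c l' F * ex F l = if l' = l then N else 0 := by
      intro l'
      rw [hc3 l' l]
      by_cases h3 : l' = l
      · subst h3
        simp
      · rw [if_neg h3]
        simp [Ne.symm h3]
    simp only [h2]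
    simp
    ring
  have b2 : ∑ F, (b F : ℝ) * h F = 0 := by
    have h1 := key ℝ fun F => val h ex w F
    have h2 : ∀ l, ∑ F, (c l F : ℝ) * val h ex w F = 0 := fun l => bsum_const (hc1 l) hv
    simp only [h2] at h1
    rw [hv E E' hE] at h1
    simp only [sub_self, mul_zero, Finset.sum_const_zero] at h1
    have h3 : ∑ F, (b F : ℝ) * val h ex w F = ∑ F, (b F : ℝ) * h F +
        ∑ l, ((∑ F, b F * ex F l : ℤ) : ℝ) * w l := by
      simp only [val, mul_add, Finset.sum_add_distrib, Finset.mul_sum]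
      congr 1
      rw [Finset.sum_comm]
      refine Finset.sum_congr rfl fun l _ => ?_
      push_cast
      rw [Finset.sum_mul]
      exact Finset.sum_congr rfl fun F _ => by ring
    rw [h3] at h1
    simpa [b1] using h1
  have h4 := hg b b0 b1 b2
  have h5 := key ℤ g
  simp only [Int.cast_id, hc2, mul_zero, Finset.sum_const_zero, sub_zero] at h5
  rw [h4] at h5
  simp only [Pi.zero_apply, zero_mul, Finset.sum_const_zero] at h5
  have h6 := (mul_eq_zero.1 h5.symm).resolve_left hN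
  exact sub_eq_zero.1 h6

end

variable {d : ℕ} {n : Fin d → ℕ} {hh : (Fin d → ℕ) → ℝ} {w : Un (Kx n) d → ℝ}
  {lev : El (blk n) → ℕ} {g : El (blk n) → ℤ}

/-- The unit vector of the label `b` of the factor `i`. -/
def Dl (n : Fin d → ℕ) (i : Fin d) (b : ℕ) : Un (Kx n) d → ℤ := fun l =>
  lb (fun l' => if l' = l then (1 : ℤ) else 0) i b

theorem Dl_zero (i : Fin d) : Dl n i 0 = 0 := funext fun _ => lb_zero _ i

theorem Dl_succ (i : Fin d) (l : Fin (n i)) :
    Dl n i ((l : ℕ) + 1) = Pi.single (.inl ⟨i, l⟩) (1 : ℤ) := by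
  funext l'
  rw [Dl, lb_succ, Pi.single_apply]
  by_cases h : l' = .inl ⟨i, l⟩
  · rw [if_pos h, if_pos h.symm]
  · rw [if_neg h, if_neg (Ne.symm h)]

private theorem Lat_ind (v : Un (Kx n) d → ℤ) (l : Un (Kx n) d) :
    ∑ l', ((v l' : ℤ) : ℤ) * (if l' = l then (1 : ℤ) else 0) = v l := by
  simp

theorem ex_eM {T : Fin d → ℕ} (hT : T ∈ Mo n) : eF (blk n) (eM T) = ∑ i, Dl n i (T i) := by
  funext l
  rw [Finset.sum_apply, ← Lat_ind (eF (blk n) (eM T)) l]
  exact eF_eM _ hT

theorem ex_eP : eF (blk n) (eP n) = ∑ i, Pi.single (.inr i) (1 : ℤ) := by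
  funext l
  have h0 := eF_eP (n := n) (R := ℤ) fun l' => if l' = l then (1 : ℤ) else 0
  simp only [Int.cast_id] at h0
  rw [Finset.sum_apply, ← Lat_ind (eF (blk n) (eP n)) l, h0]
  exact Finset.sum_congr rfl fun i _ => by
    rw [Pi.single_apply]
    by_cases h : l = .inr i
    · rw [if_pos h, if_pos h.symm]
    · rw [if_neg h, if_neg (Ne.symm h)]

theorem ex_eT (i : Fin d) {b : ℕ} (hb : b ≤ n i) : eF (blk n) (eT n i b) =
    (Dl n i b + Dl n i b) + (∑ j, Pi.single (.inr j) (1 : ℤ) - Pi.single (.inr i) (1 : ℤ)) := by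
  have h1 : ∀ (i : Fin d) (l : Un (Kx n) d),
      (Pi.single (.inr i) (1 : ℤ) : Un (Kx n) d → ℤ) l = if (.inr i) = l then 1 else 0 := by
    intro i l
    rw [Pi.single_apply]
    by_cases h : l = .inr i
    · rw [if_pos h, if_pos h.symm]
    · rw [if_neg h, if_neg (Ne.symm h)]
  funext l
  have h0 := eF_eT (R := ℤ) (fun l' => if l' = l then (1 : ℤ) else 0) i hb
  simp only [Int.cast_id] at h0
  rw [Pi.add_apply, Pi.add_apply, Pi.sub_apply, Finset.sum_apply,
    ← Lat_ind (eF (blk n) (eT n i b)) l, h0, two_mul, h1]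
  congr 2
  exact Finset.sum_congr rfl fun j _ => (h1 j l).symm

/-- The relations of a classified flag in the quotient by the lattice, for elements of equal value
and with equal `g`. -/
theorem q_rel (hL : Lev (hE n hh) (eF (blk n)) w lev) {E E' : El (blk n)}
    (hv : val (hE n hh) (eF (blk n)) w E = val (hE n hh) (eF (blk n)) w E') (hg : g E = g E') :
    QuotientAddGroup.mk' (GaS (eF (blk n)) lev g) (eF (blk n) E) =
      QuotientAddGroup.mk' (GaS (eF (blk n)) lev g) (eF (blk n) E') := by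
  rw [← sub_eq_zero, ← map_sub]
  exact (QuotientAddGroup.eq_zero_iff _).2 (GaS_diff (((lev_iff hL E' E).1).2 hv) hg)

/-- The first type, with the order `1`. -/
theorem cyc_A1 (hd : 0 < d) (hL : Lev (hE n hh) (eF (blk n)) w lev)
    (hA : ClsA n hh (lb w) (sgL w)) :
    ∃ l0 : Un (Kx n) d, Cyc (eF (blk n)) lev (moF (blk n)) l0 1 := by
  obtain ⟨V, hc⟩ := hA.con
  obtain ⟨π, hπ⟩ : ∃ π : (Un (Kx n) d → ℤ) →+ (Un (Kx n) d → ℤ) ⧸ GaS (eF (blk n)) lev 0,
    π = QuotientAddGroup.mk' (GaS (eF (blk n)) lev 0) := ⟨_, rfl⟩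
  have hrel : ∀ {E E' : El (blk n)}, val (hE n hh) (eF (blk n)) w E =
      val (hE n hh) (eF (blk n)) w E' → π (eF (blk n) E) = π (eF (blk n) E') := by
    intro E E' h
    rw [hπ]
    exact q_rel hL h rfl
  have h1 : ∀ i b, b ≤ n i → π (Dl n i b) = 0 := by
    have h2 := hc _ (fun i b => π (Dl n i b)) (by
      intro T hT U hU
      have hT' := Finset.mem_filter.1 hT
      have hU' := Finset.mem_filter.1 hU
      have h3 : π (eF (blk n) (eM T)) = π (eF (blk n) (eM U)) := by
        apply hrel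
        rw [val_eM hT'.1, val_eM hU'.1, hT'.2, hU'.2]
      rw [ex_eM hT'.1, ex_eM hU'.1, map_sum, map_sum] at h3
      exact h3)
    intro i b hb
    have h3 := h2 i b (Nat.zero_le _) hb
    have h4 := h2 i 0 (Nat.zero_le _) (Nat.zero_le _)
    rw [Dl_zero, map_zero] at h4
    exact h3.trans h4.symm
  have h2 : ∀ i : Fin d, π (Pi.single (.inr i) (1 : ℤ)) = 0 := by
    intro i
    have h3 : π (eF (blk n) (eT n i (n i))) = π (eF (blk n) (eP n)) := by
      apply hrel
      rw [val_eT i le_rfl, val_eP, vT, vP, hA.hsg i]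
      ring
    rw [ex_eT i le_rfl, ex_eP, map_add, map_add, h1 i _ le_rfl, map_sub, add_zero, zero_add] at h3
    exact sub_eq_self.1 h3
  have h3 : ∀ l, π (Pi.single l (1 : ℤ)) = 0 := by
    rintro (⟨i, l⟩ | i)
    · rw [← Dl_succ]
      exact h1 i _ l.2
    · exact h2 i
  have h4 : ∀ l, (Pi.single l (1 : ℤ) : Un (Kx n) d → ℤ) ∈ GaS (eF (blk n)) lev 0 := by
    intro l
    have := h3 l
    rw [hπ] at this
    exact (QuotientAddGroup.eq_zero_iff _).1 this
  refine ⟨.inr ⟨0, hd⟩, le_rfl, fun l => ⟨0, ?_⟩, ⟨fun _ => 1, rfl, fun _ _ _ => ?_⟩, ?_⟩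
  · obtain ⟨c, c1, -, c2⟩ := h4 l
    refine ⟨c, c1, fun l' => ?_⟩
    rw [c2 l', Pi.single_apply]
    simp
  · rw [Nat.cast_one]
    exact one_dvd _
  · obtain ⟨c, c1, -, c2⟩ := h4 (.inr ⟨0, hd⟩)
    refine ⟨c, c1, fun l' => ?_, fun h => absurd h (by decide)⟩
    rw [c2 l', Pi.single_apply, Nat.cast_one]

/-- The first type. -/
theorem cyc_A (hd : 0 < d) (hL : Lev (hE n hh) (eF (blk n)) w lev)
    (hA : ClsA n hh (lb w) (sgL w)) :
    ∃ (l0 : Un (Kx n) d) (m : ℕ), m ≤ d ∧ Cyc (eF (blk n)) lev (moF (blk n)) l0 m := by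
  obtain ⟨l0, h⟩ := cyc_A1 hd hL hA
  exact ⟨l0, 1, hd, h⟩

variable {r : Fin d → ℕ} {J : Finset (Fin d)}

/-- The weights of the unknowns for a flag of the second type. -/
def fB (n : Fin d → ℕ) (J : Finset (Fin d)) : Un (Kx n) d → ℤ
  | .inl k => if k.1 ∈ J then 1 else 0
  | .inr i => if i ∈ J then 2 else 0

/-- The function which is constant on the levels for a flag of the second type. -/
def gB (n : Fin d → ℕ) (J : Finset (Fin d)) (E : El (blk n)) : ℤ :=
  ∑ l, eF (blk n) E l * fB n J l + if moF (blk n) E then (J.card : ℤ) else 0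

private theorem Lat_lb (i : Fin d) {b : ℕ} (hb : b ≤ n i) :
    lb (fB n J) i b = if i ∈ J ∧ b ≠ 0 then 1 else 0 := by
  rcases Nat.eq_zero_or_pos b with h0 | h0
  · subst h0
    rw [lb_zero, if_neg]
    exact fun h => h.2 rfl
  · obtain ⟨c, rfl⟩ : ∃ c, b = c + 1 := ⟨b - 1, by omega⟩
    have h1 := lb_succ (fB n J) i ⟨c, hb⟩
    rw [Fin.val_mk] at h1
    rw [h1]
    by_cases h2 : i ∈ J
    · rw [if_pos ⟨h2, Nat.succ_ne_zero _⟩]
      exact if_pos h2
    · rw [if_neg (fun h => h2 h.1)]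
      exact if_neg h2

private theorem Lat_sumJ (a : ℤ) : ∑ i, (if i ∈ J then a else 0) = J.card * a := by
  rw [Finset.sum_ite_mem, Finset.univ_inter, Finset.sum_const, nsmul_eq_mul]

private theorem Lat_gM {T : Fin d → ℕ} (hT : T ∈ Mo n) :
    gB n J (eM T) = ∑ i, (if i ∈ J ∧ T i ≠ 0 then (1 : ℤ) else 0) + J.card := by
  have h1 := eF_eM (fB n J) hT
  simp only [Int.cast_id] at h1
  have h2 : moF (blk n) (eM T) = true := by
    obtain ⟨S, rfl⟩ := tup_surj hT
    rw [eM_tup]
    rfl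
  rw [gB, h1, h2, if_pos rfl]
  congr 1
  exact Finset.sum_congr rfl fun i _ => Lat_lb i ((mem_Mo.1 hT).2 i)

private theorem Lat_gM1 {T : Fin d → ℕ} (hT : T ∈ Mo n) (h : ∀ i ∈ J, T i ≠ 0) :
    gB n J (eM T) = 2 * J.card := by
  rw [Lat_gM hT]
  have h1 : ∀ i : Fin d, (if i ∈ J ∧ T i ≠ 0 then (1 : ℤ) else 0) = if i ∈ J then 1 else 0 := by
    intro i
    by_cases h2 : i ∈ J
    · rw [if_pos ⟨h2, h i h2⟩, if_pos h2]
    · rw [if_neg (fun h3 => h2 h3.1), if_neg h2]
  rw [Finset.sum_congr rfl fun i _ => h1 i, Lat_sumJ]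
  ring

private theorem Lat_gM2 {T : Fin d → ℕ} (hT : T ∈ Mo n) {j : Fin d} (hj : j ∈ J) (h0 : T j = 0)
    (h : ∀ i ∈ J, i ≠ j → T i ≠ 0) : gB n J (eM T) = 2 * J.card - 1 := by
  rw [Lat_gM hT]
  have h1 : ∀ i : Fin d, (if i ∈ J ∧ T i ≠ 0 then (1 : ℤ) else 0) =
      (if i ∈ J then 1 else 0) - if i = j then 1 else 0 := by
    intro i
    by_cases h2 : i = j
    · subst h2
      rw [if_neg (fun h3 => h3.2 h0), if_pos hj, if_pos rfl, sub_self]
    · by_cases h3 : i ∈ J
      · rw [if_pos ⟨h3, h i h3 h2⟩, if_pos h3, if_neg h2, sub_zero]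
      · rw [if_neg (fun h4 => h3 h4.1), if_neg h3, if_neg h2, sub_zero]
  rw [Finset.sum_congr rfl fun i _ => h1 i, Finset.sum_sub_distrib, Lat_sumJ,
    Finset.sum_ite_eq' Finset.univ j, if_pos (Finset.mem_univ j)]
  ring

private theorem Lat_gP : gB n J (eP n) = 2 * J.card := by
  have h1 := eF_eP (fB n J)
  simp only [Int.cast_id] at h1
  have h2 : moF (blk n) (eP n) = false := rfl
  rw [gB, h1, h2, if_neg (by decide), add_zero]
  have h3 := Lat_sumJ (J := J) 2
  rw [mul_comm] at h3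
  exact h3

private theorem Lat_gT (i : Fin d) {b : ℕ} (hb : b ≤ n i) (h : i ∈ J → b ≠ 0) :
    gB n J (eT n i b) = 2 * J.card := by
  have h1 := eF_eT (fB n J) i hb
  simp only [Int.cast_id] at h1
  have h2 : moF (blk n) (eT n i b) = false := by
    rw [eT]
    split_ifs <;> rfl
  have h3 := Lat_sumJ (J := J) 2
  have h4 : ∑ j, fB n J (.inr j) = J.card * 2 := h3
  rw [gB, h1, h2, if_neg (by decide), add_zero, h4, Lat_lb i hb]
  have h5 : fB n J (.inr i) = if i ∈ J then 2 else 0 := rfl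
  rw [h5]
  by_cases h6 : i ∈ J
  · rw [if_pos ⟨h6, h h6⟩, if_pos h6]
    ring
  · rw [if_neg (fun h7 => h6 h7.1), if_neg h6]
    ring

/-- The second type, with the order `J.card`. -/
theorem cyc_B1 (hG : Gen (hE n hh) (eF (blk n))) (hL : Lev (hE n hh) (eF (blk n)) w lev)
    (hB : ClsB n hh (lb w) (sgL w) r J) :
    ∃ l0 : Un (Kx n) d, Cyc (eF (blk n)) lev (moF (blk n)) l0 J.card := by
  classical
  obtain ⟨j0, hj0⟩ := hB.J0
  obtain ⟨π, hπ⟩ : ∃ π : (Un (Kx n) d → ℤ) →+ (Un (Kx n) d → ℤ) ⧸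
    GaS (eF (blk n)) lev (gB n J), π = QuotientAddGroup.mk' (GaS (eF (blk n)) lev (gB n J)) :=
    ⟨_, rfl⟩
  have hrel : ∀ {E E' : El (blk n)}, val (hE n hh) (eF (blk n)) w E =
      val (hE n hh) (eF (blk n)) w E' → gB n J E = gB n J E' →
        π (eF (blk n) E) = π (eF (blk n) E') := by
    intro E E' h h'
    rw [hπ]
    exact q_rel hL h h'
  obtain ⟨φ, hφ⟩ : ∃ φ : Fin d → ℕ → (Un (Kx n) d → ℤ) ⧸ GaS (eF (blk n)) lev (gB n J),
    φ = fun i b => π (Dl n i b) := ⟨_, rfl⟩
  have hφ' : ∀ i b, π (Dl n i b) = φ i b := fun i b => by rw [hφ]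
  obtain ⟨e, he⟩ : ∃ e : Fin d → (Un (Kx n) d → ℤ) ⧸ GaS (eF (blk n)) lev (gB n J),
    e = fun i => φ i (r i) := ⟨_, rfl⟩
  have he' : ∀ i, φ i (r i) = e i := fun i => by rw [he]
  have φ0 : ∀ i, φ i 0 = 0 := fun i => by rw [← hφ', Dl_zero, map_zero]
  have hM : ∀ T ∈ Mo n, π (eF (blk n) (eM T)) = ∑ i, φ i (T i) := by
    intro T hT
    rw [ex_eM hT, map_sum]
    exact Finset.sum_congr rfl fun i _ => hφ' i _
  have hCM : ∀ T ∈ Cf n hh (lb w) (vP (sgL w)), T ∈ Mo n ∧
      val (hE n hh) (eF (blk n)) w (eM T) = vP (sgL w) ∧ gB n J (eM T) = 2 * J.card := by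
    intro T hT
    have hT' := Finset.mem_filter.1 hT
    refine ⟨hT'.1, by rw [val_eM hT'.1, hT'.2], Lat_gM1 hT'.1 fun i hi => ?_⟩
    have h1 := (hB.C1 T hT i).1
    rw [if_pos hi] at h1
    omega
  -- the used labels
  have h1 : ∀ i b, (if i ∈ J then 1 else 0) ≤ b → b ≤ r i → φ i b = e i := by
    intro i b hb hb'
    rw [← he']
    refine hB.con _ φ (fun T hT U hU => ?_) i b hb hb'
    rw [← hM T (hCM T hT).1, ← hM U (hCM U hU).1]
    exact hrel ((hCM T hT).2.1.trans (hCM U hU).2.1.symm)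
      ((hCM T hT).2.2.trans (hCM U hU).2.2.symm)
  have h2 : ∀ i, i ∉ J → e i = 0 := by
    intro i hi
    have h3 := h1 i 0 (by rw [if_neg hi]) (Nat.zero_le _)
    rw [φ0] at h3
    exact h3.symm
  -- the unknowns `s i`
  obtain ⟨S, hS⟩ : ∃ S : Fin d → (Un (Kx n) d → ℤ) ⧸ GaS (eF (blk n)) lev (gB n J),
    S = fun i => π (Pi.single (.inr i) (1 : ℤ)) := ⟨_, rfl⟩
  have hS' : ∀ i, π (Pi.single (.inr i) (1 : ℤ)) = S i := fun i => by rw [hS]
  have hP : π (eF (blk n) (eP n)) = ∑ i, S i := by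
    rw [ex_eP, map_sum]
    exact Finset.sum_congr rfl fun i _ => hS' i
  have hT : ∀ i, ∀ b ≤ n i, π (eF (blk n) (eT n i b)) = (φ i b + φ i b) + (∑ j, S j - S i) := by
    intro i b hb
    rw [ex_eT i hb, map_add, map_add, map_sub, map_sum, hφ', hS']
    congr 2
    exact Finset.sum_congr rfl fun j _ => hS' j
  have h3 : ∀ i, S i = e i + e i := by
    intro i
    have h4 := hrel (E := eT n i (r i)) (E' := eP n) (by
      rw [val_eT i (hB.rn i), val_eP, vT, vP, hB.hsg i]
      ring) (by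
      rw [Lat_gP, Lat_gT i (hB.rn i) fun hi => ?_]
      have := hB.r1 i hi
      omega)
    rw [hT i _ (hB.rn i), hP, he'] at h4
    have h5 : (e i + e i) - S i + ∑ j, S j = ∑ j, S j :=
      Eq.trans (by abel) h4
    have h6 := add_eq_right.1 h5
    exact (sub_eq_zero.1 h6).symm
  have h4 : ∑ i, e i = 0 := by
    obtain ⟨T, hTC⟩ := hB.C0
    have h5 := hrel (E := eM T) (E' := eP n) (by rw [(hCM T hTC).2.1, val_eP])
      (by rw [(hCM T hTC).2.2, Lat_gP])
    rw [hM T (hCM T hTC).1, hP] at h5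
    have h6 : ∑ i, φ i (T i) = ∑ i, e i := Finset.sum_congr rfl fun i _ =>
      h1 i _ (hB.C1 T hTC i).1 (hB.C1 T hTC i).2
    rw [h6, Finset.sum_congr rfl fun i _ => h3 i, Finset.sum_add_distrib] at h5
    exact left_eq_add.1 h5
  have hone : ∀ T : Fin d → ℕ, ∀ i, (∀ j, j ≠ i → (if j ∈ J then 1 else 0) ≤ T j ∧ T j ≤ r j) →
      ∑ k, φ k (T k) = φ i (T i) - e i := by
    intro T i h
    have h5 : ∑ k, (φ k (T k) - e k) = φ i (T i) - e i := by
      refine Finset.sum_eq_single i (fun k _ hk => ?_) fun h' => absurd (Finset.mem_univ i) h'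
      rw [h1 k _ (h k hk).1 (h k hk).2, sub_self]
    rw [Finset.sum_sub_distrib, h4, sub_zero] at h5
    exact h5
  -- the factors in `J`
  have h5 : ∀ i ∈ J, e i = e j0 := by
    intro i hi
    by_cases hij : i = j0
    · rw [hij]
    · obtain ⟨T, hTM, U, hUM, hT0, hU0, hT1, hU1, hv⟩ := hB.dn i hi j0 hj0 hij
      have h6 := hrel (E := eM T) (E' := eM U) (by rw [val_eM hTM, val_eM hUM, hv]) (by
        rw [Lat_gM2 hTM hi hT0 fun k hk hk' => ?_, Lat_gM2 hUM hj0 hU0 fun k hk hk' => ?_]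
        · have := (hU1 k hk').1
          rw [if_pos hk] at this
          omega
        · have := (hT1 k hk').1
          rw [if_pos hk] at this
          omega)
      rw [hM T hTM, hM U hUM, hone T i hT1, hone U j0 hU1, hT0, hU0, φ0, φ0, zero_sub,
        zero_sub] at h6
      exact neg_injective h6
  -- all labels
  have h6 : ∀ i b, 1 ≤ b → b ≤ n i → φ i b = e i := by
    intro i b hb hb'
    by_cases h7 : b ≤ r i
    · refine h1 i b ?_ h7
      split_ifs
      · exact hb
      · exact Nat.zero_le _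
    · obtain ⟨T, hTM, hTi, hT1, hv⟩ := hB.up i b (not_le.1 h7) hb'
      have h8 := hrel (E := eM T) (E' := eT n i b) (by rw [val_eM hTM, val_eT i hb', hv]) (by
        rw [Lat_gT i hb' fun _ => by omega, Lat_gM1 hTM]
        intro k hk
        by_cases hki : k = i
        · subst hki
          omega
        · have := (hT1 k hki).1
          rw [if_pos hk] at this
          omega)
      rw [hM T hTM, hT i b hb', hone T i hT1, hTi, Finset.sum_congr rfl fun i _ => h3 i,
        Finset.sum_add_distrib, h4, h3 i] at h8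
      have h9 : φ i b - e i = 0 := by
        have h10 : (φ i b - e i) + (φ i b - e i) = φ i b - e i :=
          Eq.trans (by abel) h8.symm
        exact add_eq_left.1 h10
      exact sub_eq_zero.1 h9
  obtain ⟨l0, hl0, hl0'⟩ : ∃ l0 : Un (Kx n) d, Dl n j0 (r j0) = Pi.single l0 (1 : ℤ) ∧
      fB n J l0 = 1 := by
    have h7 := hB.r1 j0 hj0
    have h8 := hB.rn j0
    refine ⟨.inl ⟨j0, ⟨r j0 - 1, by omega⟩⟩, ?_, if_pos hj0⟩
    have h9 := Dl_succ (n := n) j0 ⟨r j0 - 1, by omega⟩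
    rw [← h9]
    congr 1
    exact (Nat.sub_add_cancel h7).symm
  have h7 : ∀ l, π (Pi.single l (1 : ℤ)) = fB n J l • e j0 := by
    have h8 : ∀ i, e i = (if i ∈ J then (1 : ℤ) else 0) • e j0 := by
      intro i
      by_cases hi : i ∈ J
      · rw [if_pos hi, one_smul, h5 i hi]
      · rw [if_neg hi, zero_smul, h2 i hi]
    rintro (⟨i, l⟩ | i)
    · rw [← Dl_succ, hφ', h6 i _ (Nat.succ_le_succ (Nat.zero_le _)) l.2, h8 i]
      rfl
    · rw [hS', h3 i]
      have h9 : fB n J (.inr i) =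
          (if i ∈ J then (1 : ℤ) else 0) + if i ∈ J then (1 : ℤ) else 0 := by
        change (if i ∈ J then (2 : ℤ) else 0) = _
        split_ifs <;> norm_num
      rw [h9, add_zsmul, ← h8 i]
  have h8 : (J.card : ℤ) • e j0 = 0 := by
    have h9 : ∑ i, e i = (J.card : ℤ) • e j0 := by
      have h10 : ∀ i, e i = if i ∈ J then e j0 else 0 := by
        intro i
        by_cases hi : i ∈ J
        · rw [if_pos hi, h5 i hi]
        · rw [if_neg hi, h2 i hi]
      rw [Finset.sum_congr rfl fun i _ => h10 i, Finset.sum_ite_mem, Finset.univ_inter,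
        Finset.sum_const, natCast_zsmul]
    rw [← h9, h4]
  have hmem : ∀ v, π v = 0 → v ∈ GaS (eF (blk n)) lev (gB n J) := by
    intro v hv
    rw [hπ] at hv
    exact (QuotientAddGroup.eq_zero_iff _).1 hv
  have hl0e : π (Pi.single l0 (1 : ℤ)) = e j0 := by
    rw [← hl0, hφ', he']
  have h9 : ∀ l, (J.card : ℤ) • (Pi.single l (1 : ℤ) : Un (Kx n) d → ℤ) ∈
      GaS (eF (blk n)) lev (gB n J) := by
    intro l
    apply hmem
    rw [map_zsmul, h7, smul_comm, h8, smul_zero]
  have hm : 1 ≤ J.card := Finset.card_pos.2 hB.J0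
  have hm' : (J.card : ℤ) ≠ 0 := by exact_mod_cast (by omega : J.card ≠ 0)
  refine ⟨l0, hm, fun l => ⟨fB n J l, ?_⟩, ⟨fB n J, hl0', fun E E' hE => ?_⟩, ?_⟩
  · obtain ⟨c, c1, -, c2⟩ := hmem (Pi.single l (1 : ℤ) - fB n J l • Pi.single l0 (1 : ℤ)) (by
      rw [map_sub, map_zsmul, h7, hl0e, sub_self])
    refine ⟨c, c1, fun l' => ?_⟩
    rw [c2 l', Pi.sub_apply, Pi.smul_apply, Pi.single_apply, Pi.single_apply, smul_eq_mul]
  · have h10 := exact_g hG hL hm' h9 hE
    rw [gB, gB] at h10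
    have h11 : ∑ l, (eF (blk n) E l - eF (blk n) E' l) * fB n J l = (J.card : ℤ) *
        ((if moF (blk n) E' then 1 else 0) - if moF (blk n) E then 1 else 0) := by
      simp only [sub_mul, Finset.sum_sub_distrib, mul_sub, mul_ite, mul_one, mul_zero]
      linarith
    rw [h11]
    exact dvd_mul_right _ _
  · obtain ⟨c, c1, c2, c3⟩ := h9 l0
    refine ⟨c, c1, fun l' => ?_, fun _ => ?_⟩
    · rw [c3 l', Pi.smul_apply, Pi.single_apply, smul_eq_mul, mul_ite, mul_one, mul_zero]
    · have h10 : ∑ E, c E * gB n J E = ∑ l, (∑ E, c E * eF (blk n) E l) * fB n J l +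
          (J.card : ℤ) * ∑ E, (if moF (blk n) E then c E else 0) := by
        simp only [gB, mul_add, Finset.sum_add_distrib, Finset.mul_sum, Finset.sum_mul]
        congr 1
        · rw [Finset.sum_comm]
          exact Finset.sum_congr rfl fun l _ => Finset.sum_congr rfl fun E _ => by ring
        · exact Finset.sum_congr rfl fun E _ => by split_ifs <;> ring
      rw [c2, Finset.sum_congr rfl fun l _ => by rw [c3 l]] at h10
      have h11 : ∑ l, ((J.card : ℤ) • (Pi.single l0 (1 : ℤ) : Un (Kx n) d → ℤ)) l * fB n J l =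
          J.card := by
        rw [Finset.sum_eq_single l0]
        · rw [Pi.smul_apply, Pi.single_eq_same, hl0', smul_eq_mul, mul_one, mul_one]
        · intro l _ hl
          rw [Pi.smul_apply, Pi.single_eq_of_ne hl, smul_zero, zero_mul]
        · intro h
          exact absurd (Finset.mem_univ _) h
      rw [h11] at h10
      have h12 : (J.card : ℤ) * (1 + ∑ E, (if moF (blk n) E then c E else 0)) = 0 := by
        rw [mul_add, mul_one]
        exact h10.symm
      have h13 := (mul_eq_zero.1 h12).resolve_left hm'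
      have h14 : ∑ E, (if moF (blk n) E then c E else 0) = -1 := by linarith
      rw [h14]
      decide

/-- The second type. -/
theorem cyc_B (hG : Gen (hE n hh) (eF (blk n))) (hL : Lev (hE n hh) (eF (blk n)) w lev)
    (hB : ClsB n hh (lb w) (sgL w) r J) :
    ∃ (l0 : Un (Kx n) d) (m : ℕ), m ≤ d ∧ Cyc (eF (blk n)) lev (moF (blk n)) l0 m := by
  obtain ⟨l0, h⟩ := cyc_B1 hG hL hB
  exact ⟨l0, J.card, by simpa using Finset.card_le_univ J, h⟩

/-- The combinatorial condition follows from the classification of the flags. -/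
theorem cq_of (hd : 0 < d) (hG : Gen (hE n hh) (eF (blk n)))
    (hcls : ∀ (u : Fin d → ℕ → ℝ) (sg : Fin d → ℝ) (z : (Fin d → ℕ) → ℂ) (y : Fin d → ℕ → ℂ)
      (q : ℂ), LF n hh u sg z y q → ClsA n hh u sg ∨ ∃ r J, ClsB n hh u sg r J) :
    CQ d (vF (blk n)) (eF (blk n)) (hE n hh) (moF (blk n)) := by
  intro w lev ζ hL hζ hR _ _
  rcases hcls _ _ _ _ _ (lab hL hζ hR) with h | ⟨r, J, h⟩
  · exact cyc_A hd hL h
  · exact cyc_B hG hL h

end Pool.Agent.MPb0eA
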