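import Pool.Agent.Lib.MP_b0e20b_ag_A.ClsM
import Pool.Agent.Lib.MP_b0e20b_ag_A.Lat
import Pool.Agent.Lib.MP_b0e20b_ag_G.Asm

/-!
# MP_b0e20b_ag: from the classification of the flags to the cells
-/

set_option autoImplicit false

open scoped BigOperators

namespace Pool.Agent.MPb0eF

open MPb0eA (Pw Wp Mo vM vP Cf lb hE tup sgL LF ClsN ClsM Mx)
open MPb0eQ (blk Kx)

variable {d : ℕ} {n : Fin d → ℕ} {hh : (Fin d → ℕ) → ℝ}

/-- The classification of the flags in the label frame. -/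
def ClsH (n : Fin d → ℕ) (hh : (Fin d → ℕ) → ℝ) : Prop :=
  ∀ (u : Fin d → ℕ → ℝ) (s : Fin d → ℝ) (z : (Fin d → ℕ) → ℂ) (y : Fin d → ℕ → ℂ) (q : ℂ),
    LF n hh u s z y q → (∃ V, ClsN n hh u s V) ∨ ∃ r J, ClsM n hh u s r J

/-- The order of the cyclic quotient is determined. -/
theorem cyc_dvd {Ω Λ : Type} [Fintype Ω] [Fintype Λ] [DecidableEq Λ] {ex : Ω → Λ → ℤ}
    {lev : Ω → ℕ} {mo mo' : Ω → Bool} {l0 l0' : Λ} {m m' : ℕ} (h : Cyc ex lev mo l0 m)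
    (h' : Cyc ex lev mo' l0' m') : m ∣ m' := by
  obtain ⟨f, hf0, hf⟩ := h.inv
  -- the functional vanishes on the lattice modulo `m`
  have key : ∀ v : Λ → ℤ, InG ex lev v → ((∑ l, v l * f l : ℤ) : ZMod m) = 0 := by
    rintro v ⟨c, hc, hv⟩
    have h1 := MPb0eA.bsum_const (R := ZMod m) hc (f := fun E => ((∑ l, ex E l * f l : ℤ) : ZMod m))
      (fun E E' hE => by
        have h2 := hf E E' hE
        rw [← ZMod.intCast_zmod_eq_zero_iff_dvd] at h2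
        rw [← sub_eq_zero, ← Int.cast_sub, ← Finset.sum_sub_distrib, ← h2]
        congr 1
        exact Finset.sum_congr rfl fun l _ => by ring)
    have h2 : ∑ l, v l * f l = ∑ E, c E * ∑ l, ex E l * f l := by
      rw [Finset.sum_congr rfl fun E _ => Finset.mul_sum _ _ _, Finset.sum_comm]
      refine Finset.sum_congr rfl fun l _ => ?_
      rw [← hv l, Finset.sum_mul]
      exact Finset.sum_congr rfl fun E _ => by ring
    rw [h2, Int.cast_sum, ← h1]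
    exact Finset.sum_congr rfl fun E _ => by rw [Int.cast_mul]
  obtain ⟨a, ha⟩ := h'.gen l0
  obtain ⟨c, hc, hc', -⟩ := h'.ord
  have h1 := key _ ha
  have h2 := key _ ⟨c, hc, hc'⟩
  have h3 : ∑ l, ((if l = l0 then (1 : ℤ) else 0) - a * if l = l0' then 1 else 0) * f l =
      f l0 - a * f l0' := by
    simp [sub_mul, Finset.sum_sub_distrib, ite_mul]
  have h4 : ∑ l, (if l = l0' then (m' : ℤ) else 0) * f l = m' * f l0' := by
    simp [ite_mul]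
  rw [h3, hf0] at h1
  rw [h4] at h2
  have h5 : ((m' : ℤ) : ZMod m) = 0 := by
    have h6 : (m' : ℤ) = (m' : ℤ) * (1 - a * f l0') + a * (m' * f l0') := by ring
    rw [h6, Int.cast_add, Int.cast_mul, h1, mul_zero, Int.cast_mul, h2, mul_zero, add_zero]
  rw [ZMod.intCast_zmod_eq_zero_iff_dvd] at h5
  exact Int.natCast_dvd_natCast.1 h5

theorem cel_N {u : Fin d → ℕ → ℝ} {s : Fin d → ℝ} {V : ℝ} (hN : ClsN n hh u s V) :
    IsCel n (∅, n, Cf n hh u V) := by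
  obtain ⟨lam, h1, h2⟩ := hN.wp
  refine Or.inl ⟨rfl, rfl, hN.pw, fun T hT i => ⟨Nat.zero_le _, ?_⟩, fun i b _ hb =>
    hN.used i b hb, lam, h2, h1⟩
  exact (MPb0eA.mem_Mo.1 (MPb0eA.mem_Cf.1 hT).1).2 i

theorem cel_M {u : Fin d → ℕ → ℝ} {s : Fin d → ℝ} {r : Fin d → ℕ} {J : Finset (Fin d)}
    (hM : ClsM n hh u s r J) : IsCel n (J, r, Cf n hh u (vP s)) := by
  obtain ⟨lam, h1, h2⟩ := hM.wp
  exact Or.inr ⟨hM.J0.ne_empty, hM.r1, hM.rn, hM.pw, hM.C1, hM.used, lam, h2, h1⟩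

/-- The top value is determined. -/
theorem top_uniq {u : Fin d → ℕ → ℝ} {V V' : ℝ} (h : ∀ T ∈ Mo n, vM hh u T ≤ V)
    (h' : ∀ T ∈ Mo n, vM hh u T ≤ V') (hne : (Cf n hh u V).Nonempty)
    (hne' : (Cf n hh u V').Nonempty) : V = V' := by
  obtain ⟨T, hT⟩ := hne
  obtain ⟨T', hT'⟩ := hne'
  obtain ⟨h1, h2⟩ := MPb0eA.mem_Cf.1 hT
  obtain ⟨h1', h2'⟩ := MPb0eA.mem_Cf.1 hT'
  have h3 := h T' h1'
  have h4 := h' T h1
  rw [h2'] at h3
  rw [h2] at h4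
  exact le_antisymm h4 h3

/-- Every flag belongs to a cell. -/
theorem hcl (hd : 0 < d) (hG : Gen (hE n hh) (eF (blk n))) (hcls : ClsH n hh) :
    ∀ w m, Ty (vF (blk n)) (eF (blk n)) (hE n hh) (moF (blk n)) w m →
      ∃ c, IsCel n c ∧ Tp n hh w c ∧ m ≤ mu c := by
  rintro w m ⟨lev, ζ, l0, hL, hζ, hR, -, -, hC⟩
  rcases hcls _ _ _ _ _ (MPb0eA.lab hL hζ hR) with ⟨V, hN⟩ | ⟨r, J, hM⟩
  · refine ⟨(∅, n, Cf n hh (lb w) V), cel_N hN, ⟨V, hN.top, rfl⟩, ?_⟩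
    obtain ⟨l1, h1⟩ := MPb0eA.cyc_A1 hd hL hN.toA
    rw [mu, if_pos rfl]
    exact Nat.le_of_dvd one_pos (cyc_dvd hC h1)
  · refine ⟨(J, r, Cf n hh (lb w) (vP (sgL w))), cel_M hM, ⟨_, hM.top, rfl⟩, ?_⟩
    obtain ⟨l1, h1⟩ := MPb0eA.cyc_B1 hG hL hM.toB
    rw [mu, if_neg hM.J0.ne_empty]
    exact Nat.le_of_dvd (Finset.card_pos.2 hM.J0) (cyc_dvd hC h1)

/-- The exponents are determined by the labels and by the exponents of the `s i`. -/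
theorem eq_of_lb {w w' : Un (Kx n) d → ℝ} (h : ∀ i, ∀ b ≤ n i, lb w i b = lb w' i b)
    (h' : sgL w = sgL w') : w = w' := by
  funext l
  rcases l with ⟨i, l⟩ | i
  · have h1 := h i ((l : ℕ) + 1) l.2
    rw [MPb0eA.lb_succ, MPb0eA.lb_succ] at h1
    exact h1
  · exact congrFun h' i

/-- The cell determines the exponents. -/
theorem hun (hcls : ClsH n hh) :
    ∀ w w' m m' c, IsCel n c → Ty (vF (blk n)) (eF (blk n)) (hE n hh) (moF (blk n)) w m →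
      Ty (vF (blk n)) (eF (blk n)) (hE n hh) (moF (blk n)) w' m' → Tp n hh w c → Tp n hh w' c →
      w = w' := by
  intro w w' m m' c hc hT hT' hw hw'
  obtain ⟨V₀, hV₀, hC₀⟩ := hw
  obtain ⟨V₁, hV₁, hC₁⟩ := hw'
  -- the cells of `w` and of `w'`
  have key : ∀ (w : Un (Kx n) d → ℝ) (m : ℕ) (V : ℝ),
      Ty (vF (blk n)) (eF (blk n)) (hE n hh) (moF (blk n)) w m →
      (∀ T ∈ Mo n, vM hh (lb w) T ≤ V) → Cf n hh (lb w) V = c.2.2 →
      (c.1 = ∅ ∧ ClsN n hh (lb w) (sgL w) V) ∨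
        (c.1 ≠ ∅ ∧ V = vP (sgL w) ∧ ClsM n hh (lb w) (sgL w) c.2.1 c.1) := by
    rintro w m V ⟨lev, ζ, l0, hL, hζ, hR, -, -, -⟩ hV hC
    rcases hcls _ _ _ _ _ (MPb0eA.lab hL hζ hR) with ⟨V', hN⟩ | ⟨r, J, hM⟩
    · have h1 := cel_N hN
      have h2 : V = V' := top_uniq hV hN.top (hC.symm ▸ hc.ne) h1.ne
      subst h2
      have h3 := cel_inj h1 hc hC h1.ne
      refine Or.inl ⟨?_, hN⟩
      rw [← h3]
    · have h1 := cel_M hM
      have h2 : V = vP (sgL w) := top_uniq hV hM.top (hC.symm ▸ hc.ne) h1.ne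
      subst h2
      have h3 := cel_inj h1 hc hC h1.ne
      subst h3
      exact Or.inr ⟨hM.J0.ne_empty, rfl, hM⟩
  have h0 : ∀ i, lb w i 0 = lb w' i 0 := fun i => by rw [MPb0eA.lb_zero, MPb0eA.lb_zero]
  rcases key w m V₀ hT hV₀ hC₀ with ⟨h1, h2⟩ | ⟨h1, h2, h3⟩ <;>
    rcases key w' m' V₁ hT' hV₁ hC₁ with ⟨h1', h2'⟩ | ⟨h1', h2', h3'⟩
  · obtain ⟨h4, h5⟩ := h2.inj h2' (hC₀.trans hC₁.symm) h0
    exact eq_of_lb h4 h5
  · exact absurd h1 h1'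
  · exact absurd h1' h1
  · subst h2 h2'
    obtain ⟨h4, h5⟩ := h3.inj h3' (hC₀.trans hC₁.symm) h0
    exact eq_of_lb h4 h5

end Pool.Agent.MPb0eF
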