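import Pool.Agent.Lib.MP_b0e20b_ag_A.ClA
import Pool.Agent.Lib.MP_b0e20b_ag_A.ClB
import Pool.Agent.Lib.MP_b0e20b_ag_A.Hcl

/-!
# MP_b0e20b_ag: the classification of the flags
-/

set_option autoImplicit false

open scoped BigOperators

namespace Pool.Agent.MPb0eF

open MPb0eA (Mo vM LF ClsN ClsM Hx hE)
open MPb0eQ (blk Kx)

variable {d : ℕ} {n : Fin d → ℕ} {hh : (Fin d → ℕ) → ℝ} {H c : ℝ}

/-- The classification of the flags. -/
theorem clsH (hx : Hx n hh H c) (hn : ∀ i, 1 ≤ n i) (hd : 0 < d) : ClsH n hh := by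
  intro u s z y q hL
  obtain ⟨T₀, hT₀, -⟩ := MPb0eA.exists_Mo (n := n) (i := ⟨0, hd⟩) one_ne_zero (hn ⟨0, hd⟩)
  obtain ⟨T, hT, hmax⟩ := Finset.exists_max_image (Mo n) (fun T => vM hh u T) ⟨T₀, hT₀⟩
  by_cases hex : ∃ i, ∃ b ≤ n i, MPb0eA.vT u s i b = vM hh u T
  · obtain ⟨r, J, -, hM⟩ := hL.clB hx hn hd hmax (hL.vP_top hx hd hn hmax)
      (fun i b hb => hL.vT_top hx hd hn hmax i hb) hex
    exact Or.inr ⟨r, J, hM⟩
  · refine Or.inl ⟨_, hL.clsN hx hn hmax ⟨T, hT, rfl⟩ fun i b hb => ?_⟩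
    simp only [not_exists, not_and] at hex
    exact lt_of_le_of_ne (hL.vT_top hx hd hn hmax i hb) (hex i b hb)

/-- The combinatorial condition for the flat heights. -/
theorem cq (hx : Hx n hh H c) (hn : ∀ i, 1 ≤ n i) (hd : 0 < d) (hG : Gen (hE n hh) (eF (blk n))) :
    CQ d (vF (blk n)) (eF (blk n)) (hE n hh) (moF (blk n)) := by
  refine MPb0eA.cq_of hd hG fun u s z y q hL => ?_
  rcases clsH hx hn hd u s z y q hL with ⟨V, hN⟩ | ⟨r, J, hM⟩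
  · exact Or.inl hN.toA
  · exact Or.inr ⟨r, J, hM.toB⟩

end Pool.Agent.MPb0eF
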