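import Pool.Agent.Lib.MP_b0e20b_ag_A.AltD

/-!
# MP_b0e20b_ag, block A: the flags of the flat heights, label frame (definitions)

The coordinates of the factor `i` are the labels `1, ..., n i`, the label `0` means that the factor
does not occur. A nonempty monomial is a nonzero tuple `T` with `T i ≤ n i`. `u i b` is the growth
exponent of the coordinate `b` of the factor `i` (`u i 0 = 0`) and `sg i` the growth exponent of
`s i`. The elements `t (i, b)` are `t k` for `b ≠ 0` and `t' i` for `b = 0`.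
-/

set_option autoImplicit false

open scoped BigOperators

namespace Pool.Agent.MPb0eA

variable {d : ℕ}

/-- The tuples of the nonempty monomials. -/
def Mo (n : Fin d → ℕ) : Finset (Fin d → ℕ) :=
  (Fintype.piFinset fun i => Finset.range (n i + 1)).erase 0

theorem mem_Mo {n T : Fin d → ℕ} : T ∈ Mo n ↔ T ≠ 0 ∧ ∀ i, T i ≤ n i := by
  rw [Mo, Finset.mem_erase, Fintype.mem_piFinset]
  simp only [Finset.mem_range, Nat.lt_succ_iff]

/-- The value of a monomial. -/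
noncomputable def vM (h : (Fin d → ℕ) → ℝ) (u : Fin d → ℕ → ℝ) (T : Fin d → ℕ) : ℝ :=
  h T + ∑ i, u i (T i)

/-- The value of the element `t (i, b)`. -/
noncomputable def vT (u : Fin d → ℕ → ℝ) (sg : Fin d → ℝ) (i : Fin d) (b : ℕ) : ℝ :=
  2 * u i b + (∑ j, sg j - sg i)

/-- The value of the element `p`. -/
noncomputable def vP (sg : Fin d → ℝ) : ℝ := ∑ j, sg j

/-- A flag in the label frame: `z T`, `y i b`, `q` are the leading coefficients of the monomials, of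
`t (i, b)` and of `p`. The form with the coefficients `φ i b` (at the coordinates) and `ψ i` (at the
relations of `s i`) has the value `∑ i, φ i (T i)` at the monomial `T`, the value `ψ i - φ i b` at
`t (i, b)` and the value `- ∑ i, ψ i` at `p`. -/
structure LF (n : Fin d → ℕ) (h : (Fin d → ℕ) → ℝ) (u : Fin d → ℕ → ℝ) (sg : Fin d → ℝ)
    (z : (Fin d → ℕ) → ℂ) (y : Fin d → ℕ → ℂ) (q : ℂ) : Prop where
  u0 : ∀ i, u i 0 = 0
  z0 : ∀ T ∈ Mo n, z T ≠ 0
  y0 : ∀ i, ∀ b ≤ n i, y i b ≠ 0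
  q0 : q ≠ 0
  rel : ∀ (φ : Fin d → ℕ → ℚ) (ψ : Fin d → ℚ) (X : ℝ), (∀ i, φ i 0 = 0) →
    (∀ T ∈ Mo n, X < vM h u T → ∑ i, φ i (T i) = 0) →
    (∀ i, ∀ b ≤ n i, X < vT u sg i b → ψ i = φ i b) →
    (X < vP sg → ∑ i, ψ i = 0) →
    ∑ T ∈ (Mo n).filter (fun T => vM h u T = X), z T * ((∑ i, φ i (T i) : ℚ) : ℂ) +
      ∑ i, ∑ b ∈ (Finset.range (n i + 1)).filter (fun b => vT u sg i b = X),
        y i b * ((ψ i - φ i b : ℚ) : ℂ) -
      (if vP sg = X then q * ((∑ i, ψ i : ℚ) : ℂ) else 0) = 0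

/-- The family of the monomials with value `V`. -/
noncomputable def Cf (n : Fin d → ℕ) (h : (Fin d → ℕ) → ℝ) (u : Fin d → ℕ → ℝ) (V : ℝ) :
    Finset (Fin d → ℕ) := (Mo n).filter fun T => vM h u T = V

/-- The family `C` determines the labels between `lo` and `r`: a function which is a sum over the
factors and constant on `C` does not depend on these labels. -/
def Con (C : Finset (Fin d → ℕ)) (lo r : Fin d → ℕ) : Prop :=
  ∀ (G : Type) [AddCommGroup G] (φ : Fin d → ℕ → G),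
    (∀ T ∈ C, ∀ U ∈ C, ∑ i, φ i (T i) = ∑ i, φ i (U i)) →
      ∀ i b, lo i ≤ b → b ≤ r i → φ i b = φ i (r i)

/-- The first type of flags: Nash cores. -/
structure ClsA (n : Fin d → ℕ) (h : (Fin d → ℕ) → ℝ) (u : Fin d → ℕ → ℝ) (sg : Fin d → ℝ) : Prop
    where
  hsg : ∀ i, sg i = 2 * u i (n i)
  con : ∃ V, Con (Cf n h u V) 0 n

/-- The second type of flags. -/
structure ClsB (n : Fin d → ℕ) (h : (Fin d → ℕ) → ℝ) (u : Fin d → ℕ → ℝ) (sg : Fin d → ℝ)
    (r : Fin d → ℕ) (J : Finset (Fin d)) : Prop where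
  J0 : J.Nonempty
  r1 : ∀ i ∈ J, 1 ≤ r i
  rn : ∀ i, r i ≤ n i
  hsg : ∀ i, sg i = 2 * u i (r i)
  C0 : (Cf n h u (vP sg)).Nonempty
  C1 : ∀ T ∈ Cf n h u (vP sg), ∀ i, (if i ∈ J then 1 else 0) ≤ T i ∧ T i ≤ r i
  con : Con (Cf n h u (vP sg)) (fun i => if i ∈ J then 1 else 0) r
  up : ∀ i b, r i < b → b ≤ n i → ∃ T ∈ Mo n, T i = b ∧
    (∀ j, j ≠ i → (if j ∈ J then 1 else 0) ≤ T j ∧ T j ≤ r j) ∧ vM h u T = vT u sg i b
  dn : ∀ i ∈ J, ∀ j ∈ J, i ≠ j → ∃ T ∈ Mo n, ∃ U ∈ Mo n, T i = 0 ∧ U j = 0 ∧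
    (∀ k, k ≠ i → (if k ∈ J then 1 else 0) ≤ T k ∧ T k ≤ r k) ∧
    (∀ k, k ≠ j → (if k ∈ J then 1 else 0) ≤ U k ∧ U k ≤ r k) ∧ vM h u T = vM h u U

end Pool.Agent.MPb0eA
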