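import Pool.Agent.Lib.MP_b0e20b_ag_A.LabD
import Pool.Agent.Lib.MP_b0e20b_ag_A.AltX
import Pool.Agent.Lib.MP_b0e20b_ag_A.AltQ

/-!
# MP_b0e20b_ag, block A: values of the monomials, exchange, the rows of a flag
-/

set_option autoImplicit false

open scoped BigOperators

namespace Pool.Agent.MPb0eA

variable {d : ℕ} {n : Fin d → ℕ} {h : (Fin d → ℕ) → ℝ} {H c V : ℝ} {u : Fin d → ℕ → ℝ}
  {s : Fin d → ℝ} {z : (Fin d → ℕ) → ℂ} {y : Fin d → ℕ → ℂ} {q : ℂ}

/-- Heights in the box `n`: flat, decreasing, with strict exchange. -/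
structure Hx (n : Fin d → ℕ) (h : (Fin d → ℕ) → ℝ) (H c : ℝ) : Prop where
  pos : 0 < c
  flat : 20 * ((d : ℝ) + 1) * c < H
  near : ∀ T ∈ Mo n, |h T - H| ≤ c
  dec : ∀ T ∈ Mo n, ∀ U ∈ Mo n, (∀ i, T i ≤ U i) → T ≠ U → h U < h T
  exc : ∀ T ∈ Mo n, ∀ U ∈ Mo n, ¬ Alt T U → ∀ V ∈ Mo n, ∀ W ∈ Mo n, Exc T U V W → Alt V W →
    h T + h U < h V + h W

/-- `T` has the largest value among the monomials with the same coordinate `i`. -/
def Mx (n : Fin d → ℕ) (h : (Fin d → ℕ) → ℝ) (u : Fin d → ℕ → ℝ) (i : Fin d) (T : Fin d → ℕ) :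
    Prop := T ∈ Mo n ∧ ∀ U ∈ Mo n, U i = T i → vM h u U ≤ vM h u T

theorem mem_Cf {T : Fin d → ℕ} : T ∈ Cf n h u V ↔ T ∈ Mo n ∧ vM h u T = V := by
  rw [Cf, Finset.mem_filter]

/-- Exchange for the values. -/
theorem Hx.ex (hx : Hx n h H c) (u : Fin d → ℕ → ℝ) {T U : Fin d → ℕ} (hT : T ∈ Mo n)
    (hU : U ∈ Mo n) (ha : ¬ Alt T U) : ∃ V ∈ Mo n, ∃ W ∈ Mo n, Exc T U V W ∧
      vM h u T + vM h u U < vM h u V + vM h u W := by
  obtain ⟨V, W, he, hal⟩ := exists_alt T U
  obtain ⟨hT0, hTn⟩ := mem_Mo.1 hT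
  obtain ⟨hU0, hUn⟩ := mem_Mo.1 hU
  obtain ⟨h1, h2⟩ := he.le hTn hUn
  obtain ⟨h3, h4⟩ := he.ne_zero hal hT0 hU0
  have hV := mem_Mo.2 ⟨h3, h1⟩
  have hW := mem_Mo.2 ⟨h4, h2⟩
  refine ⟨V, hV, W, hW, he, ?_⟩
  have h5 := hx.exc T hT U hU ha V hV W hW he hal
  have h6 : ∑ i, u i (T i) + ∑ i, u i (U i) = ∑ i, u i (V i) + ∑ i, u i (W i) := by
    rw [← Finset.sum_add_distrib, ← Finset.sum_add_distrib]
    refine Finset.sum_congr rfl fun i _ => ?_
    rcases he i with ⟨h7, h8⟩ | ⟨h7, h8⟩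
    · rw [h7, h8]
    · rw [h7, h8, add_comm]
  unfold vM
  linarith

/-- Change of one coordinate. -/
theorem vM_update (T : Fin d → ℕ) (i : Fin d) (b : ℕ) :
    vM h u (Function.update T i b) = vM h u T + (h (Function.update T i b) - h T) +
      (u i b - u i (T i)) := by
  have h1 : ∑ j, u j (Function.update T i b j) = ∑ j, u j (T j) + (u i b - u i (T i)) := by
    rw [← Finset.add_sum_erase _ _ (Finset.mem_univ i), ← Finset.add_sum_erase _
      (fun j => u j (T j)) (Finset.mem_univ i), Function.update_self]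
    have h2 : ∑ j ∈ Finset.univ.erase i, u j (Function.update T i b j) =
        ∑ j ∈ Finset.univ.erase i, u j (T j) :=
      Finset.sum_congr rfl fun j hj => by rw [Function.update_of_ne (Finset.ne_of_mem_erase hj)]
    rw [h2]
    ring
  unfold vM
  rw [h1]
  ring

theorem update_mem {T : Fin d → ℕ} (hT : T ∈ Mo n) {i : Fin d} {b : ℕ} (hb : b ≤ n i)
    (h0 : b ≠ 0 ∨ ∃ j, j ≠ i ∧ T j ≠ 0) : Function.update T i b ∈ Mo n := by
  refine mem_Mo.2 ⟨fun h1 => ?_, fun j => ?_⟩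
  · rcases h0 with h0 | ⟨j, hj, hj'⟩
    · apply h0
      have h2 := congrFun h1 i
      rw [Function.update_self] at h2
      exact h2
    · apply hj'
      have h2 := congrFun h1 j
      rw [Function.update_of_ne hj] at h2
      exact h2
  · by_cases hj : j = i
    · subst hj
      rw [Function.update_self]
      exact hb
    · rw [Function.update_of_ne hj]
      exact (mem_Mo.1 hT).2 j

/-- The value of a changed monomial. -/
theorem Hx.upd_le (hx : Hx n h H c) {T : Fin d → ℕ} (hT : T ∈ Mo n) {i : Fin d} {b : ℕ}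
    (hb : b ≤ n i) (h0 : b ≠ 0 ∨ ∃ j, j ≠ i ∧ T j ≠ 0) :
    vM h u T - 2 * c + (u i b - u i (T i)) ≤ vM h u (Function.update T i b) := by
  have h1 := abs_le.1 (hx.near T hT)
  have h2 := abs_le.1 (hx.near _ (update_mem hT hb h0))
  rw [vM_update]
  linarith

/-- Lowering a coordinate. -/
theorem Hx.upd_lt (hx : Hx n h H c) {T : Fin d → ℕ} (hT : T ∈ Mo n) {i : Fin d} {b : ℕ}
    (hb : b < T i) (h0 : b ≠ 0 ∨ ∃ j, j ≠ i ∧ T j ≠ 0) :
    vM h u T + (u i b - u i (T i)) < vM h u (Function.update T i b) := by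
  have hbn : b ≤ n i := hb.le.trans ((mem_Mo.1 hT).2 i)
  have h1 := hx.dec _ (update_mem hT hbn h0) T hT (fun j => by
    by_cases hj : j = i
    · subst hj
      rw [Function.update_self]
      exact hb.le
    · rw [Function.update_of_ne hj]) (fun h1 => by
      have h2 := congrFun h1 i
      rw [Function.update_self] at h2
      omega)
  rw [vM_update]
  linarith

theorem exists_Mo {i : Fin d} {b : ℕ} (hb : b ≠ 0) (hbn : b ≤ n i) : ∃ T ∈ Mo n, T i = b := by
  refine ⟨Pi.single i b, mem_Mo.2 ⟨fun h1 => ?_, fun j => ?_⟩, by simp⟩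
  · have h2 := congrFun h1 i
    rw [Pi.single_eq_same] at h2
    exact hb h2
  · by_cases hj : j = i
    · subst hj
      rw [Pi.single_eq_same]
      exact hbn
    · rw [Pi.single_eq_of_ne hj]
      exact Nat.zero_le _

theorem exists_Mo0 {i j : Fin d} (hij : i ≠ j) (hn : 1 ≤ n j) : ∃ T ∈ Mo n, T i = 0 := by
  refine ⟨Pi.single j 1, mem_Mo.2 ⟨fun h1 => ?_, fun k => ?_⟩, by simp [hij]⟩
  · have h2 := congrFun h1 j
    rw [Pi.single_eq_same] at h2
    exact one_ne_zero h2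
  · by_cases hj : k = j
    · subst hj
      rw [Pi.single_eq_same]
      exact hn
    · rw [Pi.single_eq_of_ne hj]
      exact Nat.zero_le _

/-- A monomial of maximal value in its class. -/
theorem exists_Mx {i : Fin d} {b : ℕ} (hex : ∃ T ∈ Mo n, T i = b) :
    ∃ T, T i = b ∧ Mx n h u i T := by
  obtain ⟨T₀, hT₀, hb⟩ := hex
  obtain ⟨T, hT, hmax⟩ := Finset.exists_max_image ((Mo n).filter fun T => T i = b)
    (fun T => vM h u T) ⟨T₀, Finset.mem_filter.2 ⟨hT₀, hb⟩⟩
  obtain ⟨h1, h2⟩ := Finset.mem_filter.1 hT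
  exact ⟨T, h2, h1, fun U hU hUT => hmax U (Finset.mem_filter.2 ⟨hU, hUT.trans h2⟩)⟩

/-- A monomial of maximal value in its class alternates with the monomials of top value. -/
theorem Mx.alt (hx : Hx n h H c) (hV : ∀ T ∈ Mo n, vM h u T ≤ V) {i : Fin d} {T : Fin d → ℕ}
    (hT : Mx n h u i T) {S : Fin d → ℕ} (hS : S ∈ Cf n h u V) : Alt T S := by
  by_contra hcon
  obtain ⟨hS1, hS2⟩ := mem_Cf.1 hS
  obtain ⟨V', hV', W', hW', he, hlt⟩ := hx.ex u hT.1 hS1 hcon
  rcases he i with ⟨h1, _⟩ | ⟨_, h1⟩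
  · have h2 := hT.2 V' hV' h1
    have h3 := hV W' hW'
    linarith
  · have h2 := hT.2 W' hW' h1
    have h3 := hV V' hV'
    linarith

/-- Two monomials of maximal value in the same class alternate. -/
theorem Mx.alt2 (hx : Hx n h H c) {i : Fin d} {T U : Fin d → ℕ} (hT : Mx n h u i T)
    (hU : Mx n h u i U) (hTU : T i = U i) : Alt T U := by
  by_contra hcon
  obtain ⟨V', hV', W', hW', he, hlt⟩ := hx.ex u hT.1 hU.1 hcon
  have h1 : vM h u T = vM h u U := le_antisymm (hU.2 T hT.1 hTU) (hT.2 U hU.1 hTU.symm)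
  have h2 : V' i = T i ∧ W' i = T i := by
    rcases he i with ⟨h1, h2⟩ | ⟨h1, h2⟩
    · exact ⟨h1, h2.trans hTU.symm⟩
    · exact ⟨h1.trans hTU.symm, h2⟩
  have h3 := hT.2 V' hV' h2.1
  have h4 := hT.2 W' hW' h2.2
  linarith

/-- The monomials of top value alternate. -/
theorem Cf.pw (hx : Hx n h H c) (hV : ∀ T ∈ Mo n, vM h u T ≤ V) : Pw (Cf n h u V) := by
  intro T hT U hU
  by_contra hcon
  obtain ⟨hT1, hT2⟩ := mem_Cf.1 hT
  obtain ⟨hU1, hU2⟩ := mem_Cf.1 hU
  obtain ⟨V', hV', W', hW', _, hlt⟩ := hx.ex u hT1 hU1 hcon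
  have h3 := hV V' hV'
  have h4 := hV W' hW'
  linarith

/-- Two monomials of maximal value in a class which is not used by the top level, whose other
coordinates are used, are equal. -/
theorem Mx.uniq (hx : Hx n h H c) (hV : ∀ T ∈ Mo n, vM h u T ≤ V) {lam : (Fin d → ℕ) → ℝ}
    {p : Fin d → ℕ} (hw : Wp (Cf n h u V) lam p)
    (hp : (∀ T ∈ Cf n h u V, ∀ i, T i ≤ p i) ∨ ∀ i, p i = 0) {i : Fin d} {T U : Fin d → ℕ}
    (hT : Mx n h u i T) (hU : Mx n h u i U) (hTU : T i = U i)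
    (hi : ∀ S ∈ Cf n h u V, S i ≠ T i)
    (hk : ∀ k, k ≠ i → (∃ S ∈ Cf n h u V, S k = T k) ∧ ∃ S ∈ Cf n h u V, S k = U k) : T = U := by
  refine hw.uniq (Cf.pw hx hV) hp (fun h1 => hi T h1 rfl) (fun h1 => hi U h1 hTU.symm)
    (fun S hS => hT.alt hx hV hS) (fun S hS => hU.alt hx hV hS) (hT.alt2 hx hU hTU) fun k => ?_
  by_cases hki : k = i
  · subst hki
    exact Or.inl hTU
  · exact Or.inr (hk k hki)

/-- The row of the coordinate `(i, b)`. -/
theorem LF.row (hL : LF n h u s z y q) {i : Fin d} {b : ℕ} (hb : b ≠ 0) (hbn : b ≤ n i) {X : ℝ}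
    (h1 : ∀ T ∈ Mo n, T i = b → vM h u T ≤ X) (h2 : vT u s i b ≤ X) :
    ∑ T ∈ (Mo n).filter (fun T => vM h u T = X ∧ T i = b), z T =
      if vT u s i b = X then y i b else 0 := by
  classical
  have h3 := hL.rel (fun j b' => if j = i ∧ b' = b then 1 else 0) 0 X
    (fun j => if_neg fun h4 => hb h4.2.symm) (fun T hT hlt => by
      rw [Finset.sum_eq_single i]
      · rw [if_neg]
        rintro ⟨_, h5⟩
        exact absurd (h1 T hT h5) (not_le.2 hlt)
      · intro j _ hj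
        exact if_neg fun h5 => hj h5.1
      · intro h5
        exact absurd (Finset.mem_univ i) h5) (fun j b' _ hlt => by
      rw [Pi.zero_apply]
      symm
      refine if_neg ?_
      rintro ⟨rfl, rfl⟩
      exact absurd h2 (not_le.2 hlt)) (fun _ => by simp)
  have h4 : ∀ T : Fin d → ℕ, (∑ j, (if j = i ∧ T j = b then (1 : ℚ) else 0)) =
      if T i = b then 1 else 0 := by
    intro T
    rw [Finset.sum_eq_single i]
    · simp
    · intro j _ hj
      exact if_neg fun h5 => hj h5.1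
    · intro h5
      exact absurd (Finset.mem_univ i) h5
  have h5 : ∑ T ∈ (Mo n).filter (fun T => vM h u T = X),
      z T * ((∑ j, (if j = i ∧ T j = b then (1 : ℚ) else 0) : ℚ) : ℂ) =
      ∑ T ∈ (Mo n).filter (fun T => vM h u T = X ∧ T i = b), z T := by
    rw [← Finset.filter_filter, Finset.sum_filter (s := (Mo n).filter fun T => vM h u T = X)]
    refine Finset.sum_congr rfl fun T _ => ?_
    rw [h4]
    split_ifs <;> simp
  have h6 : ∑ j, ∑ b' ∈ (Finset.range (n j + 1)).filter (fun b' => vT u s j b' = X),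
      y j b' * (((0 : Fin d → ℚ) j - (if j = i ∧ b' = b then (1 : ℚ) else 0) : ℚ) : ℂ) =
      -(if vT u s i b = X then y i b else 0) := by
    rw [Finset.sum_eq_single i]
    · rw [Finset.sum_filter, Finset.sum_eq_single b]
      · by_cases h7 : vT u s i b = X
        · rw [if_pos h7, if_pos h7]
          simp
        · rw [if_neg h7, if_neg h7]
          simp
      · intro b' _ hb'
        split_ifs with h7 h8
        · exact absurd h8.2 hb'
        · simp
        · rfl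
      · intro h7
        exact absurd (Finset.mem_range.2 (by omega)) h7
    · intro j _ hj
      refine Finset.sum_eq_zero fun b' _ => ?_
      rw [if_neg fun h7 => hj h7.1]
      simp
    · intro h7
      exact absurd (Finset.mem_univ i) h7
  have h7 : (if vP s = X then q * ((∑ j, (0 : Fin d → ℚ) j : ℚ) : ℂ) else 0) = 0 := by
    split_ifs <;> simp
  rw [h5, h6, h7, sub_zero, ← sub_eq_add_neg, sub_eq_zero] at h3
  exact h3

/-- The row of `s i`. -/
theorem LF.rowS (hL : LF n h u s z y q) (i : Fin d) {X : ℝ}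
    (h1 : ∀ b ≤ n i, vT u s i b ≤ X) (h2 : vP s ≤ X) :
    ∑ b ∈ (Finset.range (n i + 1)).filter (fun b => vT u s i b = X), y i b =
      if vP s = X then q else 0 := by
  classical
  have h3 := hL.rel 0 (Pi.single i 1) X (fun j => rfl) (fun T hT hlt => by simp)
    (fun j b' hb' hlt => by
      by_cases hj : j = i
      · subst hj
        exact absurd (h1 b' hb') (not_le.2 hlt)
      · rw [Pi.single_eq_of_ne hj]
        rfl) (fun hlt => absurd h2 (not_le.2 hlt))
  have h4 : ∑ T ∈ (Mo n).filter (fun T => vM h u T = X),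
      z T * ((∑ j, (0 : Fin d → ℕ → ℚ) j (T j) : ℚ) : ℂ) = 0 :=
    Finset.sum_eq_zero fun T _ => by simp
  have h5 : ∑ j, ∑ b' ∈ (Finset.range (n j + 1)).filter (fun b' => vT u s j b' = X),
      y j b' * (((Pi.single i 1 : Fin d → ℚ) j - (0 : Fin d → ℕ → ℚ) j b' : ℚ) : ℂ) =
      ∑ b ∈ (Finset.range (n i + 1)).filter (fun b => vT u s i b = X), y i b := by
    rw [Finset.sum_eq_single i]
    · refine Finset.sum_congr rfl fun b' _ => ?_
      rw [Pi.single_eq_same]
      simp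
    · intro j _ hj
      refine Finset.sum_eq_zero fun b' _ => ?_
      rw [Pi.single_eq_of_ne hj]
      simp
    · intro h7
      exact absurd (Finset.mem_univ i) h7
  have h6 : (if vP s = X then q * ((∑ j, (Pi.single i 1 : Fin d → ℚ) j : ℚ) : ℂ) else 0) =
      if vP s = X then q else 0 := by
    rw [Finset.sum_pi_single' i (1 : ℚ)]
    simp
  rw [h4, h5, h6, zero_add, sub_eq_zero] at h3
  exact h3

end Pool.Agent.MPb0eA
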