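import Pool.Agent.Lib.MP_b0e20b_ag_A.Val

/-!
# MP_b0e20b_ag, block A: the top value of a flag
-/

set_option autoImplicit false

open scoped BigOperators

namespace Pool.Agent.MPb0eA

variable {d : ℕ} {n : Fin d → ℕ} {h : (Fin d → ℕ) → ℝ} {H c V : ℝ} {u : Fin d → ℕ → ℝ}
  {s : Fin d → ℝ} {z : (Fin d → ℕ) → ℂ} {y : Fin d → ℕ → ℂ} {q : ℂ}

private theorem Val0_sum (i j : Fin d) (g : Fin d → ℚ) :
    ∑ k, g k * ((Pi.single i 1 : Fin d → ℚ) k - (Pi.single j 1 : Fin d → ℚ) k) = g i - g j := by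
  have h1 : ∀ i : Fin d, ∑ k, g k * (Pi.single i 1 : Fin d → ℚ) k = g i := by
    intro i
    rw [Finset.sum_eq_single i]
    · rw [Pi.single_eq_same, mul_one]
    · intro k _ hk
      rw [Pi.single_eq_of_ne hk, mul_zero]
    · intro hi
      exact absurd (Finset.mem_univ i) hi
  rw [← h1 i, ← h1 j, ← Finset.sum_sub_distrib]
  exact Finset.sum_congr rfl fun k _ => mul_sub _ _ _

/-- The difference of the forms of the factors `i` and `j`. -/
theorem LF.rowJ (hL : LF n h u s z y q) {i j : Fin d} {X : ℝ}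
    (h1 : ∀ T ∈ Mo n, T i ≠ 0 → T j = 0 → vM h u T ≤ X)
    (h2 : ∀ T ∈ Mo n, T i = 0 → T j ≠ 0 → vM h u T ≤ X)
    (h3 : vT u s i 0 ≤ X) (h4 : vT u s j 0 ≤ X) :
    ∑ T ∈ (Mo n).filter (fun T => vM h u T = X ∧ T i ≠ 0 ∧ T j = 0), z T +
        (if vT u s i 0 = X then y i 0 else 0) =
      ∑ T ∈ (Mo n).filter (fun T => vM h u T = X ∧ T i = 0 ∧ T j ≠ 0), z T +
        (if vT u s j 0 = X then y j 0 else 0) := by
  classical
  set e : Fin d → ℚ := fun k => (Pi.single i 1 : Fin d → ℚ) k - (Pi.single j 1 : Fin d → ℚ) k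
    with he
  have hs : ∀ T : Fin d → ℕ, ∑ k, (if T k = 0 then (0 : ℚ) else e k) =
      (if T i = 0 then 0 else 1) - (if T j = 0 then 0 else 1) := by
    intro T
    rw [← Val0_sum i j fun k => if T k = 0 then 0 else 1]
    refine Finset.sum_congr rfl fun k _ => ?_
    split_ifs
    · rw [zero_mul]
    · rw [one_mul]
  have he0 : ∑ k, e k = 0 := by
    have h5 := Val0_sum i j fun _ => 1
    rw [sub_self] at h5
    rw [← h5]
    exact Finset.sum_congr rfl fun k _ => (one_mul _).symm
  have hz : ∀ k, k ≠ i → k ≠ j → e k = 0 := by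
    intro k hi hj
    simp only [he]
    rw [Pi.single_eq_of_ne hi, Pi.single_eq_of_ne hj, sub_zero]
  have h5 := hL.rel (fun k b => if b = 0 then 0 else e k) e X (fun k => if_pos rfl)
    (fun T hT hlt => by
      rw [hs T]
      by_cases hi : T i = 0 <;> by_cases hj : T j = 0
      · rw [if_pos hi, if_pos hj, sub_zero]
      · exact absurd (h2 T hT hi hj) (not_le.2 hlt)
      · exact absurd (h1 T hT hi hj) (not_le.2 hlt)
      · rw [if_neg hi, if_neg hj, sub_self])
    (fun k b hb hlt => by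
      by_cases hb0 : b = 0
      · subst hb0
        rw [if_pos rfl]
        refine hz k ?_ ?_
        · rintro rfl
          exact absurd h3 (not_le.2 hlt)
        · rintro rfl
          exact absurd h4 (not_le.2 hlt)
      · rw [if_neg hb0])
    (fun _ => he0)
  have h6 : ∑ T ∈ (Mo n).filter (fun T => vM h u T = X),
      z T * ((∑ k, (if T k = 0 then (0 : ℚ) else e k) : ℚ) : ℂ) =
      ∑ T ∈ (Mo n).filter (fun T => vM h u T = X ∧ T i ≠ 0 ∧ T j = 0), z T -
      ∑ T ∈ (Mo n).filter (fun T => vM h u T = X ∧ T i = 0 ∧ T j ≠ 0), z T := by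
    rw [← Finset.filter_filter, Finset.sum_filter (s := (Mo n).filter fun T => vM h u T = X),
      ← Finset.filter_filter, Finset.sum_filter (s := (Mo n).filter fun T => vM h u T = X)
        (p := fun T => T i = 0 ∧ T j ≠ 0), ← Finset.sum_sub_distrib]
    refine Finset.sum_congr rfl fun T _ => ?_
    rw [hs T]
    by_cases hi : T i = 0 <;> by_cases hj : T j = 0 <;> simp [hi, hj]
  have h7 : ∑ k, ∑ b ∈ (Finset.range (n k + 1)).filter (fun b => vT u s k b = X),
      y k b * ((e k - (if b = 0 then 0 else e k) : ℚ) : ℂ) =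
      (if vT u s i 0 = X then y i 0 else 0) - (if vT u s j 0 = X then y j 0 else 0) := by
    have h8 : ∀ k, ∑ b ∈ (Finset.range (n k + 1)).filter (fun b => vT u s k b = X),
        y k b * ((e k - (if b = 0 then 0 else e k) : ℚ) : ℂ) =
        (if vT u s k 0 = X then y k 0 else 0) * ((e k : ℚ) : ℂ) := by
      intro k
      rw [Finset.sum_filter, Finset.sum_eq_single 0]
      · rw [if_pos (rfl : (0 : ℕ) = 0), sub_zero]
        split_ifs
        · rfl
        · rw [zero_mul]
      · intro b _ hb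
        rw [if_neg hb, sub_self, Rat.cast_zero, mul_zero, ite_self]
      · intro h9
        exact absurd (Finset.mem_range.2 (Nat.succ_pos _)) h9
    rw [Finset.sum_congr rfl fun k _ => h8 k]
    have h9 : ∀ i : Fin d, ∑ k, (if vT u s k 0 = X then y k 0 else 0) *
        (((Pi.single i 1 : Fin d → ℚ) k : ℚ) : ℂ) = if vT u s i 0 = X then y i 0 else 0 := by
      intro i
      rw [Finset.sum_eq_single i]
      · rw [Pi.single_eq_same, Rat.cast_one, mul_one]
      · intro k _ hk
        rw [Pi.single_eq_of_ne hk, Rat.cast_zero, mul_zero]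
      · intro hi
        exact absurd (Finset.mem_univ i) hi
    rw [← h9 i, ← h9 j, ← Finset.sum_sub_distrib]
    refine Finset.sum_congr rfl fun k _ => ?_
    rw [← mul_sub, ← Rat.cast_sub]
  have h10 : (if vP s = X then q * ((∑ k, e k : ℚ) : ℂ) else 0) = 0 := by
    rw [he0]
    split_ifs <;> simp
  rw [h6, h7, h10, sub_zero] at h5
  linear_combination h5

/-- The value of `t (i, b)` is at most the largest value in the row. -/
theorem LF.row_le (hL : LF n h u s z y q) {i : Fin d} {b : ℕ} (hb : b ≠ 0) (hbn : b ≤ n i) :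
    ∃ T ∈ Mo n, T i = b ∧ vT u s i b ≤ vM h u T := by
  by_contra hcon
  simp only [not_exists, not_and, not_le] at hcon
  have h1 := hL.row hb hbn (fun T hT hTb => (hcon T hT hTb).le) le_rfl
  rw [if_pos rfl, Finset.sum_eq_zero fun T hT => ?_] at h1
  · exact hL.y0 i b hbn h1.symm
  · obtain ⟨h2, h3, h4⟩ := Finset.mem_filter.1 hT
    exact absurd h3 (ne_of_lt (hcon T h2 h4))

/-- One of the `t (i, b)` is at least `p`. -/
theorem LF.vP_le (hL : LF n h u s z y q) (i : Fin d) : ∃ b ≤ n i, vP s ≤ vT u s i b := by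
  by_contra hcon
  simp only [not_exists, not_and, not_le] at hcon
  have h1 := hL.rowS i (fun b hb => (hcon b hb).le) le_rfl
  rw [if_pos rfl, Finset.sum_eq_zero fun b hb => ?_] at h1
  · exact hL.q0 h1.symm
  · obtain ⟨h2, h3⟩ := Finset.mem_filter.1 hb
    exact absurd h3 (ne_of_lt (hcon b (Nat.lt_succ_iff.1 (Finset.mem_range.1 h2))))

/-- `t (i, b)` is not the only one of largest value in the row of `s i`. -/
theorem LF.vT_le (hL : LF n h u s z y q) {i : Fin d} {b : ℕ} (hb : b ≤ n i)
    (h1 : ∀ b' ≤ n i, b' ≠ b → vT u s i b' < vT u s i b) : vT u s i b ≤ vP s := by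
  by_contra hcon
  rw [not_le] at hcon
  have h2 := hL.rowS i (X := vT u s i b) (fun b' hb' => by
    by_cases h3 : b' = b
    · rw [h3]
    · exact (h1 b' hb' h3).le) hcon.le
  rw [if_neg (ne_of_lt hcon)] at h2
  have h3 : (Finset.range (n i + 1)).filter (fun b' => vT u s i b' = vT u s i b) = {b} := by
    ext b'
    rw [Finset.mem_filter, Finset.mem_range, Finset.mem_singleton]
    constructor
    · rintro ⟨h3, h4⟩
      by_contra h5
      exact absurd h4 (ne_of_lt (h1 b' (Nat.lt_succ_iff.1 h3) h5))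
    · rintro rfl
      exact ⟨Nat.lt_succ_iff.2 hb, rfl⟩
  rw [h3, Finset.sum_singleton] at h2
  exact hL.y0 i b hb h2

theorem vM_single {i : Fin d} {b : ℕ} (h0 : ∀ j, u j 0 = 0) :
    vM h u (Pi.single i b) = h (Pi.single i b) + u i b := by
  unfold vM
  rw [Finset.sum_eq_single i]
  · rw [Pi.single_eq_same]
  · intro j _ hj
    rw [Pi.single_eq_of_ne hj]
    exact h0 j
  · intro hi
    exact absurd (Finset.mem_univ i) hi

theorem single_mem {i : Fin d} {b : ℕ} (hb : b ≠ 0) (hbn : b ≤ n i) : Pi.single i b ∈ Mo n := by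
  refine mem_Mo.2 ⟨fun h1 => ?_, fun j => ?_⟩
  · have h2 := congrFun h1 i
    rw [Pi.single_eq_same] at h2
    exact hb h2
  · by_cases hj : j = i
    · subst hj
      rw [Pi.single_eq_same]
      exact hbn
    · rw [Pi.single_eq_of_ne hj]
      exact Nat.zero_le _

/-- If `p` is above the monomials then all `s i` have exponent zero. -/
private theorem Val0_s (hL : LF n h u s z y q) (hV : ∀ T ∈ Mo n, vM h u T ≤ V)
    (hlt : V < vP s) (i : Fin d) : s i = 0 := by
  have h1 : ∀ b ≤ n i, b ≠ 0 → vT u s i b < vP s := by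
    intro b hb hb0
    obtain ⟨T, hT, _, h2⟩ := hL.row_le hb0 hb
    exact (h2.trans (hV T hT)).trans_lt hlt
  obtain ⟨b, hb, h2⟩ := hL.vP_le i
  have h3 : b = 0 := by
    by_contra h3
    exact absurd h2 (not_le.2 (h1 b hb h3))
  subst h3
  have h4 := hL.vT_le (i := i) (b := 0) hb (fun b' hb' h5 => (h1 b' hb' h5).trans_le h2)
  have h5 : vT u s i 0 = vP s := le_antisymm h4 h2
  unfold vT vP at h5
  rw [hL.u0 i] at h5
  linarith

/-- The top value is the value of a monomial: `p`. -/
theorem LF.vP_top (hL : LF n h u s z y q) (hx : Hx n h H c) (hd : 0 < d) (hn : ∀ i, 1 ≤ n i)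
    (hV : ∀ T ∈ Mo n, vM h u T ≤ V) : vP s ≤ V := by
  by_contra hcon
  rw [not_le] at hcon
  have hs := Val0_s hL hV hcon
  have hP : vP s = 0 := Finset.sum_eq_zero fun i _ => hs i
  rw [hP] at hcon
  have hc := hx.pos
  have hH : 3 * c < H := by
    have h1 := hx.flat
    have h2 : (0 : ℝ) ≤ d := Nat.cast_nonneg d
    nlinarith [mul_nonneg h2 hc.le]
  -- all exponents are very negative
  have hu : ∀ j, ∀ b ≤ n j, b ≠ 0 → u j b < c - H := by
    intro j b hb hb0
    have h1 := hV _ (single_mem (i := j) hb0 hb)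
    rw [vM_single hL.u0] at h1
    have h2 := abs_le.1 (hx.near _ (single_mem (i := j) hb0 hb))
    linarith
  have hu' : ∀ j, ∀ b ≤ n j, u j b ≤ 0 := by
    intro j b hb
    by_cases hb0 : b = 0
    · rw [hb0, hL.u0]
    · have := hu j b hb hb0
      linarith
  set i : Fin d := ⟨0, hd⟩
  have hm := single_mem (n := n) (i := i) one_ne_zero (hn i)
  have hnear := abs_le.1 (hx.near _ hm)
  have h1 : ∀ T ∈ Mo n, T i = 1 → T ≠ Pi.single i 1 → vM h u T < vM h u (Pi.single i 1) := by
    intro T hT hTi hne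
    obtain ⟨j, hj⟩ : ∃ j, j ≠ i ∧ T j ≠ 0 := by
      by_contra h2
      simp only [not_exists, not_and, not_not] at h2
      apply hne
      funext k
      by_cases hk : k = i
      · rw [hk, Pi.single_eq_same, hTi]
      · rw [Pi.single_eq_of_ne hk, h2 k hk]
    have h2 := abs_le.1 (hx.near T hT)
    have hTn := (mem_Mo.1 hT).2
    have h3 : ∑ k, u k (T k) ≤ u i 1 + u j (T j) := by
      rw [← Finset.add_sum_erase _ _ (Finset.mem_univ i), hTi]
      have h4 : ∑ k ∈ Finset.univ.erase i, u k (T k) ≤ u j (T j) := by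
        rw [← Finset.add_sum_erase _ _ (Finset.mem_erase.2 ⟨hj.1, Finset.mem_univ j⟩)]
        have h5 : ∑ k ∈ (Finset.univ.erase i).erase j, u k (T k) ≤ 0 :=
          Finset.sum_nonpos fun k _ => hu' k _ (hTn k)
        linarith
      linarith
    have h4 := hu j (T j) (hTn j) hj.2
    rw [vM_single hL.u0]
    unfold vM
    linarith
  have h2 := hL.row (i := i) (b := 1) one_ne_zero (hn i) (X := vM h u (Pi.single i 1))
    (fun T hT hTi => by
      by_cases h3 : T = Pi.single i 1
      · rw [h3]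
      · exact (h1 T hT hTi h3).le) (by
      rw [vM_single hL.u0]
      unfold vT
      have h3 : ∑ j, s j = 0 := hP
      rw [h3, hs i]
      have h4 := hu i 1 (hn i) one_ne_zero
      linarith)
  rw [if_neg] at h2
  · have h3 : (Mo n).filter (fun T => vM h u T = vM h u (Pi.single i 1) ∧ T i = 1) =
        {Pi.single i 1} := by
      ext T
      rw [Finset.mem_filter, Finset.mem_singleton]
      constructor
      · rintro ⟨h3, h4, h5⟩
        by_contra h6
        exact absurd h4 (ne_of_lt (h1 T h3 h5 h6))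
      · rintro rfl
        exact ⟨hm, rfl, Pi.single_eq_same i 1⟩
    rw [h3, Finset.sum_singleton] at h2
    exact hL.z0 _ hm h2
  · rw [vM_single hL.u0]
    unfold vT
    have h3 : ∑ j, s j = 0 := hP
    rw [h3, hs i]
    have h4 := hu i 1 (hn i) one_ne_zero
    intro h5
    linarith

/-- The top value is the value of a monomial: the `t (i, b)`. -/
theorem LF.vT_top (hL : LF n h u s z y q) (hx : Hx n h H c) (hd : 0 < d) (hn : ∀ i, 1 ≤ n i)
    (hV : ∀ T ∈ Mo n, vM h u T ≤ V) (i : Fin d) {b : ℕ} (hb : b ≤ n i) : vT u s i b ≤ V := by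
  have h1 : ∀ b' ≤ n i, b' ≠ 0 → vT u s i b' ≤ V := by
    intro b' hb' hb0
    obtain ⟨T, hT, _, h2⟩ := hL.row_le hb0 hb'
    exact h2.trans (hV T hT)
  by_cases hb0 : b = 0
  · subst hb0
    by_contra hcon
    rw [not_le] at hcon
    have h2 := hL.vT_le (i := i) (b := 0) hb (fun b' hb' h3 => (h1 b' hb' h3).trans_lt hcon)
    have h3 := hL.vP_top hx hd hn hV
    linarith
  · exact h1 b hb hb0

end Pool.Agent.MPb0eA
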